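import Pool.Agent.Y195.LM.Prof

/-!
# The two algebraic inequalities of the calibration
-/

set_option autoImplicit false

open Set Filter Topology

namespace Pool.Agent.Y195.LM

/-- the inequality near the graph of a harmonic function with gradient `g` -/
lemma near {g L : ℂ} {h lam G Lb : ℝ} (hh : 0 < h) (hlam : 0 ≤ lam) (hg : ‖g‖ ≤ G)
    (hL : ‖L‖ ≤ Lb) (hc : (2 * G + h * Lb / 2) ^ 2 ≤ h ^ 2 * lam / 6) (τ : ℝ) :
    -2 * aL h τ * ‖g‖ ^ 2 - 2 * bL h τ * inner ℝ g L - 2 * BL h τ * lam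
      + ‖(2 * aL h τ) • g + (2 * bL h τ) • L‖ ^ 2 / 4 ≤ h ^ 2 * lam / 6 - ‖g‖ ^ 2 := by
  have hx := cL_abs h τ
  obtain ⟨x, hxe⟩ : ∃ x, x = cL h τ := ⟨_, rfl⟩
  have ea : aL h τ = (1 - x ^ 2) ^ 2 := by rw [hxe]; rfl
  have eb : bL h τ = h / 2 * x * (1 - x ^ 2) ^ 2 := by rw [hxe]; rfl
  have eB : BL h τ = -(h ^ 2 / 12 * (1 - x ^ 2) ^ 3) := by rw [hxe]; rfl
  rw [← hxe] at hx
  obtain ⟨a, hae⟩ : ∃ a, a = aL h τ := ⟨_, rfl⟩
  obtain ⟨b, hbe⟩ : ∃ b, b = bL h τ := ⟨_, rfl⟩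
  rw [← hae] at ea
  rw [← hbe] at eb
  rw [← hae, ← hbe, eB]
  have hx2 : x ^ 2 ≤ 1 := by rw [← sq_abs]; nlinarith [abs_nonneg x]
  have hx20 : 0 ≤ x ^ 2 := sq_nonneg x
  have n1 : ‖(2 * a) • g + (2 * b) • L‖ ^ 2 =
      4 * a ^ 2 * ‖g‖ ^ 2 + 8 * a * b * inner ℝ g L + 4 * b ^ 2 * ‖L‖ ^ 2 := by
    rw [norm_add_sq_real, norm_smul, norm_smul, inner_smul_left, inner_smul_right, mul_pow,
      mul_pow, Real.norm_eq_abs, Real.norm_eq_abs, sq_abs, sq_abs]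
    simp only [conj_trivial]
    ring
  have n2 : ‖(1 - a) • g - b • L‖ ^ 2 =
      (1 - a) ^ 2 * ‖g‖ ^ 2 - 2 * (1 - a) * b * inner ℝ g L + b ^ 2 * ‖L‖ ^ 2 := by
    rw [norm_sub_sq_real, norm_smul, norm_smul, inner_smul_left, inner_smul_right, mul_pow,
      mul_pow, Real.norm_eq_abs, Real.norm_eq_abs, sq_abs, sq_abs]
    simp only [conj_trivial]
    ring
  have hG : 0 ≤ G := (norm_nonneg _).trans hg
  have hLb : 0 ≤ Lb := (norm_nonneg _).trans hL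
  have e1a : 1 - a = x ^ 2 * (2 - x ^ 2) := by rw [ea]; ring
  have n3 : ‖(1 - a) • g - b • L‖ ≤ |x| * (2 * G + h * Lb / 2) := by
    have i1 : ‖(1 - a) • g‖ ≤ |x| * (2 * G) := by
      rw [norm_smul, Real.norm_eq_abs, e1a, abs_of_nonneg (mul_nonneg hx20 (by linarith)),
        ← sq_abs x]
      have j1 : |x| ^ 2 * (2 - |x| ^ 2) ≤ |x| * 2 := by
        have := abs_nonneg x
        have k1 : |x| ^ 2 ≤ |x| := by nlinarith
        nlinarith [sq_nonneg |x|]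
      have j0 : 0 ≤ |x| * 2 := by positivity
      calc |x| ^ 2 * (2 - |x| ^ 2) * ‖g‖ ≤ |x| * 2 * G :=
            mul_le_mul j1 hg (norm_nonneg _) j0
        _ = |x| * (2 * G) := by ring
    have i2 : ‖b • L‖ ≤ |x| * (h * Lb / 2) := by
      rw [norm_smul, Real.norm_eq_abs, eb, abs_mul, abs_mul, abs_of_pos (by positivity : 0 < h / 2)]
      have j1 : |(1 - x ^ 2) ^ 2| ≤ 1 := by
        rw [abs_of_nonneg (sq_nonneg _)]
        nlinarith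
      have j0 : 0 ≤ h / 2 * |x| := by positivity
      calc h / 2 * |x| * |(1 - x ^ 2) ^ 2| * ‖L‖ ≤ h / 2 * |x| * 1 * Lb := by
            apply mul_le_mul _ hL (norm_nonneg _) (by positivity)
            exact mul_le_mul_of_nonneg_left j1 j0
        _ = |x| * (h * Lb / 2) := by ring
    calc ‖(1 - a) • g - b • L‖ ≤ ‖(1 - a) • g‖ + ‖b • L‖ := norm_sub_le _ _
      _ ≤ |x| * (2 * G) + |x| * (h * Lb / 2) := add_le_add i1 i2
      _ = |x| * (2 * G + h * Lb / 2) := by ring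
  have n4 : ‖(1 - a) • g - b • L‖ ^ 2 ≤ x ^ 2 * (h ^ 2 * lam / 6) := by
    have := pow_le_pow_left₀ (norm_nonneg _) n3 2
    rw [mul_pow, sq_abs] at this
    exact this.trans (mul_le_mul_of_nonneg_left hc hx20)
  have n5 : x ^ 2 * (h ^ 2 * lam / 6) ≤ (1 - (1 - x ^ 2) ^ 3) * (h ^ 2 * lam / 6) := by
    apply mul_le_mul_of_nonneg_right _ (by positivity)
    have h3 : (1 - x ^ 2) ^ 3 ≤ 1 - x ^ 2 := by
      have h4 : 0 ≤ 1 - x ^ 2 := by linarith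
      have h5 : (1 - x ^ 2) ^ 2 ≤ 1 := by nlinarith
      calc (1 - x ^ 2) ^ 3 = (1 - x ^ 2) * (1 - x ^ 2) ^ 2 := by ring
        _ ≤ (1 - x ^ 2) * 1 := mul_le_mul_of_nonneg_left h5 h4
        _ = 1 - x ^ 2 := mul_one _
    linarith
  rw [n1]
  rw [n2] at n4
  have e : -2 * a * ‖g‖ ^ 2 - 2 * b * inner ℝ g L - 2 * -(h ^ 2 / 12 * (1 - x ^ 2) ^ 3) * lam
      + (4 * a ^ 2 * ‖g‖ ^ 2 + 8 * a * b * inner ℝ g L + 4 * b ^ 2 * ‖L‖ ^ 2) / 4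
      = ((1 - a) ^ 2 * ‖g‖ ^ 2 - 2 * (1 - a) * b * inner ℝ g L + b ^ 2 * ‖L‖ ^ 2)
        - (1 - (1 - x ^ 2) ^ 3) * (h ^ 2 * lam / 6) + (h ^ 2 * lam / 6 - ‖g‖ ^ 2) := by ring
  rw [e]
  linarith

/-- scalar form of the second inequality -/
lemma key_real {n i tr ti R M c n0 h β τ ρ x y : ℝ} (hτ : |τ| ≤ 1)
    (hx : |x| ≤ 1) (hy : |y| ≤ 1) (hh : 0 < h) (hM : 0 ≤ M) (hβ : 0 ≤ β)
    (hn : n0 ≤ n) (hn' : n ≤ M) (hi : |i| ≤ M * |τ|) (hn0 : 0 < n0) (hc : 0 < c)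
    (htr : |tr| ≤ 2 * h * M * |τ| * (|x| + |y|)) (hti : |ti| ≤ 2 * h * M * (|x| + |y|))
    (hR1 : 3 / 20 * β * h ^ 2 * (x ^ 2 + y ^ 2) ≤ R)
    (hR2 : R ≤ 11 / 20 * β * h ^ 2 * (x ^ 2 + y ^ 2))
    (hNρ : n ^ 2 + i ^ 2 ≤ ρ ^ 2 - c * τ ^ 2)
    (C4 : 32 * M ^ 4 / c + 24 * M ^ 2 ≤ 9 / 40 * n0 * β)
    (C5 : 11 / 10 * β * h ^ 2 ≤ n0 / 4) :
    (-n + tr + R) ^ 2 + (i + ti) ^ 2 ≤ ρ ^ 2 := by
  obtain ⟨s, hs⟩ : ∃ s, s = |x| + |y| := ⟨_, rfl⟩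
  obtain ⟨E, hE⟩ : ∃ E, E = x ^ 2 + y ^ 2 := ⟨_, rfl⟩
  rw [← hs] at htr hti
  rw [← hE] at hR1 hR2
  have ax := abs_nonneg x
  have ay := abs_nonneg y
  have aτ := abs_nonneg τ
  have hs0 : 0 ≤ s := by rw [hs]; positivity
  have hE0 : 0 ≤ E := by rw [hE]; positivity
  have hsE : s ^ 2 ≤ 2 * E := by
    rw [hs, hE, ← sq_abs x, ← sq_abs y]
    nlinarith [sq_nonneg (|x| - |y|)]
  have hE2 : E ≤ 2 := by
    rw [hE, ← sq_abs x, ← sq_abs y]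
    nlinarith
  have hR0 : 0 ≤ R := le_trans (by positivity) hR1
  have hRn : R ≤ n0 / 4 := by
    refine hR2.trans (le_trans ?_ C5)
    have h1 : 0 ≤ 11 / 20 * β * h ^ 2 := by positivity
    calc 11 / 20 * β * h ^ 2 * E ≤ 11 / 20 * β * h ^ 2 * 2 := mul_le_mul_of_nonneg_left hE2 h1
      _ = 11 / 10 * β * h ^ 2 := by ring
  -- the individual bounds
  have b1 : -2 * n * R + 2 * R ^ 2 ≤ -(9 / 40 * n0 * β) * (h ^ 2 * E) := by
    have h1 : R * n0 ≤ R * n := mul_le_mul_of_nonneg_left hn hR0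
    have h2 : R * R ≤ R * (n0 / 4) := mul_le_mul_of_nonneg_left hRn hR0
    have h3 : n0 * (3 / 20 * β * h ^ 2 * E) ≤ n0 * R := mul_le_mul_of_nonneg_left hR1 hn0.le
    have e1 : R * n = n * R := mul_comm _ _
    have e2 : -(9 / 40 * n0 * β) * (h ^ 2 * E) = -(3 / 2) * (n0 * (3 / 20 * β * h ^ 2 * E)) := by
      ring
    rw [e2]
    nlinarith
  have b2 : 2 * n * |tr| ≤ 4 * M ^ 2 * (h * |τ| * s) := by
    have h0 : 0 ≤ n := hn0.le.trans hn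
    calc 2 * n * |tr| ≤ 2 * M * (2 * h * M * |τ| * s) := by
          apply mul_le_mul _ htr (abs_nonneg _) (by positivity)
          linarith
      _ = 4 * M ^ 2 * (h * |τ| * s) := by ring
  have b3 : 2 * |i| * |ti| ≤ 4 * M ^ 2 * (h * |τ| * s) := by
    calc 2 * |i| * |ti| ≤ 2 * (M * |τ|) * (2 * h * M * s) := by
          apply mul_le_mul _ hti (abs_nonneg _) (by positivity)
          linarith
      _ = 4 * M ^ 2 * (h * |τ| * s) := by ring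
  have b4 : 8 * M ^ 2 * (h * |τ| * s) ≤ c * τ ^ 2 + 32 * M ^ 4 / c * (h ^ 2 * E) := by
    have h1 : 8 * M ^ 2 * (h * |τ| * s) ≤ c * τ ^ 2 + 16 * M ^ 4 / c * (h ^ 2 * s ^ 2) := by
      rw [← sq_abs τ]
      have h2 : 0 ≤ (c * |τ| - 4 * M ^ 2 * (h * s)) ^ 2 / c := by positivity
      have h3 : (c * |τ| - 4 * M ^ 2 * (h * s)) ^ 2 / c
          = c * |τ| ^ 2 + 16 * M ^ 4 / c * (h ^ 2 * s ^ 2) - 8 * M ^ 2 * (h * |τ| * s) := by
        field_simp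
        ring
      linarith
    have h4 : 16 * M ^ 4 / c * (h ^ 2 * s ^ 2) ≤ 32 * M ^ 4 / c * (h ^ 2 * E) := by
      have h5 : 0 ≤ 16 * M ^ 4 / c * h ^ 2 := by positivity
      calc 16 * M ^ 4 / c * (h ^ 2 * s ^ 2) = 16 * M ^ 4 / c * h ^ 2 * s ^ 2 := by ring
        _ ≤ 16 * M ^ 4 / c * h ^ 2 * (2 * E) := mul_le_mul_of_nonneg_left hsE h5
        _ = 32 * M ^ 4 / c * (h ^ 2 * E) := by ring
    linarith
  have b5 : 2 * tr ^ 2 ≤ 16 * M ^ 2 * (h ^ 2 * E) := by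
    have h1 : tr ^ 2 ≤ (2 * h * M * |τ| * s) ^ 2 := by
      rw [← sq_abs tr]
      exact pow_le_pow_left₀ (abs_nonneg _) htr 2
    have h2 : |τ| ^ 2 ≤ 1 := by nlinarith
    have h3 : (2 * h * M * |τ| * s) ^ 2 ≤ 4 * h ^ 2 * M ^ 2 * (1 * (2 * E)) := by
      have : (2 * h * M * |τ| * s) ^ 2 = 4 * h ^ 2 * M ^ 2 * (|τ| ^ 2 * s ^ 2) := by ring
      rw [this]
      apply mul_le_mul_of_nonneg_left _ (by positivity)
      exact mul_le_mul h2 hsE (by positivity) (by norm_num)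
    linarith
  have b6 : ti ^ 2 ≤ 8 * M ^ 2 * (h ^ 2 * E) := by
    have h1 : ti ^ 2 ≤ (2 * h * M * s) ^ 2 := by
      rw [← sq_abs ti]
      exact pow_le_pow_left₀ (abs_nonneg _) hti 2
    have h3 : (2 * h * M * s) ^ 2 ≤ 4 * h ^ 2 * M ^ 2 * (2 * E) := by
      have : (2 * h * M * s) ^ 2 = 4 * h ^ 2 * M ^ 2 * s ^ 2 := by ring
      rw [this]
      exact mul_le_mul_of_nonneg_left hsE (by positivity)
    linarith
  have b7 : 0 ≤ (9 / 40 * n0 * β - (32 * M ^ 4 / c + 24 * M ^ 2)) * (h ^ 2 * E) :=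
    mul_nonneg (by linarith) (by positivity)
  have b8 : -2 * n * tr ≤ 2 * n * |tr| := by
    have h0 : 0 ≤ n := hn0.le.trans hn
    have := mul_le_mul_of_nonneg_left (neg_le_abs tr) h0
    linarith
  have b9 : 2 * i * ti ≤ 2 * |i| * |ti| := by
    have := le_abs_self (i * ti)
    rw [abs_mul] at this
    linarith
  have b10 : 2 * tr * R ≤ tr ^ 2 + R ^ 2 := by nlinarith [sq_nonneg (tr - R)]
  have e : (-n + tr + R) ^ 2 + (i + ti) ^ 2 = (n ^ 2 + i ^ 2) + (-2 * n * R) + (-2 * n * tr)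
      + (tr ^ 2 + 2 * tr * R + R ^ 2) + 2 * i * ti + ti ^ 2 := by ring
  rw [e]
  linarith

/-- the second inequality -/
lemma key_cx {N gp gm : ℂ} {M c n0 h β τ ρ x y l l' : ℝ} (hτ : |τ| ≤ 1)
    (hx : |x| ≤ 1) (hy : |y| ≤ 1) (hh : 0 < h) (hM : 0 ≤ M) (hβ : 0 ≤ β)
    (hn : n0 ≤ -N.re) (hn' : -N.re ≤ M) (hi : |N.im| ≤ M * |τ|) (hn0 : 0 < n0) (hc : 0 < c)
    (hp1 : |gp.re| ≤ M * |τ|) (hp2 : |gp.im| ≤ M) (hm1 : |gm.re| ≤ M * |τ|) (hm2 : |gm.im| ≤ M)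
    (hl1 : 9 / 10 * β ≤ l) (hl2 : l ≤ 11 / 10 * β)
    (hl1' : 9 / 10 * β ≤ l') (hl2' : l' ≤ 11 / 10 * β)
    (hNρ : ‖N‖ ^ 2 ≤ ρ ^ 2 - c * τ ^ 2) (hρ : 0 ≤ ρ)
    (C4 : 32 * M ^ 4 / c + 24 * M ^ 2 ≤ 9 / 40 * n0 * β)
    (C5 : 11 / 10 * β * h ^ 2 ≤ n0 / 4) :
    ‖N + ((2 * h * ph y : ℝ) : ℂ) * gm - ((2 * h * ph x : ℝ) : ℂ) * gp
      + ((h ^ 2 / 6 * ((1 - (1 - y ^ 2) ^ 3) * l' + (1 - (1 - x ^ 2) ^ 3) * l) : ℝ) : ℂ)‖ ≤ ρ := by
  have hpx := ph_abs hx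
  have hpy := ph_abs hy
  have one : ∀ {z : ℝ}, |z| ≤ 1 → z ^ 2 ≤ 1 - (1 - z ^ 2) ^ 3 ∧ 1 - (1 - z ^ 2) ^ 3 ≤ 3 * z ^ 2 := by
    intro z hz
    have h1 : z ^ 2 ≤ 1 := by rw [← sq_abs]; nlinarith [abs_nonneg z]
    have h0 : 0 ≤ z ^ 2 := sq_nonneg z
    constructor
    · nlinarith [mul_nonneg h0 (mul_nonneg (sub_nonneg.2 h1) (by linarith : 0 ≤ 2 - z ^ 2))]
    · nlinarith [mul_nonneg (mul_nonneg h0 h0) (by linarith : 0 ≤ 3 - z ^ 2)]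
  obtain ⟨x1, x2⟩ := one hx
  obtain ⟨y1, y2⟩ := one hy
  have h2n : ‖N + ((2 * h * ph y : ℝ) : ℂ) * gm - ((2 * h * ph x : ℝ) : ℂ) * gp
      + ((h ^ 2 / 6 * ((1 - (1 - y ^ 2) ^ 3) * l' + (1 - (1 - x ^ 2) ^ 3) * l) : ℝ) : ℂ)‖ ^ 2
      = (-(-N.re) + (2 * h * ph y * gm.re - 2 * h * ph x * gp.re)
          + (h ^ 2 / 6 * ((1 - (1 - y ^ 2) ^ 3) * l' + (1 - (1 - x ^ 2) ^ 3) * l))) ^ 2
        + (N.im + (2 * h * ph y * gm.im - 2 * h * ph x * gp.im)) ^ 2 := by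
    rw [← Complex.normSq_eq_norm_sq, Complex.normSq_apply]
    simp only [Complex.add_re, Complex.add_im, Complex.sub_re, Complex.sub_im, Complex.mul_re,
      Complex.mul_im, Complex.ofReal_re, Complex.ofReal_im]
    ring
  have hNn : (-N.re) ^ 2 + N.im ^ 2 ≤ ρ ^ 2 - c * τ ^ 2 := by
    rw [← Complex.normSq_eq_norm_sq, Complex.normSq_apply] at hNρ
    nlinarith
  have htr : |2 * h * ph y * gm.re - 2 * h * ph x * gp.re| ≤
      2 * h * M * |τ| * (|x| + |y|) := by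
    refine (abs_sub _ _).trans ?_
    have e1 : |2 * h * ph y * gm.re| ≤ 2 * h * |y| * (M * |τ|) := by
      rw [abs_mul, abs_mul, abs_of_pos (by positivity : 0 < 2 * h)]
      exact mul_le_mul (mul_le_mul_of_nonneg_left hpy (by positivity)) hm1 (abs_nonneg _)
        (by positivity)
    have e2 : |2 * h * ph x * gp.re| ≤ 2 * h * |x| * (M * |τ|) := by
      rw [abs_mul, abs_mul, abs_of_pos (by positivity : 0 < 2 * h)]
      exact mul_le_mul (mul_le_mul_of_nonneg_left hpx (by positivity)) hp1 (abs_nonneg _)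
        (by positivity)
    linarith
  have hti : |2 * h * ph y * gm.im - 2 * h * ph x * gp.im| ≤ 2 * h * M * (|x| + |y|) := by
    refine (abs_sub _ _).trans ?_
    have e1 : |2 * h * ph y * gm.im| ≤ 2 * h * |y| * M := by
      rw [abs_mul, abs_mul, abs_of_pos (by positivity : 0 < 2 * h)]
      exact mul_le_mul (mul_le_mul_of_nonneg_left hpy (by positivity)) hm2 (abs_nonneg _)
        (by positivity)
    have e2 : |2 * h * ph x * gp.im| ≤ 2 * h * |x| * M := by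
      rw [abs_mul, abs_mul, abs_of_pos (by positivity : 0 < 2 * h)]
      exact mul_le_mul (mul_le_mul_of_nonneg_left hpx (by positivity)) hp2 (abs_nonneg _)
        (by positivity)
    linarith
  have hlp : 0 ≤ l := le_trans (by positivity) hl1
  have hlp' : 0 ≤ l' := le_trans (by positivity) hl1'
  have hR1 : 3 / 20 * β * h ^ 2 * (x ^ 2 + y ^ 2) ≤
      h ^ 2 / 6 * ((1 - (1 - y ^ 2) ^ 3) * l' + (1 - (1 - x ^ 2) ^ 3) * l) := by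
    have e1 : y ^ 2 * (9 / 10 * β) ≤ (1 - (1 - y ^ 2) ^ 3) * l' :=
      mul_le_mul y1 hl1' (by positivity) ((sq_nonneg y).trans y1)
    have e2 : x ^ 2 * (9 / 10 * β) ≤ (1 - (1 - x ^ 2) ^ 3) * l :=
      mul_le_mul x1 hl1 (by positivity) ((sq_nonneg x).trans x1)
    have e3 : 3 / 20 * β * h ^ 2 * (x ^ 2 + y ^ 2)
        = h ^ 2 / 6 * (y ^ 2 * (9 / 10 * β) + x ^ 2 * (9 / 10 * β)) := by ring
    rw [e3]
    exact mul_le_mul_of_nonneg_left (add_le_add e1 e2) (by positivity)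
  have hR2 : h ^ 2 / 6 * ((1 - (1 - y ^ 2) ^ 3) * l' + (1 - (1 - x ^ 2) ^ 3) * l) ≤
      11 / 20 * β * h ^ 2 * (x ^ 2 + y ^ 2) := by
    have e1 : (1 - (1 - y ^ 2) ^ 3) * l' ≤ 3 * y ^ 2 * (11 / 10 * β) :=
      mul_le_mul y2 hl2' hlp' (by positivity)
    have e2 : (1 - (1 - x ^ 2) ^ 3) * l ≤ 3 * x ^ 2 * (11 / 10 * β) :=
      mul_le_mul x2 hl2 hlp (by positivity)
    have e3 : 11 / 20 * β * h ^ 2 * (x ^ 2 + y ^ 2)
        = h ^ 2 / 6 * (3 * y ^ 2 * (11 / 10 * β) + 3 * x ^ 2 * (11 / 10 * β)) := by ring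
    rw [e3]
    exact mul_le_mul_of_nonneg_left (add_le_add e1 e2) (by positivity)
  have key := key_real hτ hx hy hh hM hβ hn hn' hi hn0 hc htr hti hR1 hR2 hNn C4 C5
  rw [← h2n] at key
  exact (pow_le_pow_iff_left₀ (norm_nonneg _) hρ (by norm_num)).1 key

end Pool.Agent.Y195.LM
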