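import Pool.Agent.Y195.LM.Defs

/-!
# Statements of the jobs of project LM
-/

set_option autoImplicit false

open MeasureTheory Set Filter Topology Metric Complex Pool.Agent.TH605.MS
open scoped ENNReal ComplexConjugate Real

namespace Pool.Agent.Y195.LM

/-- the piecewise function is in `SBV_loc`, its discontinuity set is the curve -/
def S_SBV : Prop := ∀ D : Dat, IsSBVlocWith D.Om D.u0 D.g0 D.vP D.vQ D.nu0 ∧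
  jumpSet D.Om D.u0 = D.Gam ∧ discSet D.Om D.u0 = D.Gam ∧
  ∀ A, OpenIn D.Om A → energy D.Om D.u0 D.g0 A < (⊤ : ℝ≥0∞)

/-- Gauss–Green on both sides of the curve -/
def S_GG : Prop := ∀ (D : Dat) (F : ℂ → ℝ), ContDiffOn ℝ 1 F D.Om → ∀ K : Set ℂ, IsCompact K →
  K ⊆ D.Om → (∀ z ∉ K, F z = 0) → ∀ v : ℂ,
    (∫ z in D.OmOut, fderiv ℝ F z v =
      -∫ z in D.Gam, F z * inner ℝ (D.nu0 z) v ∂(μH[1] : Measure ℂ)) ∧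
    (∫ z in D.OmIn, fderiv ℝ F z v =
      ∫ z in D.Gam, F z * inner ℝ (D.nu0 z) v ∂(μH[1] : Measure ℂ))

/-- continuous functions are integrable on the curve -/
def S_INT : Prop := ∀ (D : Dat) (F : ℂ → ℂ), ContinuousOn F D.Gam →
  IntegrableOn F D.Gam (μH[1] : Measure ℂ)

/-- transport of a periodic field by the logarithm -/
def S_TRP : Prop := ∀ (σ : ℝ) (H : ℂ × ℝ → ℂ), 0 < σ → σ ≤ 1 / 2 →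
  ContDiffOn ℝ 1 H (Strip σ ×ˢ univ) → (∀ (w : ℂ) (t : ℝ), H (w + 2 * π * I, t) = H (w, t)) →
  ContDiffOn ℝ 1 (fun p : ℂ × ℝ => (conj p.1)⁻¹ * H (Complex.log p.1, p.2)) (An σ ×ˢ univ) ∧
  ∀ X ∈ An σ, ∀ t : ℝ, Complex.log X ∈ Strip σ ∧
    divx (fun p : ℂ × ℝ => (conj p.1)⁻¹ * H (Complex.log p.1, p.2)) (X, t)
      = (‖X‖ ^ 2)⁻¹ * divx H (Complex.log X, t) ∧
    dt (fun p : ℂ × ℝ => (conj p.1)⁻¹ * H (Complex.log p.1, p.2)) (X, t)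
      = (conj X)⁻¹ * dt H (Complex.log X, t)

/-- the second order condition -/
def S_SEC : Prop := ∀ (q q1 q2 : ℂ → ℂ) (a : ℝ), 0 < a →
  (∀ w ∈ Strip a, HasDerivAt q (q1 w) w) → (∀ w ∈ Strip a, HasDerivAt q1 (q2 w) w) →
  (∀ w ∈ Strip a, q w ≠ 0) → (∀ w, q (w + 2 * π * I) = q w) →
  (∃ θ : ℝ, (q1 (θ * I) * conj (q (θ * I))).re ≠ 0) →
  ∃ (ε c δ : ℝ) (μ μ1 : ℝ → ℝ), 0 < ε ∧ 0 < c ∧ 0 < δ ∧ δ < a ∧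
    (∀ θ, HasDerivAt μ (μ1 θ) θ) ∧ ContDiff ℝ 1 μ1 ∧
    (∀ θ, μ (θ + 2 * π) = μ θ) ∧ (∀ θ, μ1 (θ + 2 * π) = μ1 θ) ∧
    ∀ τ θ : ℝ, |τ| ≤ δ →
      (r0 q θ + r1 q q1 θ * τ + (μ1 θ / 2 + ε) * τ ^ 2) ^ 2 + (μ θ * τ) ^ 2 ≤
        ‖q (τ + θ * I)‖ ^ 2 - c * τ ^ 2

/-- closed curves have points of nonzero curvature -/
def S_NEZ : Prop := ∀ F q q1 : ℂ → ℂ, (∀ θ : ℝ, HasDerivAt F (q (θ * I)) (θ * I)) →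
  (∀ θ : ℝ, HasDerivAt q (q1 (θ * I)) (θ * I)) → (∀ θ : ℝ, q (θ * I) ≠ 0) →
  (∀ w, F (w + 2 * π * I) = F w) → ∃ θ : ℝ, (q1 (θ * I) * conj (q (θ * I))).re ≠ 0

/-- primitives on a strip -/
def S_PRIM : Prop := ∀ (a : ℝ) (c : ℂ → ℂ), 0 < a → DifferentiableOn ℂ c (Strip a) →
  ∃ G : ℂ → ℂ, ∀ w ∈ Strip a, HasDerivAt G (c w) w

/-- existence of critical functions for centrally symmetric curves with a point of zero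
curvature -/
def S_PQ : Prop := ∀ f : ℂ → ℂ, (∀ X : ℂ, ‖X‖ = 1 → AnalyticAt ℂ f X) →
  (∀ X : ℂ, ‖X‖ = 1 → deriv f X ≠ 0) → (∀ X, f (-X) = -f X) →
  (∃ X : ℂ, ‖X‖ = 1 ∧ (1 + X * deriv (deriv f) X / deriv f X).re = 0) →
  ∃ P Q : ℂ → ℂ, (∀ X : ℂ, ‖X‖ = 1 → AnalyticAt ℂ P X) ∧ (∀ X : ℂ, ‖X‖ = 1 → AnalyticAt ℂ Q X) ∧
    (∀ X : ℂ, ‖X‖ = 1 → (P X).im = 0) ∧ (∀ X : ℂ, ‖X‖ = 1 → (Q X).im = 0) ∧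
    ∀ X : ℂ, ‖X‖ = 1 → ‖deriv P X‖ ^ 2 - ‖deriv Q X‖ ^ 2 =
      ‖deriv f X‖ * (1 + X * deriv (deriv f) X / deriv f X).re

/-- the sign of the curvature of the curve `f(|X| = 1)` at `f(exp(i t))` -/
noncomputable def cv (f : ℂ → ℂ) (t : ℝ) : ℝ :=
  (1 + Complex.exp (t * I) * deriv (deriv f) (Complex.exp (t * I))
    / deriv f (Complex.exp (t * I))).re

/-- a positive weight for which two given functions have mean zero -/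
def S_WT : Prop := ∀ (a c : ℝ → ℝ), Continuous a → Continuous c → (∀ θ, a (θ + 2 * π) = a θ) →
  (∀ θ, c (θ + 2 * π) = c θ) → ∀ t₁ t₂ t₃ t₄ : ℝ, t₁ < t₂ → t₂ < t₃ → t₃ < t₄ → t₄ < t₁ + 2 * π →
  0 < a t₄ → a t₂ < 0 → 0 < c t₁ → c t₃ < 0 →
  ∃ (N : ℕ) (s₁ s₂ s₃ s₄ : ℝ), 0 ≤ s₁ ∧ 0 ≤ s₂ ∧ 0 ≤ s₃ ∧ 0 ≤ s₄ ∧
    let B : ℝ → ℝ → ℝ := fun x θ => ((1 + Real.cos (θ - x)) / 2) ^ N
    let w : ℝ → ℝ := fun θ => (1 + s₄ * B t₄ θ + s₂ * B t₂ θ) / (1 + s₁ * B t₁ θ + s₃ * B t₃ θ)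
    ∫ θ in (0)..(2 * π), a θ * w θ = 0 ∧ ∫ θ in (0)..(2 * π), c θ / w θ = 0

/-- existence of critical functions for curves whose curvature changes sign at least four times -/
def S_PQ4 : Prop := ∀ f : ℂ → ℂ, (∀ X : ℂ, ‖X‖ = 1 → AnalyticAt ℂ f X) →
  (∀ X : ℂ, ‖X‖ = 1 → deriv f X ≠ 0) →
  (∃ t₁ t₂ t₃ t₄ : ℝ, t₁ < t₂ ∧ t₂ < t₃ ∧ t₃ < t₄ ∧ t₄ < t₁ + 2 * π ∧
    0 < cv f t₁ ∧ cv f t₂ < 0 ∧ 0 < cv f t₃ ∧ cv f t₄ < 0) →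
  ∃ P Q : ℂ → ℂ, (∀ X : ℂ, ‖X‖ = 1 → AnalyticAt ℂ P X) ∧ (∀ X : ℂ, ‖X‖ = 1 → AnalyticAt ℂ Q X) ∧
    (∀ X : ℂ, ‖X‖ = 1 → (P X).im = 0) ∧ (∀ X : ℂ, ‖X‖ = 1 → (Q X).im = 0) ∧
    ∀ X : ℂ, ‖X‖ = 1 → ‖deriv P X‖ ^ 2 - ‖deriv Q X‖ ^ 2 =
      ‖deriv f X‖ * (1 + X * deriv (deriv f) X / deriv f X).re

/-- an explicit family of centrally symmetric curves with points of zero curvature -/
def S_FAM : Prop := ∀ (j : ℕ) (a : ℝ), 1 ≤ j → 1 / (2 * j + 1 : ℝ) ^ 2 ≤ a → a < 1 / (2 * j + 1) →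
  let f : ℂ → ℂ := fun X => X + a * X ^ (2 * j + 1)
  (∀ X : ℂ, AnalyticAt ℂ f X) ∧ (∀ X, f (-X) = -f X) ∧ InjOn f (sphere 0 1) ∧
    (∀ X : ℂ, ‖X‖ = 1 → deriv f X ≠ 0) ∧
    (∃ X : ℂ, ‖X‖ = 1 ∧ (1 + X * deriv (deriv f) X / deriv f X).re = 0)

end Pool.Agent.Y195.LM
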