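import Pool.Agent.Y195.LM.Main
import Pool.Agent.Y195.LM.Stm
import Pool.Agent.TH605.MS.Final

/-!
# From a critical pair on an analytic Jordan curve to a local minimizer
-/

set_option autoImplicit false

open MeasureTheory Set Filter Topology Metric Complex Pool.Agent.TH605.MS
open scoped ENNReal ComplexConjugate Real

namespace Pool.Agent.Y195.LM

namespace Crit

/-! ## annuli -/

theorem exists_An (U : Set ℂ) (hU : IsOpen U) (hsub : sphere (0 : ℂ) 1 ⊆ U) :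
    ∃ η : ℝ, 0 < η ∧ η < 1 ∧ {X : ℂ | |‖X‖ ^ 2 - 1| ≤ η} ⊆ U := by
  obtain ⟨δ, hδ, hth⟩ := (isCompact_sphere (0 : ℂ) 1).exists_thickening_subset_open hU hsub
  refine ⟨min (δ / 2) (1 / 2), by positivity, (min_le_right _ _).trans_lt (by norm_num),
    fun X hX => hth ?_⟩
  have hX' : |‖X‖ ^ 2 - 1| ≤ min (δ / 2) (1 / 2) := hX
  have hn := norm_nonneg X
  have h12 : |‖X‖ - 1| ≤ |‖X‖ ^ 2 - 1| := by
    have : ‖X‖ ^ 2 - 1 = (‖X‖ - 1) * (‖X‖ + 1) := by ring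
    rw [this, abs_mul]
    have h3 : 1 ≤ |‖X‖ + 1| := by rw [abs_of_nonneg (by linarith)]; linarith
    nlinarith [abs_nonneg (‖X‖ - 1)]
  have h1 : |‖X‖ - 1| ≤ δ / 2 := h12.trans (hX'.trans (min_le_left _ _))
  have h2 : |‖X‖ - 1| ≤ 1 / 2 := h12.trans (hX'.trans (min_le_right _ _))
  have h3 : 1 / 2 ≤ ‖X‖ := by
    have := (abs_le.1 h2).1
    linarith
  have h0 : 0 < ‖X‖ := by linarith
  rw [mem_thickening_iff]
  refine ⟨((‖X‖⁻¹ : ℝ) : ℂ) * X, ?_, ?_⟩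
  · rw [mem_sphere_zero_iff_norm, norm_mul, Complex.norm_real, norm_inv, norm_norm,
      inv_mul_cancel₀ h0.ne']
  · rw [dist_eq_norm]
    have h4 : X - ((‖X‖⁻¹ : ℝ) : ℂ) * X = ((1 - ‖X‖⁻¹ : ℝ) : ℂ) * X := by
      push_cast
      ring
    rw [h4, norm_mul, Complex.norm_real, Real.norm_eq_abs]
    have h5 : |1 - ‖X‖⁻¹| * ‖X‖ = |‖X‖ - 1| := by
      conv_lhs => rw [← abs_of_pos h0, ← abs_mul]
      congr 1
      field_simp
      rw [abs_of_pos h0]
      ring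
    rw [h5]
    linarith

theorem exists_inj {f : ℂ → ℂ} (hf : ∀ X : ℂ, ‖X‖ = 1 → AnalyticAt ℂ f X)
    (inj : InjOn f (sphere 0 1)) (f0 : ∀ X : ℂ, ‖X‖ = 1 → deriv f X ≠ 0) :
    ∃ V : Set ℂ, IsOpen V ∧ sphere (0 : ℂ) 1 ⊆ V ∧ InjOn f V := by
  obtain ⟨t, ht, hi⟩ := inj.exists_mem_nhdsSet (isCompact_sphere 0 1)
    (fun x hx => (hf x (by simpa using hx)).continuousAt) (by
      intro x hx
      have hx' : ‖x‖ = 1 := by simpa using hx
      have h1 : HasStrictDerivAt f (deriv f x) x := (hf x hx').hasStrictDerivAt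
      have h2 := h1.hasStrictFDerivAt_equiv (f0 x hx')
      exact ⟨(h2.toOpenPartialHomeomorph f).source,
        (h2.toOpenPartialHomeomorph f).open_source.mem_nhds h2.mem_toOpenPartialHomeomorph_source,
        (h2.toOpenPartialHomeomorph f).injOn⟩)
  obtain ⟨V, hV, hs, ht'⟩ := mem_nhdsSet_iff_exists.1 ht
  exact ⟨V, hV, hs, hi.mono ht'⟩

/-- the open set on which everything is good -/
theorem exists_W {f P Q : ℂ → ℂ} (hf : ∀ X : ℂ, ‖X‖ = 1 → AnalyticAt ℂ f X)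
    (inj : InjOn f (sphere 0 1)) (f0 : ∀ X : ℂ, ‖X‖ = 1 → deriv f X ≠ 0)
    (hP : ∀ X : ℂ, ‖X‖ = 1 → AnalyticAt ℂ P X) (hQ : ∀ X : ℂ, ‖X‖ = 1 → AnalyticAt ℂ Q X) :
    ∃ W : Set ℂ, IsOpen W ∧ sphere (0 : ℂ) 1 ⊆ W ∧ InjOn f W ∧
      ∀ X ∈ W, AnalyticAt ℂ f X ∧ AnalyticAt ℂ P X ∧ AnalyticAt ℂ Q X ∧ deriv f X ≠ 0 := by
  obtain ⟨V, hV, hs, hi⟩ := exists_inj hf inj f0
  set A : Set ℂ := {X | AnalyticAt ℂ f X} with hA
  have Ao : IsOpen A := isOpen_analyticAt ℂ f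
  have hd : ContinuousOn (deriv f) A := fun X hX => (AnalyticAt.deriv hX).continuousAt.continuousWithinAt
  refine ⟨V ∩ (A ∩ deriv f ⁻¹' {0}ᶜ) ∩ ({X | AnalyticAt ℂ P X} ∩ {X | AnalyticAt ℂ Q X}), ?_, ?_, ?_, ?_⟩
  · exact (hV.inter (hd.isOpen_inter_preimage Ao isOpen_compl_singleton)).inter
      ((isOpen_analyticAt ℂ P).inter (isOpen_analyticAt ℂ Q))
  · intro X hX
    have hX' : ‖X‖ = 1 := by simpa using hX
    exact ⟨⟨hs hX, hf X hX', f0 X hX'⟩, hP X hX', hQ X hX'⟩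
  · exact hi.mono fun X hX => hX.1.1
  · intro X hX
    exact ⟨hX.1.2.1, hX.2.1, hX.2.2, hX.1.2.2⟩

/-! ## the exponential map -/

lemma exp_per (w : ℂ) : exp (w + 2 * π * I) = exp w := by
  rw [Complex.exp_add, Complex.exp_two_pi_mul_I, mul_one]

/-- `exp` maps the strip of half-width `σ / 4` into the annulus -/
lemma exp_mem_An {σ : ℝ} (h0 : 0 < σ) (h1 : σ < 1) {w : ℂ} (hw : w ∈ Strip (σ / 4)) :
    exp w ∈ {X : ℂ | |‖X‖ ^ 2 - 1| ≤ σ} := by
  have hw' : |w.re| < σ / 4 := hw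
  show |‖exp w‖ ^ 2 - 1| ≤ σ
  rw [Complex.norm_exp, ← Real.exp_nat_mul]
  push_cast
  have h2 : |2 * w.re| ≤ 1 := by
    rw [abs_mul, abs_two]; linarith
  have h3 := Real.abs_exp_sub_one_le h2
  have h4 : 2 * |2 * w.re| ≤ σ := by rw [abs_mul, abs_two]; linarith
  exact h3.trans h4

/-- compositions with `exp` -/
lemma hasDerivAt_comp_exp {g g' : ℂ → ℂ} {w : ℂ} (h : HasDerivAt g (g' (exp w)) (exp w)) :
    HasDerivAt (fun w => g (exp w)) (exp w * g' (exp w)) w := by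
  have := h.comp w (Complex.hasDerivAt_exp w)
  simpa [mul_comm, Function.comp_def] using this

/-- the Euler operator -/
noncomputable def eu (g : ℂ → ℂ) (X : ℂ) : ℂ := X * deriv g X

lemma eu_analytic {g : ℂ → ℂ} {X : ℂ} (h : AnalyticAt ℂ g X) : AnalyticAt ℂ (eu g) X :=
  analyticAt_id.mul h.deriv

lemma hasDerivAt_eu {g : ℂ → ℂ} {w : ℂ} (h : AnalyticAt ℂ g (exp w)) :
    HasDerivAt (fun w => g (exp w)) (eu g (exp w)) w :=
  hasDerivAt_comp_exp (g' := deriv g) h.differentiableAt.hasDerivAt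

lemma eu_sub_const (g : ℂ → ℂ) (c : ℂ) : eu (fun X => g X - c) = eu g := by
  funext X; unfold eu; rw [deriv_sub_const]

lemma eu_add_const (g : ℂ → ℂ) (c : ℂ) : eu (fun X => g X + c) = eu g := by
  funext X; unfold eu; rw [deriv_add_const]

lemma norm_exp_mul_I (θ : ℝ) : ‖exp (θ * I)‖ = 1 := Complex.norm_exp_ofReal_mul_I θ

/-- the Euler–Lagrange equation in the strip -/
lemma el_strip {f P Q : ℂ → ℂ} (hf : ∀ X : ℂ, ‖X‖ = 1 → AnalyticAt ℂ f X)
    (f0 : ∀ X : ℂ, ‖X‖ = 1 → deriv f X ≠ 0)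
    (EL : ∀ X : ℂ, ‖X‖ = 1 → ‖deriv P X‖ ^ 2 - ‖deriv Q X‖ ^ 2 =
      ‖deriv f X‖ * (1 + X * deriv (deriv f) X / deriv f X).re) (θ : ℝ) :
    ‖eu P (exp (θ * I))‖ ^ 2 - ‖eu Q (exp (θ * I))‖ ^ 2 =
      r1 (fun w => eu f (exp w)) (fun w => eu (eu f) (exp w)) θ := by
  set X := exp (θ * I) with hX
  have h1 : ‖X‖ = 1 := norm_exp_mul_I θ
  have hX0 : X ≠ 0 := exp_ne_zero _
  have hd := f0 X h1
  have e1 : eu (eu f) X = eu f X * (1 + X * deriv (deriv f) X / deriv f X) := by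
    unfold eu
    rw [deriv_fun_mul differentiableAt_fun_id (hf X h1).deriv.differentiableAt]
    simp only [deriv_id'']
    field_simp
  unfold r1
  simp only
  rw [← hX, e1]
  have h2 : eu f X * (1 + X * deriv (deriv f) X / deriv f X) * conj (eu f X)
      = ((‖eu f X‖ ^ 2 : ℝ) : ℂ) * (1 + X * deriv (deriv f) X / deriv f X) := by
    rw [← Complex.normSq_eq_norm_sq, ← Complex.mul_conj]; ring
  have h3 : ‖eu f X‖ = ‖deriv f X‖ := by unfold eu; rw [norm_mul, h1, one_mul]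
  have h4 : ‖eu P X‖ = ‖deriv P X‖ := by unfold eu; rw [norm_mul, h1, one_mul]
  have h5 : ‖eu Q X‖ = ‖deriv Q X‖ := by unfold eu; rw [norm_mul, h1, one_mul]
  rw [h2, Complex.re_ofReal_mul, h3, h4, h5, EL X h1]
  have h6 : 0 < ‖deriv f X‖ := norm_pos_iff.2 hd
  field_simp

lemma log_mem_Strip {σ : ℝ} (hσ : σ ≤ 1 / 2) {X : ℂ} (hX : X ∈ An σ) : exp (log X) = X :=
  Complex.exp_log (An_ne_zero (hσ.trans (by norm_num)) hX)

/-- the data of a critical pair -/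
noncomputable def dat {f P Q : ℂ → ℂ} {W : Set ℂ} (hW : IsOpen W) (hi : InjOn f W)
    (hg : ∀ X ∈ W, AnalyticAt ℂ f X ∧ AnalyticAt ℂ P X ∧ AnalyticAt ℂ Q X ∧ deriv f X ≠ 0)
    (A σ : ℝ) (σ0 : 0 < σ) (σ1 : σ < 1) (hs : {X : ℂ | |‖X‖ ^ 2 - 1| ≤ σ} ⊆ W)
    (hsep : ∀ X : ℂ, ‖X‖ = 1 → (P X - A).re ≠ (Q X + A).re) : Dat where
  f := f
  k := deriv f
  P := fun X => P X - A
  P' := deriv P
  Q := fun X => Q X + A
  Q' := deriv Q
  W := W
  σ := σ
  σ0 := σ0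
  σ1 := σ1
  hW := hW
  sub := hs
  hf := fun X hX => (hg X hX).1.differentiableAt.hasDerivAt
  k0 := fun X hX => (hg X hX).2.2.2
  inj := hi
  hP := fun X hX => (hg X hX).2.1.differentiableAt.hasDerivAt.sub_const _
  hQ := fun X hX => (hg X hX).2.2.1.differentiableAt.hasDerivAt.add_const _
  sep := hsep

theorem crit0 (hSBV : S_SBV) (hTRP : S_TRP) (hSEC : S_SEC) (hNEZ : S_NEZ) {f P Q : ℂ → ℂ}
    (hf : ∀ X : ℂ, ‖X‖ = 1 → AnalyticAt ℂ f X) (inj : InjOn f (sphere 0 1))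
    (f0 : ∀ X : ℂ, ‖X‖ = 1 → deriv f X ≠ 0)
    (hP : ∀ X : ℂ, ‖X‖ = 1 → AnalyticAt ℂ P X) (hQ : ∀ X : ℂ, ‖X‖ = 1 → AnalyticAt ℂ Q X)
    (rP : ∀ X : ℂ, ‖X‖ = 1 → (P X).im = 0) (rQ : ∀ X : ℂ, ‖X‖ = 1 → (Q X).im = 0)
    (EL : ∀ X : ℂ, ‖X‖ = 1 → ‖deriv P X‖ ^ 2 - ‖deriv Q X‖ ^ 2 =
      ‖deriv f X‖ * (1 + X * deriv (deriv f) X / deriv f X).re) :
    ∃ A₀ : ℝ, ∀ A : ℝ, A₀ ≤ A → ∃ σ₁ : ℝ, 0 < σ₁ ∧ ∀ σ : ℝ, 0 < σ → σ ≤ σ₁ →
      ∃ D : Dat, D.f = f ∧ D.σ = σ ∧ (D.P = fun X => P X - A) ∧ (D.Q = fun X => Q X + A) ∧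
        IsLocalMinimizer D.Om D.u0 := by
  obtain ⟨W, hW, hsW, hi, hg⟩ := exists_W hf inj f0 hP hQ
  obtain ⟨η, η0, η1, hη⟩ := exists_An W hW hsW
  have hK : IsCompact {X : ℂ | |‖X‖ ^ 2 - 1| ≤ η} := by
    refine (isCompact_closedBall (0 : ℂ) 2).of_isClosed_subset ?_ ?_
    · exact isClosed_le ((continuous_norm.pow 2).sub continuous_const).abs continuous_const
    · intro X hX
      have h : |‖X‖ ^ 2 - 1| ≤ η := hX
      rw [mem_closedBall, dist_zero_right]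
      have h1 := (abs_le.1 h).2
      nlinarith [norm_nonneg X]
  obtain ⟨MP, hMP⟩ := hK.exists_bound_of_continuousOn
    (f := P) fun X hX => (hg X (hη hX)).2.1.continuousAt.continuousWithinAt
  obtain ⟨MQ, hMQ⟩ := hK.exists_bound_of_continuousOn
    (f := Q) fun X hX => (hg X (hη hX)).2.2.1.continuousAt.continuousWithinAt
  refine ⟨max MP MQ + 1, fun A hA => ?_⟩
  have hAP : MP + 1 ≤ A := le_trans (by linarith [le_max_left MP MQ]) hA
  have hAQ : MQ + 1 ≤ A := le_trans (by linarith [le_max_right MP MQ]) hA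
  set a := η / 4 with ha
  have a0 : 0 < a := by positivity
  have hex : ∀ w ∈ Strip a, exp w ∈ W := fun w hw => hη (exp_mem_An η0 η1 hw)
  have hfa : ∀ w ∈ Strip a, AnalyticAt ℂ f (exp w) := fun w hw => (hg _ (hex w hw)).1
  have hPa : ∀ w ∈ Strip a, AnalyticAt ℂ P (exp w) := fun w hw => (hg _ (hex w hw)).2.1
  have hQa : ∀ w ∈ Strip a, AnalyticAt ℂ Q (exp w) := fun w hw => (hg _ (hex w hw)).2.2.1
  have hne : ∃ θ : ℝ, (eu (eu f) (exp (θ * I)) * conj (eu f (exp (θ * I)))).re ≠ 0 := by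
    refine hNEZ (fun w => f (exp w)) (fun w => eu f (exp w)) (fun w => eu (eu f) (exp w)) ?_ ?_ ?_ ?_
    · intro θ; exact hasDerivAt_eu (hf _ (norm_exp_mul_I θ))
    · intro θ; exact hasDerivAt_eu (eu_analytic (hf _ (norm_exp_mul_I θ)))
    · intro θ; exact mul_ne_zero (exp_ne_zero _) (f0 _ (norm_exp_mul_I θ))
    · intro w; simp only [exp_per]
  obtain ⟨σ', s0, sa, hcal⟩ := strip_cal hSEC (q := fun w => eu f (exp w))
    (q1 := fun w => eu (eu f) (exp w)) (q2 := fun w => eu (eu (eu f)) (exp w))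
    (p := fun w => P (exp w) - A) (p1 := fun w => eu P (exp w)) (p2 := fun w => eu (eu P) (exp w))
    (p3 := fun w => eu (eu (eu P)) (exp w))
    (m := fun w => Q (exp w) + A) (m1 := fun w => eu Q (exp w)) (m2 := fun w => eu (eu Q) (exp w))
    (m3 := fun w => eu (eu (eu Q)) (exp w)) a0
    (fun w hw => hasDerivAt_eu (eu_analytic (hfa w hw)))
    (fun w hw => hasDerivAt_eu (eu_analytic (eu_analytic (hfa w hw))))
    (fun w hw => mul_ne_zero (exp_ne_zero _) (hg _ (hex w hw)).2.2.2)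
    (fun w => by simp only [exp_per]) (fun w => by simp only [exp_per]) hne
    (fun w hw => (hasDerivAt_eu (hPa w hw)).sub_const _)
    (fun w hw => hasDerivAt_eu (eu_analytic (hPa w hw)))
    (fun w hw => hasDerivAt_eu (eu_analytic (eu_analytic (hPa w hw))))
    (fun w hw => (hasDerivAt_eu (eu_analytic (eu_analytic
      (eu_analytic (hPa w hw))))).continuousAt.continuousWithinAt)
    (fun w => by simp only [exp_per]) (fun w => by simp only [exp_per])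
    (fun w => by simp only [exp_per]) (fun w => by simp only [exp_per])
    (fun θ => by
      simp only [Complex.sub_im, Complex.ofReal_im, sub_zero]; exact rP _ (norm_exp_mul_I θ))
    (fun w hw => (hasDerivAt_eu (hQa w hw)).add_const _)
    (fun w hw => hasDerivAt_eu (eu_analytic (hQa w hw)))
    (fun w hw => hasDerivAt_eu (eu_analytic (eu_analytic (hQa w hw))))
    (fun w hw => (hasDerivAt_eu (eu_analytic (eu_analytic
      (eu_analytic (hQa w hw))))).continuousAt.continuousWithinAt)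
    (fun w => by simp only [exp_per]) (fun w => by simp only [exp_per])
    (fun w => by simp only [exp_per]) (fun w => by simp only [exp_per])
    (fun θ => by
      simp only [Complex.add_im, Complex.ofReal_im, add_zero]; exact rQ _ (norm_exp_mul_I θ))
    (fun θ => el_strip hf f0 EL θ)
    (fun w hw => by
      have h1 := hMP _ (exp_mem_An η0 η1 hw)
      have h2 := (abs_le.1 (Complex.abs_re_le_norm (P (exp w)))).2
      simp only [Complex.sub_re, Complex.ofReal_re]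
      linarith)
    (fun w hw => by
      have h1 := hMQ _ (exp_mem_An η0 η1 hw)
      have h2 := (abs_le.1 (Complex.abs_re_le_norm (Q (exp w)))).1
      simp only [Complex.add_re, Complex.ofReal_re]
      linarith)
  refine ⟨min σ' (1 / 2), by positivity, fun σ hσ0 hσ1 => ?_⟩
  have g1 : σ ≤ σ' := hσ1.trans (min_le_left _ _)
  have g2 : σ ≤ 1 / 2 := hσ1.trans (min_le_right _ _)
  have g3 : σ ≤ η := by
    have : a ≤ η := by rw [ha]; linarith
    linarith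
  obtain ⟨T, H, om, hT, cal⟩ := hcal σ hσ0 g1
  have hsep : ∀ X : ℂ, ‖X‖ = 1 → (P X - A).re ≠ (Q X + A).re := by
    intro X hX
    have hX' : X ∈ {X : ℂ | |‖X‖ ^ 2 - 1| ≤ η} := by
      show |‖X‖ ^ 2 - 1| ≤ η
      rw [hX]; simpa using η0.le
    have h1 := hMP _ hX'
    have h2 := (abs_le.1 (Complex.abs_re_le_norm (P X))).2
    have h3 := hMQ _ hX'
    have h4 := (abs_le.1 (Complex.abs_re_le_norm (Q X))).1
    simp only [Complex.sub_re, Complex.ofReal_re, Complex.add_re]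
    intro h5
    linarith
  refine ⟨dat hW hi hg A σ hσ0 (by linarith)
    (fun X hX => hη (le_trans (show |‖X‖ ^ 2 - 1| ≤ σ from hX) g3)) hsep, rfl, rfl, rfl, rfl, ?_⟩
  refine main hSBV hTRP _ g2 hT cal ?_ ?_ ?_ ?_ ?_
  · intro X hX
    show ‖eu f (exp (log X))‖ = ‖deriv f X‖ * ‖X‖
    rw [log_mem_Strip g2 hX]; unfold eu; rw [norm_mul, mul_comm]
  · intro X hX
    show P (exp (log X)) - A = P X - A
    rw [log_mem_Strip g2 hX]
  · intro X hX
    show eu P (exp (log X)) = X * deriv P X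
    rw [log_mem_Strip g2 hX]; rfl
  · intro X hX
    show Q (exp (log X)) + A = Q X + A
    rw [log_mem_Strip g2 hX]
  · intro X hX
    show eu Q (exp (log X)) = X * deriv Q X
    rw [log_mem_Strip g2 hX]; rfl

end Crit

end Pool.Agent.Y195.LM
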