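import Pool.Agent.TH605.MS.Defs

/-!
# Local minimizers of the Mumford–Shah energy whose discontinuity set is a closed curve: data

`D : Dat` describes a curve `Gam = f(|X| = 1)`, its annular neighbourhood `Om = f(||X|² - 1| < σ)`
and the function `u0` which is `Re P ∘ f⁻¹` outside the curve and `Re Q ∘ f⁻¹` inside.
-/

set_option autoImplicit false

open MeasureTheory Set Filter Topology Metric
open scoped ENNReal ComplexConjugate

namespace Pool.Agent.Y195.LM

/-- the annulus -/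
def An (σ : ℝ) : Set ℂ := {X | |‖X‖ ^ 2 - 1| < σ}

/-- the strip -/
def Strip (a : ℝ) : Set ℂ := {w | |w.re| < a}

/-- holomorphic data near the unit circle -/
structure Dat where
  /-- the parametrisation -/
  f : ℂ → ℂ
  /-- its derivative -/
  k : ℂ → ℂ
  /-- the outer function is `Re P` -/
  P : ℂ → ℂ
  /-- derivative of `P` -/
  P' : ℂ → ℂ
  /-- the inner function is `Re Q` -/
  Q : ℂ → ℂ
  /-- derivative of `Q` -/
  Q' : ℂ → ℂ
  /-- open set on which everything is holomorphic -/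
  W : Set ℂ
  /-- width of the annulus -/
  σ : ℝ
  σ0 : 0 < σ
  σ1 : σ < 1
  hW : IsOpen W
  sub : {X : ℂ | |‖X‖ ^ 2 - 1| ≤ σ} ⊆ W
  hf : ∀ X ∈ W, HasDerivAt f (k X) X
  k0 : ∀ X ∈ W, k X ≠ 0
  inj : InjOn f W
  hP : ∀ X ∈ W, HasDerivAt P (P' X) X
  hQ : ∀ X ∈ W, HasDerivAt Q (Q' X) X
  sep : ∀ X : ℂ, ‖X‖ = 1 → (P X).re ≠ (Q X).re

namespace Dat

variable (D : Dat)

/-- the annular domain -/
def Om : Set ℂ := D.f '' An D.σ

/-- the closed curve -/
def Gam : Set ℂ := D.f '' sphere 0 1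

/-- the inverse of `f` -/
noncomputable def kinv : ℂ → ℂ := Function.invFunOn D.f D.W

/-- the outer part of the domain -/
def OmOut : Set ℂ := D.f '' (An D.σ ∩ {X | 1 < ‖X‖})

/-- the inner part of the domain -/
def OmIn : Set ℂ := D.f '' (An D.σ ∩ {X | ‖X‖ < 1})

/-- the outer function -/
noncomputable def vP (z : ℂ) : ℝ := (D.P (D.kinv z)).re

/-- the inner function -/
noncomputable def vQ (z : ℂ) : ℝ := (D.Q (D.kinv z)).re

open Classical in
/-- the piecewise harmonic function -/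
noncomputable def u0 (z : ℂ) : ℝ :=
  if z ∈ D.OmIn then D.vQ z else if z ∈ D.Om then D.vP z else 0

open Classical in
/-- its approximate gradient -/
noncomputable def g0 (z : ℂ) : ℂ :=
  if z ∈ D.OmOut then conj (D.P' (D.kinv z) / D.k (D.kinv z))
  else if z ∈ D.OmIn then conj (D.Q' (D.kinv z) / D.k (D.kinv z)) else 0

/-- the outer unit normal -/
noncomputable def nu0 (z : ℂ) : ℂ := (‖D.k (D.kinv z)‖⁻¹ : ℝ) • (D.k (D.kinv z) * D.kinv z)

end Dat

/-- `ρ₀(θ) = |q(iθ)|` -/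
noncomputable def r0 (q : ℂ → ℂ) (θ : ℝ) : ℝ := ‖q (θ * Complex.I)‖

/-- `ρ₁(θ) = ∂_τ |q(τ + iθ)|` at `τ = 0`, where `q' = q1` -/
noncomputable def r1 (q q1 : ℂ → ℂ) (θ : ℝ) : ℝ :=
  (q1 (θ * Complex.I) * conj (q (θ * Complex.I))).re / ‖q (θ * Complex.I)‖

end Pool.Agent.Y195.LM
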