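import Pool.Agent.Y195.LM.Alg
import Pool.Agent.Y195.LM.Defs

/-!
# The calibrating field in the strip
-/

set_option autoImplicit false

open Set Filter Topology Complex
open scoped ComplexConjugate

namespace Pool.Agent.Y195.LM

open Pool.Agent.TH605.MS (divx dt)

/-- `H` is differentiable at `(w,t)` with divergence `v` and `t`-derivative `d` -/
def FD (H : ℂ × ℝ → ℂ) (w : ℂ) (t v : ℝ) (d : ℂ) : Prop :=
  ∃ L : ℂ × ℝ →L[ℝ] ℂ, HasFDerivAt H L (w, t) ∧ (L (1, 0)).re + (L (I, 0)).im = v ∧ L (0, 1) = d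

lemma FD.divx {H : ℂ × ℝ → ℂ} {w : ℂ} {t v : ℝ} {d : ℂ} (h : FD H w t v d) :
    divx H (w, t) = v := by
  obtain ⟨L, h1, h2, -⟩ := h
  unfold Pool.Agent.TH605.MS.divx
  rw [h1.fderiv, h2]

lemma FD.dt {H : ℂ × ℝ → ℂ} {w : ℂ} {t v : ℝ} {d : ℂ} (h : FD H w t v d) :
    dt H (w, t) = d := by
  obtain ⟨L, h1, -, h3⟩ := h
  unfold Pool.Agent.TH605.MS.dt
  rw [h1.fderiv, h3]

lemma FD.add {H K : ℂ × ℝ → ℂ} {w : ℂ} {t v v' : ℝ} {d d' : ℂ} (h : FD H w t v d)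
    (h' : FD K w t v' d') : FD (fun p => H p + K p) w t (v + v') (d + d') := by
  obtain ⟨L, h1, h2, h3⟩ := h
  obtain ⟨L', h1', h2', h3'⟩ := h'
  refine ⟨L + L', h1.add h1', ?_, ?_⟩
  · simp only [_root_.add_apply, add_re, add_im]
    linarith
  · simp only [_root_.add_apply, h3, h3']

lemma FD.term {s : ℝ → ℝ} {s' : ℝ} {u : ℂ → ℝ} {g : ℂ} {V : ℂ → ℂ} {DV : ℂ →L[ℝ] ℂ} {w : ℂ}
    {t : ℝ} (hs : HasDerivAt s s' (t - u w)) (hu : HasFDerivAt u (innerSL ℝ g) w)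
    (hV : HasFDerivAt V DV w) :
    FD (fun p : ℂ × ℝ => ((s (p.2 - u p.1) : ℝ) : ℂ) * V p.1) w t
      (s (t - u w) * ((DV 1).re + (DV I).im) - s' * inner ℝ g (V w)) ((s' : ℂ) * V w) := by
  have h1 : HasFDerivAt (fun p : ℂ × ℝ => p.2 - u p.1)
      (ContinuousLinearMap.snd ℝ ℂ ℝ - (innerSL ℝ g).comp (ContinuousLinearMap.fst ℝ ℂ ℝ))
      (w, t) := by
    have h2 : HasFDerivAt (fun p : ℂ × ℝ => u p.1)
        ((innerSL ℝ g).comp (ContinuousLinearMap.fst ℝ ℂ ℝ)) (w, t) :=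
      HasFDerivAt.comp (g := u) (f := fun p : ℂ × ℝ => p.1) (w, t) hu hasFDerivAt_fst
    exact hasFDerivAt_snd.sub h2
  have h3 : HasFDerivAt (fun p : ℂ × ℝ => s (p.2 - u p.1))
      (s' • (ContinuousLinearMap.snd ℝ ℂ ℝ - (innerSL ℝ g).comp (ContinuousLinearMap.fst ℝ ℂ ℝ)))
      (w, t) := HasDerivAt.comp_hasFDerivAt (h₂ := s) (f := fun p : ℂ × ℝ => p.2 - u p.1) (w, t)
        hs h1
  have h4 : HasFDerivAt (fun p : ℂ × ℝ => ((s (p.2 - u p.1) : ℝ) : ℂ))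
      (Complex.ofRealCLM.comp (s' • (ContinuousLinearMap.snd ℝ ℂ ℝ
        - (innerSL ℝ g).comp (ContinuousLinearMap.fst ℝ ℂ ℝ)))) (w, t) :=
    HasFDerivAt.comp (g := fun x : ℝ => (x : ℂ)) (f := fun p : ℂ × ℝ => s (p.2 - u p.1)) (w, t)
      Complex.ofRealCLM.hasFDerivAt h3
  have h5 : HasFDerivAt (fun p : ℂ × ℝ => V p.1) (DV.comp (ContinuousLinearMap.fst ℝ ℂ ℝ))
      (w, t) := HasFDerivAt.comp (g := V) (f := fun p : ℂ × ℝ => p.1) (w, t) hV hasFDerivAt_fst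
  refine ⟨_, h4.mul h5, ?_, ?_⟩
  · simp only [_root_.add_apply, _root_.smul_apply, _root_.sub_apply,
      ContinuousLinearMap.comp_apply, ContinuousLinearMap.coe_fst', ContinuousLinearMap.coe_snd',
      Complex.ofRealCLM_apply, smul_eq_mul, innerSL_apply_apply]
    have e1 : (inner ℝ g (1 : ℂ) : ℝ) = g.re := by simp [Complex.inner]
    have e2 : (inner ℝ g I : ℝ) = g.im := by simp [Complex.inner]
    have e3 : (inner ℝ g (V w) : ℝ) = g.re * (V w).re + g.im * (V w).im := by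
      rw [Complex.inner]; simp; ring
    rw [e1, e2, e3]
    simp
    ring
  · simp only [_root_.add_apply, _root_.smul_apply, _root_.sub_apply,
      ContinuousLinearMap.comp_apply, ContinuousLinearMap.coe_fst', ContinuousLinearMap.coe_snd',
      Complex.ofRealCLM_apply, smul_eq_mul, innerSL_apply_apply]
    simp
    ring

/-- data of the calibration -/
structure Par where
  /-- outer function -/
  p : ℂ → ℂ
  /-- derivatives -/
  p1 : ℂ → ℂ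
  p2 : ℂ → ℂ
  /-- inner function -/
  m : ℂ → ℂ
  m1 : ℂ → ℂ
  m2 : ℂ → ℂ
  ρ0 : ℝ → ℝ
  ρ1 : ℝ → ℝ
  μ : ℝ → ℝ
  μ1 : ℝ → ℝ
  ε : ℝ
  h : ℝ
  β : ℝ
  γ : ℝ

namespace Par

variable (Z : Par)

/-- outer gradient -/
noncomputable def gp (w : ℂ) : ℂ := conj (Z.p1 w)

/-- inner gradient -/
noncomputable def gm (w : ℂ) : ℂ := conj (Z.m1 w)

/-- outer auxiliary field -/
noncomputable def Lp (w : ℂ) : ℂ := ((-(Z.β * (1 + Z.γ * w.re)) : ℝ) : ℂ)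

/-- inner auxiliary field -/
noncomputable def Lm (w : ℂ) : ℂ := ((Z.β * (1 - Z.γ * w.re) : ℝ) : ℂ)

/-- the field `𝒩` -/
noncomputable def NN (w : ℂ) : ℂ :=
  -((Z.ρ0 w.im + Z.ρ1 w.im * w.re + (Z.μ1 w.im / 2 + Z.ε) * w.re ^ 2 : ℝ) : ℂ)
    + ((Z.μ w.im * w.re : ℝ) : ℂ) * I

/-- `ξ` -/
noncomputable def xi (w : ℂ) : ℂ :=
  Z.NN w - ((16 / 15 * Z.h : ℝ) : ℂ) * Z.gp w - ((Z.h ^ 2 / 6 : ℝ) : ℂ) * Z.Lp w
    - ((16 / 15 * Z.h : ℝ) : ℂ) * Z.gm w + ((Z.h ^ 2 / 6 : ℝ) : ℂ) * Z.Lm w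

/-- `λ = -div L` -/
noncomputable def lam : ℝ := Z.β * Z.γ

/-- `div 𝒩` -/
noncomputable def DN (w : ℂ) : ℝ := -Z.ρ1 w.im - 2 * Z.ε * w.re

/-- the calibration in the strip -/
noncomputable def H (x : ℂ × ℝ) : ℂ :=
  ((2 * AL Z.h (x.2 - (Z.p x.1).re) : ℝ) : ℂ) * Z.gp x.1
    + ((2 * BL Z.h (x.2 - (Z.p x.1).re) : ℝ) : ℂ) * Z.Lp x.1
    + ((kL (x.2 - 0) : ℝ) : ℂ) * Z.xi x.1
    + ((2 * AL Z.h (x.2 - (Z.m x.1).re) : ℝ) : ℂ) * Z.gm x.1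
    + ((2 * BL Z.h (x.2 - (Z.m x.1).re) : ℝ) : ℂ) * Z.Lm x.1

/-- differentiability assumptions on the strip -/
structure Dif (a : ℝ) : Prop where
  hh : 0 < Z.h
  dp : ∀ w ∈ Strip a, HasDerivAt Z.p (Z.p1 w) w
  dp1 : ∀ w ∈ Strip a, HasDerivAt Z.p1 (Z.p2 w) w
  dm : ∀ w ∈ Strip a, HasDerivAt Z.m (Z.m1 w) w
  dm1 : ∀ w ∈ Strip a, HasDerivAt Z.m1 (Z.m2 w) w
  c0 : ContDiff ℝ 1 Z.ρ0
  c1 : ContDiff ℝ 1 Z.ρ1
  c2 : ContDiff ℝ 1 Z.μ
  c3 : ContDiff ℝ 1 Z.μ1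
  dμ : ∀ θ, HasDerivAt Z.μ (Z.μ1 θ) θ

end Par

/-- gradient of the real part -/
lemma hasFDerivAt_re {p : ℂ → ℂ} {c w : ℂ} (h : HasDerivAt p c w) :
    HasFDerivAt (fun w => (p w).re) (innerSL ℝ (conj c)) w := by
  have h1 : HasFDerivAt p (((ContinuousLinearMap.toSpanSingleton ℂ c).restrictScalars ℝ :
      ℂ →L[ℝ] ℂ)) w := h.hasFDerivAt.restrictScalars ℝ
  have h2 := (Complex.reCLM.hasFDerivAt (x := p w)).comp w h1
  refine h2.congr_fderiv ?_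
  ext e
  simp [Complex.inner]

/-- the gradient field is divergence free -/
lemma hasFDerivAt_grad {p1 : ℂ → ℂ} {c w : ℂ} (h : HasDerivAt p1 c w) :
    ∃ DV : ℂ →L[ℝ] ℂ, HasFDerivAt (fun w => conj (p1 w)) DV w ∧ (DV 1).re + (DV I).im = 0 := by
  have h1 : HasFDerivAt p1 (((ContinuousLinearMap.toSpanSingleton ℂ c).restrictScalars ℝ :
      ℂ →L[ℝ] ℂ)) w := h.hasFDerivAt.restrictScalars ℝ
  have h2 : HasFDerivAt (fun w => conj (p1 w)) _ w :=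
    (Complex.conjCLE : ℂ →L[ℝ] ℂ).hasFDerivAt.comp w h1
  refine ⟨_, h2, ?_⟩
  simp

namespace Par

variable {Z : Par} {a : ℝ}

lemma hasFDerivAt_L (b c : ℝ) (w : ℂ) :
    ∃ DV : ℂ →L[ℝ] ℂ, HasFDerivAt (fun w : ℂ => ((b + c * w.re : ℝ) : ℂ)) DV w ∧
      (DV 1).re + (DV I).im = c := by
  have h1 : HasFDerivAt (fun w : ℂ => b + c * w.re) (c • Complex.reCLM) w :=
    (Complex.reCLM.hasFDerivAt.const_mul c).const_add b
  have h2 : HasFDerivAt (fun w : ℂ => ((b + c * w.re : ℝ) : ℂ)) (Complex.ofRealCLM.comp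
      (c • Complex.reCLM)) w := HasFDerivAt.comp (g := fun x : ℝ => (x : ℂ)) w
        Complex.ofRealCLM.hasFDerivAt h1
  refine ⟨_, h2, ?_⟩
  simp

lemma hasFDerivAt_Lp (Z : Par) (w : ℂ) :
    ∃ DV : ℂ →L[ℝ] ℂ, HasFDerivAt Z.Lp DV w ∧ (DV 1).re + (DV I).im = -Z.lam := by
  obtain ⟨DV, h1, h2⟩ := hasFDerivAt_L (-Z.β) (-(Z.β * Z.γ)) w
  refine ⟨DV, ?_, h2⟩
  have e : Z.Lp = fun w : ℂ => ((-Z.β + -(Z.β * Z.γ) * w.re : ℝ) : ℂ) := by
    funext w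
    unfold Lp
    congr 1
    ring
  rw [e]
  exact h1

lemma hasFDerivAt_Lm (Z : Par) (w : ℂ) :
    ∃ DV : ℂ →L[ℝ] ℂ, HasFDerivAt Z.Lm DV w ∧ (DV 1).re + (DV I).im = -Z.lam := by
  obtain ⟨DV, h1, h2⟩ := hasFDerivAt_L Z.β (-(Z.β * Z.γ)) w
  refine ⟨DV, ?_, h2⟩
  have e : Z.Lm = fun w : ℂ => ((Z.β + -(Z.β * Z.γ) * w.re : ℝ) : ℂ) := by
    funext w
    unfold Lm
    congr 1
    ring
  rw [e]
  exact h1

lemma comp_im {f : ℝ → ℝ} {f' : ℝ} {w : ℂ} (h : HasDerivAt f f' w.im) :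
    HasFDerivAt (fun w : ℂ => f w.im) (f' • Complex.imCLM) w :=
  HasDerivAt.comp_hasFDerivAt (h₂ := f) (f := fun w : ℂ => w.im) w h Complex.imCLM.hasFDerivAt

lemma hasFDerivAt_NN (hZ : Z.Dif a) (w : ℂ) :
    ∃ DV : ℂ →L[ℝ] ℂ, HasFDerivAt Z.NN DV w ∧ (DV 1).re + (DV I).im = Z.DN w := by
  have hr : HasFDerivAt (fun w : ℂ => w.re) Complex.reCLM w := Complex.reCLM.hasFDerivAt
  have d0 := comp_im ((hZ.c0.differentiable one_ne_zero w.im).hasDerivAt)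
  have d1 := comp_im ((hZ.c1.differentiable one_ne_zero w.im).hasDerivAt)
  have d2 := comp_im (hZ.dμ w.im)
  have d3 := comp_im ((hZ.c3.differentiable one_ne_zero w.im).hasDerivAt)
  have hr2 : HasFDerivAt (fun w : ℂ => w.re ^ 2) ((2 * w.re) • Complex.reCLM) w := by
    have := hr.pow 2
    refine this.congr_fderiv ?_
    ext e
    simp
  have dA := (d0.add (d1.mul hr)).add (((d3.mul_const (1 / 2)).add_const Z.ε).mul hr2)
  have dB := d2.mul hr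
  have cA := HasFDerivAt.comp (g := fun x : ℝ => (x : ℂ)) w Complex.ofRealCLM.hasFDerivAt dA
  have cB := HasFDerivAt.comp (g := fun x : ℝ => (x : ℂ)) w Complex.ofRealCLM.hasFDerivAt dB
  have c := cA.neg.add (cB.mul_const I)
  refine ⟨_, c.congr_of_eventuallyEq (Eventually.of_forall fun w => ?_), ?_⟩
  · show Z.NN w = _
    unfold NN
    simp only [Pi.add_apply, Pi.mul_apply, Pi.neg_apply, Function.comp_apply]
    push_cast
    ring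
  · unfold DN
    simp only [_root_.add_apply, _root_.smul_apply, _root_.neg_apply,
      ContinuousLinearMap.comp_apply, Complex.ofRealCLM_apply, Complex.reCLM_apply,
      Complex.imCLM_apply, smul_eq_mul, add_re, add_im, neg_re, neg_im, mul_re, mul_im,
      one_re, one_im, I_re, I_im, ofReal_re, ofReal_im]
    ring

lemma hasFDerivAt_xi (hZ : Z.Dif a) {w : ℂ} (hw : w ∈ Strip a) :
    ∃ DV : ℂ →L[ℝ] ℂ, HasFDerivAt Z.xi DV w ∧ (DV 1).re + (DV I).im = Z.DN w := by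
  obtain ⟨D1, h1, e1⟩ := hasFDerivAt_NN hZ w
  obtain ⟨D2, h2, e2⟩ := hasFDerivAt_grad (hZ.dp1 w hw)
  obtain ⟨D3, h3, e3⟩ := Z.hasFDerivAt_Lp w
  obtain ⟨D4, h4, e4⟩ := hasFDerivAt_grad (hZ.dm1 w hw)
  obtain ⟨D5, h5, e5⟩ := Z.hasFDerivAt_Lm w
  have h := (((h1.sub (h2.const_mul ((16 / 15 * Z.h : ℝ) : ℂ))).sub
    (h3.const_mul ((Z.h ^ 2 / 6 : ℝ) : ℂ))).sub (h4.const_mul ((16 / 15 * Z.h : ℝ) : ℂ))).add
    (h5.const_mul ((Z.h ^ 2 / 6 : ℝ) : ℂ))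
  refine ⟨_, h, ?_⟩
  simp only [_root_.add_apply, _root_.sub_apply, _root_.smul_apply, smul_eq_mul, add_re, add_im,
    sub_re, sub_im, re_ofReal_mul, im_ofReal_mul]
  linear_combination e1 - (16 / 15 * Z.h) * e2 - (Z.h ^ 2 / 6) * e3 - (16 / 15 * Z.h) * e4
    + (Z.h ^ 2 / 6) * e5

/-- divergence and `t`-derivative of the field -/
theorem H_FD (hZ : Z.Dif a) {w : ℂ} (hw : w ∈ Strip a) (t : ℝ) :
    FD Z.H w t
      (-2 * aL Z.h (t - (Z.p w).re) * ‖Z.gp w‖ ^ 2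
        - 2 * bL Z.h (t - (Z.p w).re) * inner ℝ (Z.gp w) (Z.Lp w)
        - 2 * BL Z.h (t - (Z.p w).re) * Z.lam + kL t * Z.DN w
        + (-2 * aL Z.h (t - (Z.m w).re) * ‖Z.gm w‖ ^ 2
        - 2 * bL Z.h (t - (Z.m w).re) * inner ℝ (Z.gm w) (Z.Lm w)
        - 2 * BL Z.h (t - (Z.m w).re) * Z.lam))
      ((2 * aL Z.h (t - (Z.p w).re)) • Z.gp w + (2 * bL Z.h (t - (Z.p w).re)) • Z.Lp w
        + (kL' t) • Z.xi w
        + (2 * aL Z.h (t - (Z.m w).re)) • Z.gm w + (2 * bL Z.h (t - (Z.m w).re)) • Z.Lm w) := by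
  obtain ⟨D1, h1, e1⟩ := hasFDerivAt_grad (hZ.dp1 w hw)
  obtain ⟨D2, h2, e2⟩ := Z.hasFDerivAt_Lp w
  obtain ⟨D3, h3, e3⟩ := hasFDerivAt_xi hZ hw
  obtain ⟨D4, h4, e4⟩ := hasFDerivAt_grad (hZ.dm1 w hw)
  obtain ⟨D5, h5, e5⟩ := Z.hasFDerivAt_Lm w
  have up := hasFDerivAt_re (hZ.dp w hw)
  have um := hasFDerivAt_re (hZ.dm w hw)
  have uz : HasFDerivAt (fun _ : ℂ => (0 : ℝ)) (innerSL ℝ (0 : ℂ)) w := by
    rw [map_zero]; exact hasFDerivAt_const 0 w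
  have t1 := FD.term (s := fun x => 2 * AL Z.h x) (u := fun w => (Z.p w).re) (t := t)
    ((AL_deriv hZ.hh (t - (Z.p w).re)).const_mul 2) up h1
  have t2 := FD.term (s := fun x => 2 * BL Z.h x) (u := fun w => (Z.p w).re) (t := t)
    ((BL_deriv hZ.hh (t - (Z.p w).re)).const_mul 2) up h2
  have t3 := FD.term (s := kL) (u := fun _ => 0) (t := t) (kL_deriv (t - 0)) uz h3
  have t4 := FD.term (s := fun x => 2 * AL Z.h x) (u := fun w => (Z.m w).re) (t := t)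
    ((AL_deriv hZ.hh (t - (Z.m w).re)).const_mul 2) um h4
  have t5 := FD.term (s := fun x => 2 * BL Z.h x) (u := fun w => (Z.m w).re) (t := t)
    ((BL_deriv hZ.hh (t - (Z.m w).re)).const_mul 2) um h5
  have T := (((t1.add t2).add t3).add t4).add t5
  obtain ⟨L, l1, l2, l3⟩ := T
  refine ⟨L, l1, ?_, ?_⟩
  · rw [l2, e1, e2, e3, e4, e5]
    simp only [sub_zero, inner_zero_left]
    have n1 : (inner ℝ (conj (Z.p1 w)) (conj (Z.p1 w)) : ℝ) = ‖Z.gp w‖ ^ 2 := by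
      rw [real_inner_self_eq_norm_sq]; rfl
    have n2 : (inner ℝ (conj (Z.m1 w)) (conj (Z.m1 w)) : ℝ) = ‖Z.gm w‖ ^ 2 := by
      rw [real_inner_self_eq_norm_sq]; rfl
    have n3 : (inner ℝ (conj (Z.p1 w)) (Z.Lp w) : ℝ) = inner ℝ (Z.gp w) (Z.Lp w) := rfl
    have n4 : (inner ℝ (conj (Z.m1 w)) (Z.Lm w) : ℝ) = inner ℝ (Z.gm w) (Z.Lm w) := rfl
    rw [n1, n2, n3, n4]
    ring
  · rw [l3]
    simp only [Complex.real_smul, sub_zero]
    rfl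

lemma H_divx (hZ : Z.Dif a) {w : ℂ} (hw : w ∈ Strip a) (t : ℝ) :
    divx Z.H (w, t) = (-2 * aL Z.h (t - (Z.p w).re) * ‖Z.gp w‖ ^ 2
        - 2 * bL Z.h (t - (Z.p w).re) * inner ℝ (Z.gp w) (Z.Lp w)
        - 2 * BL Z.h (t - (Z.p w).re) * Z.lam + kL t * Z.DN w
        + (-2 * aL Z.h (t - (Z.m w).re) * ‖Z.gm w‖ ^ 2
        - 2 * bL Z.h (t - (Z.m w).re) * inner ℝ (Z.gm w) (Z.Lm w)
        - 2 * BL Z.h (t - (Z.m w).re) * Z.lam)) := (H_FD hZ hw t).divx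

lemma H_dt (hZ : Z.Dif a) {w : ℂ} (hw : w ∈ Strip a) (t : ℝ) :
    dt Z.H (w, t) = ((2 * aL Z.h (t - (Z.p w).re)) • Z.gp w
        + (2 * bL Z.h (t - (Z.p w).re)) • Z.Lp w + (kL' t) • Z.xi w
        + (2 * aL Z.h (t - (Z.m w).re)) • Z.gm w + (2 * bL Z.h (t - (Z.m w).re)) • Z.Lm w) :=
  (H_FD hZ hw t).dt

lemma Strip_open (a : ℝ) : IsOpen (Strip a) :=
  isOpen_lt (Complex.continuous_re.abs) continuous_const

lemma cd_of_hol {p p1 : ℂ → ℂ} {a : ℝ} (h : ∀ w ∈ Strip a, HasDerivAt p (p1 w) w) :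
    ContDiffOn ℝ 1 p (Strip a) := by
  have h1 : DifferentiableOn ℂ p (Strip a) := fun w hw =>
    (h w hw).differentiableAt.differentiableWithinAt
  exact (h1.contDiffOn (Strip_open a)).restrict_scalars ℝ

/-- the field is `C¹` -/
theorem H_contDiffOn (hZ : Z.Dif a) : ContDiffOn ℝ 1 Z.H (Strip a ×ˢ univ) := by
  have hf : MapsTo (fun x : ℂ × ℝ => x.1) (Strip a ×ˢ univ) (Strip a) := fun x hx => hx.1
  have p0 := (cd_of_hol hZ.dp).comp contDiff_fst.contDiffOn hf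
  have p1 := (cd_of_hol hZ.dp1).comp contDiff_fst.contDiffOn hf
  have m0 := (cd_of_hol hZ.dm).comp contDiff_fst.contDiffOn hf
  have m1 := (cd_of_hol hZ.dm1).comp contDiff_fst.contDiffOn hf
  have cj : ContDiff ℝ 1 (fun z : ℂ => conj z) := (Complex.conjCLE : ℂ →L[ℝ] ℂ).contDiff
  have gp : ContDiffOn ℝ 1 (fun x : ℂ × ℝ => Z.gp x.1) (Strip a ×ˢ univ) :=
    cj.comp_contDiffOn p1
  have gm : ContDiffOn ℝ 1 (fun x : ℂ × ℝ => Z.gm x.1) (Strip a ×ˢ univ) :=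
    cj.comp_contDiffOn m1
  have re1 : ContDiff ℝ 1 (fun x : ℂ × ℝ => x.1.re) := Complex.reCLM.contDiff.comp contDiff_fst
  have im1 : ContDiff ℝ 1 (fun x : ℂ × ℝ => x.1.im) := Complex.imCLM.contDiff.comp contDiff_fst
  have orl : ContDiff ℝ 1 (fun x : ℝ => (x : ℂ)) := Complex.ofRealCLM.contDiff
  have up : ContDiffOn ℝ 1 (fun x : ℂ × ℝ => x.2 - (Z.p x.1).re) (Strip a ×ˢ univ) :=
    contDiff_snd.contDiffOn.sub (Complex.reCLM.contDiff.comp_contDiffOn p0)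
  have um : ContDiffOn ℝ 1 (fun x : ℂ × ℝ => x.2 - (Z.m x.1).re) (Strip a ×ˢ univ) :=
    contDiff_snd.contDiffOn.sub (Complex.reCLM.contDiff.comp_contDiffOn m0)
  have Lp : ContDiff ℝ 1 (fun x : ℂ × ℝ => Z.Lp x.1) := by
    unfold Par.Lp
    exact orl.comp ((contDiff_const.mul (contDiff_const.add (contDiff_const.mul re1))).neg)
  have Lm : ContDiff ℝ 1 (fun x : ℂ × ℝ => Z.Lm x.1) := by
    unfold Par.Lm
    exact orl.comp (contDiff_const.mul (contDiff_const.sub (contDiff_const.mul re1)))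
  have NN : ContDiff ℝ 1 (fun x : ℂ × ℝ => Z.NN x.1) := by
    unfold Par.NN
    refine ContDiff.add (ContDiff.neg (orl.comp ?_)) ((orl.comp ?_).mul contDiff_const)
    · exact ((hZ.c0.comp im1).add ((hZ.c1.comp im1).mul re1)).add
        ((((hZ.c3.comp im1).div_const 2).add contDiff_const).mul (re1.pow 2))
    · exact (hZ.c2.comp im1).mul re1
  have xi : ContDiffOn ℝ 1 (fun x : ℂ × ℝ => Z.xi x.1) (Strip a ×ˢ univ) := by
    unfold Par.xi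
    exact (((NN.contDiffOn.sub (contDiffOn_const.mul gp)).sub
      (contDiffOn_const.mul Lp.contDiffOn)).sub (contDiffOn_const.mul gm)).add
      (contDiffOn_const.mul Lm.contDiffOn)
  have A := AL_contDiff hZ.hh
  have B := BL_contDiff hZ.hh
  have k := kL_contDiff
  unfold Par.H
  refine ((((ContDiffOn.mul ?_ gp).add (ContDiffOn.mul ?_ Lp.contDiffOn)).add
    (ContDiffOn.mul ?_ xi)).add (ContDiffOn.mul ?_ gm)).add (ContDiffOn.mul ?_ Lm.contDiffOn)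
  · exact orl.comp_contDiffOn (contDiffOn_const.mul (A.comp_contDiffOn up))
  · exact orl.comp_contDiffOn (contDiffOn_const.mul (B.comp_contDiffOn up))
  · exact orl.comp_contDiffOn (k.comp_contDiffOn (contDiff_snd.contDiffOn.sub contDiffOn_const))
  · exact orl.comp_contDiffOn (contDiffOn_const.mul (A.comp_contDiffOn um))
  · exact orl.comp_contDiffOn (contDiffOn_const.mul (B.comp_contDiffOn um))

end Par

end Pool.Agent.Y195.LM
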