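import Pool.Agent.Y195.LM.Defs
import Pool.Agent.TH113.J1305

/-!
# The domain, the curve, the inverse of the parametrisation
-/

set_option autoImplicit false

open MeasureTheory Set Filter Topology Metric
open scoped ENNReal ComplexConjugate

namespace Pool.Agent.Y195.LM

open Pool.Agent.TH605.MS Pool.Agent.TH113.MS

lemma An_open (σ : ℝ) : IsOpen (An σ) :=
  isOpen_lt ((continuous_norm.pow 2).sub continuous_const).abs continuous_const

lemma mem_An {σ : ℝ} {X : ℂ} : X ∈ An σ ↔ |‖X‖ ^ 2 - 1| < σ := Iff.rfl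

lemma An_mono {σ σ' : ℝ} (h : σ ≤ σ') : An σ ⊆ An σ' := fun _ hX => lt_of_lt_of_le hX h

lemma sphere_sub_An {σ : ℝ} (h : 0 < σ) : sphere (0 : ℂ) 1 ⊆ An σ := by
  intro X hX
  rw [mem_sphere, dist_zero_right] at hX
  rw [mem_An, hX]
  simpa using h

lemma An_ne_zero {σ : ℝ} (h : σ ≤ 1) {X : ℂ} (hX : X ∈ An σ) : X ≠ 0 := by
  rintro rfl
  rw [mem_An, abs_lt] at hX
  norm_num at hX
  linarith [hX]

namespace Dat

variable (D : Dat)

lemma An_sub : An D.σ ⊆ D.W := by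
  intro X hX
  apply D.sub
  rw [mem_An] at hX
  exact hX.le

lemma ne_zero {X : ℂ} (hX : X ∈ An D.σ) : X ≠ 0 := An_ne_zero D.σ1.le hX

lemma sphere_sub : sphere (0 : ℂ) 1 ⊆ An D.σ := sphere_sub_An D.σ0

lemma An_isOpen : IsOpen (An D.σ) := An_open _

lemma f_contOn : ContinuousOn D.f D.W := fun X hX => (D.hf X hX).continuousAt.continuousWithinAt

lemma k_contOn : ContinuousOn D.k D.W := fun X hX =>
  (tr_f' D.hW D.hf hX).continuousAt.continuousWithinAt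

lemma P_contOn : ContinuousOn D.P D.W := fun X hX => (D.hP X hX).continuousAt.continuousWithinAt

lemma Q_contOn : ContinuousOn D.Q D.W := fun X hX => (D.hQ X hX).continuousAt.continuousWithinAt

lemma P'_contOn : ContinuousOn D.P' D.W := fun X hX =>
  (tr_f' D.hW D.hP hX).continuousAt.continuousWithinAt

lemma Q'_contOn : ContinuousOn D.Q' D.W := fun X hX =>
  (tr_f' D.hW D.hQ hX).continuousAt.continuousWithinAt

lemma kinv_f {X : ℂ} (hX : X ∈ D.W) : D.kinv (D.f X) = X :=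
  D.inj.leftInvOn_invFunOn hX

lemma f_open {s : Set ℂ} (hs : IsOpen s) (hs' : s ⊆ D.W) : IsOpen (D.f '' s) :=
  tr_open D.hW hs hs' D.hf D.k0

lemma Om_open : IsOpen D.Om := D.f_open D.An_isOpen D.An_sub

lemma OmOut_open : IsOpen D.OmOut :=
  D.f_open (D.An_isOpen.inter (isOpen_lt continuous_const continuous_norm))
    (inter_subset_left.trans D.An_sub)

lemma OmIn_open : IsOpen D.OmIn :=
  D.f_open (D.An_isOpen.inter (isOpen_lt continuous_norm continuous_const))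
    (inter_subset_left.trans D.An_sub)

lemma OmOut_sub : D.OmOut ⊆ D.Om := image_mono inter_subset_left

lemma OmIn_sub : D.OmIn ⊆ D.Om := image_mono inter_subset_left

lemma Gam_sub : D.Gam ⊆ D.Om := image_mono D.sphere_sub

lemma Gam_compact : IsCompact D.Gam :=
  (isCompact_sphere 0 1).image_of_continuousOn (D.f_contOn.mono (D.sphere_sub.trans D.An_sub))

/-- the closed annulus is compact -/
lemma cAn_compact : IsCompact {X : ℂ | |‖X‖ ^ 2 - 1| ≤ D.σ} := by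
  refine (isCompact_closedBall (0 : ℂ) 2).of_isClosed_subset ?_ ?_
  · exact isClosed_le ((continuous_norm.pow 2).sub continuous_const).abs continuous_const
  · intro X hX
    have h : |‖X‖ ^ 2 - 1| ≤ D.σ := hX
    rw [mem_closedBall, dist_zero_right]
    have h1 := (abs_le.1 h).2
    nlinarith [norm_nonneg X, D.σ1]

lemma kinv_deriv {X : ℂ} (hX : X ∈ D.W) : HasDerivAt D.kinv (D.k X)⁻¹ (D.f X) :=
  tr_k D.hW D.hf D.k0 (fun _ h => D.kinv_f h) hX

lemma kinv_cont {X : ℂ} (hX : X ∈ D.W) : ContinuousAt D.kinv (D.f X) :=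
  (D.kinv_deriv hX).continuousAt

lemma mem_OmOut {X : ℂ} (hX : X ∈ An D.σ) : D.f X ∈ D.OmOut ↔ 1 < ‖X‖ := by
  constructor
  · rintro ⟨Y, hY, h⟩
    have := D.inj (D.An_sub hY.1) (D.An_sub hX) h
    rw [← this]; exact hY.2
  · intro h; exact ⟨X, ⟨hX, h⟩, rfl⟩

lemma mem_OmIn {X : ℂ} (hX : X ∈ An D.σ) : D.f X ∈ D.OmIn ↔ ‖X‖ < 1 := by
  constructor
  · rintro ⟨Y, hY, h⟩
    have := D.inj (D.An_sub hY.1) (D.An_sub hX) h
    rw [← this]; exact hY.2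
  · intro h; exact ⟨X, ⟨hX, h⟩, rfl⟩

lemma mem_Gam {X : ℂ} (hX : X ∈ An D.σ) : D.f X ∈ D.Gam ↔ ‖X‖ = 1 := by
  constructor
  · rintro ⟨Y, hY, h⟩
    have := D.inj (D.An_sub (D.sphere_sub hY)) (D.An_sub hX) h
    rw [← this]; simpa using hY
  · intro h; exact ⟨X, by simpa using h, rfl⟩

lemma vP_f {X : ℂ} (hX : X ∈ An D.σ) : D.vP (D.f X) = (D.P X).re := by
  unfold vP; rw [D.kinv_f (D.An_sub hX)]

lemma vQ_f {X : ℂ} (hX : X ∈ An D.σ) : D.vQ (D.f X) = (D.Q X).re := by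
  unfold vQ; rw [D.kinv_f (D.An_sub hX)]

lemma u0_in {X : ℂ} (hX : X ∈ An D.σ) (h : ‖X‖ < 1) : D.u0 (D.f X) = (D.Q X).re := by
  unfold u0; rw [if_pos ((D.mem_OmIn hX).2 h), D.vQ_f hX]

lemma u0_out {X : ℂ} (hX : X ∈ An D.σ) (h : 1 ≤ ‖X‖) : D.u0 (D.f X) = (D.P X).re := by
  unfold u0
  rw [if_neg (fun h' => absurd ((D.mem_OmIn hX).1 h') (not_lt.2 h)),
    if_pos ⟨X, hX, rfl⟩, D.vP_f hX]

lemma g0_out {X : ℂ} (hX : X ∈ An D.σ) (h : 1 < ‖X‖) :
    D.g0 (D.f X) = conj (D.P' X / D.k X) := by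
  unfold g0
  rw [if_pos ((D.mem_OmOut hX).2 h), D.kinv_f (D.An_sub hX)]

lemma g0_in {X : ℂ} (hX : X ∈ An D.σ) (h : ‖X‖ < 1) :
    D.g0 (D.f X) = conj (D.Q' X / D.k X) := by
  unfold g0
  rw [if_neg (fun h' => absurd ((D.mem_OmOut hX).1 h') (not_lt.2 h.le)),
    if_pos ((D.mem_OmIn hX).2 h), D.kinv_f (D.An_sub hX)]

lemma nu0_eq {X : ℂ} (hX : X ∈ An D.σ) : D.nu0 (D.f X) = (‖D.k X‖⁻¹ : ℝ) • (D.k X * X) := by
  unfold nu0
  rw [D.kinv_f (D.An_sub hX)]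

lemma Om_split {z : ℂ} (hz : z ∈ D.Om) : z ∈ D.OmIn ∨ z ∈ D.Gam ∨ z ∈ D.OmOut := by
  obtain ⟨X, hX, rfl⟩ := hz
  rcases lt_trichotomy ‖X‖ 1 with h | h | h
  · exact Or.inl ((D.mem_OmIn hX).2 h)
  · exact Or.inr (Or.inl ((D.mem_Gam hX).2 h))
  · exact Or.inr (Or.inr ((D.mem_OmOut hX).2 h))

end Dat

end Pool.Agent.Y195.LM
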