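import Pool.Agent.Y195.LM.Field

/-!
# The calibration inequalities in the strip
-/

set_option autoImplicit false

open Set Filter Topology Complex
open scoped ComplexConjugate

namespace Pool.Agent.Y195.LM

open Pool.Agent.TH605.MS (divx dt)

namespace Par

variable (Z : Par)

/-- values for `t ≤ -1/2` -/
noncomputable def E (w : ℂ) (x : ℝ) : ℂ :=
  ((2 * (Z.h * (8 / 15 + ph x)) : ℝ) : ℂ) * Z.gp w
    + ((2 * -(Z.h ^ 2 / 12 * (1 - x ^ 2) ^ 3) : ℝ) : ℂ) * Z.Lp w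

/-- increments for `t ≥ 1/2` -/
noncomputable def F (w : ℂ) (x : ℝ) : ℂ :=
  ((2 * (Z.h * (8 / 15 + ph x)) : ℝ) : ℂ) * Z.gm w
    + ((2 * -(Z.h ^ 2 / 12 * (1 - x ^ 2) ^ 3) : ℝ) : ℂ) * Z.Lm w

/-- the function `ω` -/
noncomputable def om (w : ℂ) : ℝ :=
  max (Z.h ^ 2 * Z.lam / 6 - ‖Z.gp w‖ ^ 2) (Z.DN w + Z.h ^ 2 * Z.lam / 6 - ‖Z.gm w‖ ^ 2)

/-- bounds at the point `w` -/
structure Bd (M c n0 r : ℝ) (w : ℂ) : Prop where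
  τ1 : |w.re| ≤ 1
  hh : 0 < Z.h
  h2 : Z.h ≤ 1 / 2
  β0 : 0 < Z.β
  γ0 : 0 < Z.γ
  M0 : 0 ≤ M
  c0 : 0 < c
  n00 : 0 < n0
  up : (Z.p w).re ≤ -1
  um : 1 ≤ (Z.m w).re
  N1 : n0 ≤ -(Z.NN w).re
  N2 : -(Z.NN w).re ≤ M
  N3 : |(Z.NN w).im| ≤ M * |w.re|
  gp1 : |(Z.gp w).re| ≤ M * |w.re|
  gp2 : ‖Z.gp w‖ ≤ M
  gm1 : |(Z.gm w).re| ≤ M * |w.re|
  gm2 : ‖Z.gm w‖ ≤ M
  g10 : |Z.γ * w.re| ≤ 1 / 10
  r0 : 0 ≤ r
  Nr : ‖Z.NN w‖ ^ 2 ≤ r ^ 2 - c * w.re ^ 2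
  C1 : (2 * M + Z.h * (11 / 10 * Z.β) / 2) ^ 2 ≤ Z.h ^ 2 * Z.lam / 6
  C2 : |Z.DN w| + ‖Z.xi w‖ ^ 2 + M ^ 2 ≤ Z.h ^ 2 * Z.lam / 6
  C3 : 5 * Z.h * M ≤ n0
  C4 : 32 * M ^ 4 / c + 24 * M ^ 2 ≤ 9 / 40 * n0 * Z.β
  C5 : 11 / 10 * Z.β * Z.h ^ 2 ≤ n0 / 4

variable {Z} {M c n0 r : ℝ} {w : ℂ}

lemma E_neg_one (w : ℂ) : Z.E w (-1) = 0 := by
  unfold E; rw [ph_neg_one]; norm_num

lemma F_neg_one (w : ℂ) : Z.F w (-1) = 0 := by
  unfold F; rw [ph_neg_one]; norm_num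

lemma Bd.lam0 (hB : Z.Bd M c n0 r w) : 0 ≤ Z.lam := by
  unfold Par.lam; have := hB.β0; have := hB.γ0; positivity

lemma Bd.l1 (hB : Z.Bd M c n0 r w) : 9 / 10 * Z.β ≤ Z.β * (1 + Z.γ * w.re) ∧
    Z.β * (1 + Z.γ * w.re) ≤ 11 / 10 * Z.β := by
  have h := abs_le.1 hB.g10
  have hb := hB.β0
  constructor <;> nlinarith

lemma Bd.l2 (hB : Z.Bd M c n0 r w) : 9 / 10 * Z.β ≤ Z.β * (1 - Z.γ * w.re) ∧
    Z.β * (1 - Z.γ * w.re) ≤ 11 / 10 * Z.β := by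
  have h := abs_le.1 hB.g10
  have hb := hB.β0
  constructor <;> nlinarith

lemma Bd.Lpn (hB : Z.Bd M c n0 r w) : ‖Z.Lp w‖ ≤ 11 / 10 * Z.β := by
  unfold Par.Lp
  have hb := hB.β0
  obtain ⟨h1, h2⟩ := hB.l1
  rw [Complex.norm_real, Real.norm_eq_abs, abs_neg, abs_of_nonneg (by linarith)]
  exact h2

lemma Bd.Lmn (hB : Z.Bd M c n0 r w) : ‖Z.Lm w‖ ≤ 11 / 10 * Z.β := by
  unfold Par.Lm
  have hb := hB.β0
  obtain ⟨h1, h2⟩ := hB.l2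
  rw [Complex.norm_real, Real.norm_eq_abs, abs_of_nonneg (by linarith)]
  exact h2

lemma H_A (hB : Z.Bd M c n0 r w) {t : ℝ} (ht : t ≤ -(1 / 2)) :
    Z.H (w, t) = Z.E w (cL Z.h (t - (Z.p w).re)) := by
  have h0 := hB.hh
  have h1 := hB.h2
  have h2 := hB.um
  have hm : t - (Z.m w).re ≤ -Z.h := by linarith
  unfold H
  simp only [sub_zero]
  rw [AL_bot h0 hm, BL_bot h0 hm, kL_bot ht]
  unfold E AL BL
  push_cast
  ring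

lemma H_B (hB : Z.Bd M c n0 r w) {t : ℝ} (ht : -(1 / 2) ≤ t) (ht' : t ≤ 1 / 2) :
    Z.H (w, t) = Z.E w 1 + ((kL t : ℝ) : ℂ) * Z.xi w := by
  have h0 := hB.hh
  have h1 := hB.h2
  have h2 := hB.um
  have h3 := hB.up
  have hm : t - (Z.m w).re ≤ -Z.h := by linarith
  have hp : Z.h ≤ t - (Z.p w).re := by linarith
  unfold H
  simp only [sub_zero]
  rw [AL_bot h0 hm, BL_bot h0 hm, AL_top h0 hp, BL_top h0 hp]
  unfold E
  rw [ph_one]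
  push_cast
  ring

lemma H_C (hB : Z.Bd M c n0 r w) {t : ℝ} (ht : 1 / 2 ≤ t) :
    Z.H (w, t) = Z.E w 1 + Z.xi w + Z.F w (cL Z.h (t - (Z.m w).re)) := by
  have h0 := hB.hh
  have h1 := hB.h2
  have h3 := hB.up
  have hp : Z.h ≤ t - (Z.p w).re := by linarith
  unfold H
  simp only [sub_zero]
  rw [AL_top h0 hp, BL_top h0 hp, kL_top ht]
  unfold E F AL BL
  rw [ph_one]
  push_cast
  ring

/-- the main distance estimate -/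
lemma KL (hB : Z.Bd M c n0 r w) {x y : ℝ} (hx : |x| ≤ 1) (hy : |y| ≤ 1) :
    ‖(Z.E w 1 + Z.xi w + Z.F w y) - Z.E w x‖ ≤ r := by
  have hgp : |(Z.gp w).im| ≤ M := (Complex.abs_im_le_norm _).trans hB.gp2
  have hgm : |(Z.gm w).im| ≤ M := (Complex.abs_im_le_norm _).trans hB.gm2
  have key := key_cx (N := Z.NN w) (gp := Z.gp w) (gm := Z.gm w) (h := Z.h) hB.τ1 hx hy hB.hh
    hB.M0 hB.β0.le hB.N1 hB.N2 hB.N3 hB.n00 hB.c0 hB.gp1 hgp hB.gm1 hgm hB.l1.1 hB.l1.2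
    hB.l2.1 hB.l2.2 hB.Nr hB.r0 hB.C4 hB.C5
  have e : (Z.E w 1 + Z.xi w + Z.F w y) - Z.E w x =
      Z.NN w + ((2 * Z.h * ph y : ℝ) : ℂ) * Z.gm w - ((2 * Z.h * ph x : ℝ) : ℂ) * Z.gp w
      + ((Z.h ^ 2 / 6 * ((1 - (1 - y ^ 2) ^ 3) * (Z.β * (1 - Z.γ * w.re))
        + (1 - (1 - x ^ 2) ^ 3) * (Z.β * (1 + Z.γ * w.re))) : ℝ) : ℂ) := by
    unfold E F xi Lp Lm
    rw [ph_one]
    push_cast
    ring
  rw [e]
  exact key

lemma r_ge (hB : Z.Bd M c n0 r w) : n0 ≤ r := by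
  have h1 : ‖Z.NN w‖ ^ 2 ≤ r ^ 2 := by
    have := hB.Nr
    have h2 : 0 ≤ c * w.re ^ 2 := mul_nonneg hB.c0.le (sq_nonneg _)
    linarith
  have h2 := (pow_le_pow_iff_left₀ (norm_nonneg _) hB.r0 (by norm_num)).1 h1
  have h3 := Complex.abs_re_le_norm (Z.NN w)
  have h4 := neg_abs_le (Z.NN w).re
  have h5 := hB.N1
  linarith

lemma diff_aux {h β M n0 : ℝ} {g L : ℂ} (hh : 0 < h) (hβ : 0 < β) (hg : ‖g‖ ≤ M)
    (hL : ‖L‖ ≤ 11 / 10 * β) (C3 : 5 * h * M ≤ n0) (C5 : 11 / 10 * β * h ^ 2 ≤ n0 / 4)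
    {x y : ℝ} (hx : |x| ≤ 1) (hy : |y| ≤ 1) :
    ‖(((2 * (h * (8 / 15 + ph x)) : ℝ) : ℂ) * g + ((2 * -(h ^ 2 / 12 * (1 - x ^ 2) ^ 3) : ℝ) : ℂ) * L)
      - (((2 * (h * (8 / 15 + ph y)) : ℝ) : ℂ) * g
        + ((2 * -(h ^ 2 / 12 * (1 - y ^ 2) ^ 3) : ℝ) : ℂ) * L)‖ ≤ n0 := by
  have hM : 0 ≤ M := (norm_nonneg _).trans hg
  have e : (((2 * (h * (8 / 15 + ph x)) : ℝ) : ℂ) * g
      + ((2 * -(h ^ 2 / 12 * (1 - x ^ 2) ^ 3) : ℝ) : ℂ) * L)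
      - (((2 * (h * (8 / 15 + ph y)) : ℝ) : ℂ) * g
        + ((2 * -(h ^ 2 / 12 * (1 - y ^ 2) ^ 3) : ℝ) : ℂ) * L)
      = ((2 * h * (ph x - ph y) : ℝ) : ℂ) * g
        + ((h ^ 2 / 6 * ((1 - y ^ 2) ^ 3 - (1 - x ^ 2) ^ 3) : ℝ) : ℂ) * L := by
    push_cast; ring
  rw [e]
  have px := (abs_le.1 ((ph_abs hx).trans hx))
  have py := (abs_le.1 ((ph_abs hy).trans hy))
  have one : ∀ {z : ℝ}, |z| ≤ 1 → 0 ≤ (1 - z ^ 2) ^ 3 ∧ (1 - z ^ 2) ^ 3 ≤ 1 := by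
    intro z hz
    have h1 : z ^ 2 ≤ 1 := by rw [← sq_abs]; nlinarith [abs_nonneg z]
    have h0 : 0 ≤ z ^ 2 := sq_nonneg z
    exact ⟨pow_nonneg (by linarith) 3, pow_le_one₀ (by linarith) (by linarith)⟩
  obtain ⟨x1, x2⟩ := one hx
  obtain ⟨y1, y2⟩ := one hy
  have b1 : ‖((2 * h * (ph x - ph y) : ℝ) : ℂ) * g‖ ≤ 4 * h * M := by
    rw [norm_mul, Complex.norm_real, Real.norm_eq_abs, abs_mul, abs_of_pos (by positivity)]
    have : |ph x - ph y| ≤ 2 := by rw [abs_le]; constructor <;> linarith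
    calc 2 * h * |ph x - ph y| * ‖g‖ ≤ 2 * h * 2 * M := by
          apply mul_le_mul _ hg (norm_nonneg _) (by positivity)
          exact mul_le_mul_of_nonneg_left this (by positivity)
      _ = 4 * h * M := by ring
  have b2 : ‖((h ^ 2 / 6 * ((1 - y ^ 2) ^ 3 - (1 - x ^ 2) ^ 3) : ℝ) : ℂ) * L‖
      ≤ 11 / 10 * β * h ^ 2 / 6 := by
    rw [norm_mul, Complex.norm_real, Real.norm_eq_abs, abs_mul, abs_of_pos (by positivity)]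
    have : |(1 - y ^ 2) ^ 3 - (1 - x ^ 2) ^ 3| ≤ 1 := by rw [abs_le]; constructor <;> linarith
    calc h ^ 2 / 6 * |(1 - y ^ 2) ^ 3 - (1 - x ^ 2) ^ 3| * ‖L‖
        ≤ h ^ 2 / 6 * 1 * (11 / 10 * β) := by
          apply mul_le_mul _ hL (norm_nonneg _) (by positivity)
          exact mul_le_mul_of_nonneg_left this (by positivity)
      _ = 11 / 10 * β * h ^ 2 / 6 := by ring
  refine (norm_add_le _ _).trans ?_
  have : 0 ≤ 11 / 10 * β * h ^ 2 := by positivity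
  linarith

lemma EE (hB : Z.Bd M c n0 r w) {x y : ℝ} (hx : |x| ≤ 1) (hy : |y| ≤ 1) :
    ‖Z.E w x - Z.E w y‖ ≤ r :=
  (diff_aux hB.hh hB.β0 hB.gp2 hB.Lpn hB.C3 hB.C5 hx hy).trans (r_ge hB)

lemma FF (hB : Z.Bd M c n0 r w) {x y : ℝ} (hx : |x| ≤ 1) (hy : |y| ≤ 1) :
    ‖Z.F w x - Z.F w y‖ ≤ r :=
  (diff_aux hB.hh hB.β0 hB.gm2 hB.Lmn hB.C3 hB.C5 hx hy).trans (r_ge hB)

lemma seg {A B : ℂ} {k r : ℝ} (hk : 0 ≤ k) (hk' : k ≤ 1) (hA : ‖A‖ ≤ r) (hB : ‖B‖ ≤ r) :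
    ‖((1 - k : ℝ) : ℂ) * A + ((k : ℝ) : ℂ) * B‖ ≤ r := by
  refine (norm_add_le _ _).trans ?_
  rw [norm_mul, norm_mul, Complex.norm_real, Complex.norm_real, Real.norm_of_nonneg hk,
    Real.norm_of_nonneg (by linarith : 0 ≤ 1 - k)]
  nlinarith

/-- the possible values -/
lemma H_cases (hB : Z.Bd M c n0 r w) (t : ℝ) :
    (∃ x, |x| ≤ 1 ∧ Z.H (w, t) = Z.E w x) ∨
    (∃ k, 0 ≤ k ∧ k ≤ 1 ∧ Z.H (w, t) = Z.E w 1 + ((k : ℝ) : ℂ) * Z.xi w) ∨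
    (∃ y, |y| ≤ 1 ∧ Z.H (w, t) = Z.E w 1 + Z.xi w + Z.F w y) := by
  rcases le_total t (-(1 / 2)) with h | h
  · exact Or.inl ⟨_, cL_abs _ _, H_A hB h⟩
  · rcases le_total t (1 / 2) with h' | h'
    · exact Or.inr (Or.inl ⟨_, (kL_mem t).1, (kL_mem t).2, H_B hB h h'⟩)
    · exact Or.inr (Or.inr ⟨_, cL_abs _ _, H_C hB h'⟩)

/-- **the second inequality** -/
theorem ineq2 (hB : Z.Bd M c n0 r w) (s t : ℝ) : ‖Z.H (w, t) - Z.H (w, s)‖ ≤ r := by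
  have o1 : |(1 : ℝ)| ≤ 1 := by norm_num
  have o2 : |(-1 : ℝ)| ≤ 1 := by norm_num
  have hxi : ‖Z.xi w‖ ≤ r := by
    have := KL hB o1 o2
    rw [F_neg_one] at this
    have e : Z.E w 1 + Z.xi w + 0 - Z.E w 1 = Z.xi w := by ring
    rwa [e] at this
  have sE : ∀ {k x : ℝ}, 0 ≤ k → k ≤ 1 → |x| ≤ 1 →
      ‖(Z.E w 1 + ((k : ℝ) : ℂ) * Z.xi w) - Z.E w x‖ ≤ r := by
    intro k x hk hk' hx
    have h1 := EE hB o1 hx
    have h2 := KL hB hx o2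
    rw [F_neg_one, add_zero] at h2
    have e : (Z.E w 1 + ((k : ℝ) : ℂ) * Z.xi w) - Z.E w x =
        ((1 - k : ℝ) : ℂ) * (Z.E w 1 - Z.E w x)
          + ((k : ℝ) : ℂ) * (Z.E w 1 + Z.xi w - Z.E w x) := by
      push_cast; ring
    rw [e]
    exact seg hk hk' h1 h2
  have Gs : ∀ {k y : ℝ}, 0 ≤ k → k ≤ 1 → |y| ≤ 1 →
      ‖(Z.E w 1 + Z.xi w + Z.F w y) - (Z.E w 1 + ((k : ℝ) : ℂ) * Z.xi w)‖ ≤ r := by
    intro k y hk hk' hy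
    have h1 := KL hB o1 hy
    have h2 := FF hB hy o2
    rw [F_neg_one] at h2
    have e : (Z.E w 1 + Z.xi w + Z.F w y) - (Z.E w 1 + ((k : ℝ) : ℂ) * Z.xi w) =
        ((1 - k : ℝ) : ℂ) * (Z.E w 1 + Z.xi w + Z.F w y - Z.E w 1)
          + ((k : ℝ) : ℂ) * (Z.F w y - 0) := by
      push_cast; ring
    rw [e]
    exact seg hk hk' h1 h2
  have ss : ∀ {k k' : ℝ}, 0 ≤ k → k ≤ 1 → 0 ≤ k' → k' ≤ 1 →
      ‖(Z.E w 1 + ((k : ℝ) : ℂ) * Z.xi w) - (Z.E w 1 + ((k' : ℝ) : ℂ) * Z.xi w)‖ ≤ r := by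
    intro k k' hk hk1 hk' hk1'
    have e : (Z.E w 1 + ((k : ℝ) : ℂ) * Z.xi w) - (Z.E w 1 + ((k' : ℝ) : ℂ) * Z.xi w) =
        ((k - k' : ℝ) : ℂ) * Z.xi w := by
      push_cast; ring
    rw [e, norm_mul, Complex.norm_real, Real.norm_eq_abs]
    have : |k - k'| ≤ 1 := by rw [abs_le]; constructor <;> linarith
    calc |k - k'| * ‖Z.xi w‖ ≤ 1 * r := mul_le_mul this hxi (norm_nonneg _) (by norm_num)
      _ = r := one_mul _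
  rcases H_cases hB t with ⟨x, hx, e⟩ | ⟨k, hk, hk1, e⟩ | ⟨y, hy, e⟩ <;>
  rcases H_cases hB s with ⟨x', hx', e'⟩ | ⟨k', hk', hk1', e'⟩ | ⟨y', hy', e'⟩ <;> rw [e, e']
  · exact EE hB hx hx'
  · rw [norm_sub_rev]; exact sE hk' hk1' hx
  · rw [norm_sub_rev]; exact KL hB hx hy'
  · exact sE hk hk1 hx'
  · exact ss hk hk1 hk' hk1'
  · rw [norm_sub_rev]; exact Gs hk hk1 hy'
  · exact KL hB hx' hy
  · exact Gs hk' hk1' hy
  · have e2 : Z.E w 1 + Z.xi w + Z.F w y - (Z.E w 1 + Z.xi w + Z.F w y') =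
        Z.F w y - Z.F w y' := by ring
    rw [e2]
    exact FF hB hy hy'

variable {a : ℝ}

/-- **the first inequality** -/
theorem ineq1 (hZ : Z.Dif a) (hw : w ∈ Strip a) (hB : Z.Bd M c n0 r w) (t : ℝ) :
    divx Z.H (w, t) + ‖dt Z.H (w, t)‖ ^ 2 / 4 ≤ Z.om w := by
  have h0 := hB.hh
  have h1 := hB.h2
  have h2 := hB.um
  have h3 := hB.up
  have hl := hB.lam0
  rw [H_divx hZ hw, H_dt hZ hw]
  have c1 : Z.h ^ 2 * Z.lam / 6 - ‖Z.gp w‖ ^ 2 ≤ Z.om w := le_max_left _ _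
  have c2 : Z.DN w + Z.h ^ 2 * Z.lam / 6 - ‖Z.gm w‖ ^ 2 ≤ Z.om w := le_max_right _ _
  rcases le_total t (-(1 / 2)) with h | h
  · have hm : t - (Z.m w).re ≤ -Z.h := by linarith
    rw [aL_bot h0 hm, bL_bot h0 hm, BL_bot h0 hm, kL_bot h, kL'_bot h]
    have hn := near hB.hh hl hB.gp2 hB.Lpn hB.C1 (t - (Z.p w).re)
    refine le_trans (le_of_eq ?_) (hn.trans c1)
    simp only [mul_zero, zero_mul, zero_smul, add_zero, sub_zero]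
  · rcases le_total t (1 / 2) with h' | h'
    · have hm : t - (Z.m w).re ≤ -Z.h := by linarith
      have hp : Z.h ≤ t - (Z.p w).re := by linarith
      rw [aL_bot h0 hm, bL_bot h0 hm, BL_bot h0 hm, aL_top h0 hp, bL_top h0 hp, BL_top h0 hp]
      simp only [mul_zero, zero_mul, zero_smul, add_zero, sub_zero, zero_add]
      rw [norm_smul, mul_pow, Real.norm_eq_abs, sq_abs]
      obtain ⟨k0, k1⟩ := kL_mem t
      have k2 := kL'_abs t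
      have i1 : kL t * Z.DN w ≤ |Z.DN w| := by
        calc kL t * Z.DN w ≤ |kL t * Z.DN w| := le_abs_self _
          _ = kL t * |Z.DN w| := by rw [abs_mul, abs_of_nonneg k0]
          _ ≤ 1 * |Z.DN w| := mul_le_mul_of_nonneg_right k1 (abs_nonneg _)
          _ = |Z.DN w| := one_mul _
      have i2 : kL' t ^ 2 * ‖Z.xi w‖ ^ 2 / 4 ≤ ‖Z.xi w‖ ^ 2 := by
        have := mul_le_mul_of_nonneg_right k2 (sq_nonneg ‖Z.xi w‖)
        linarith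
      have i3 : ‖Z.gp w‖ ^ 2 ≤ M ^ 2 := pow_le_pow_left₀ (norm_nonneg _) hB.gp2 2
      have i4 := hB.C2
      linarith
    · have hp : Z.h ≤ t - (Z.p w).re := by linarith
      rw [aL_top h0 hp, bL_top h0 hp, BL_top h0 hp, kL_top h', kL'_top h']
      have hn := near hB.hh hl hB.gm2 hB.Lmn hB.C1 (t - (Z.m w).re)
      simp only [mul_zero, zero_mul, zero_smul, add_zero, sub_zero, zero_add, one_mul]
      linarith

/-- equality on the outer graph -/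
theorem eq_p (hZ : Z.Dif a) (hw : w ∈ Strip a) (hB : Z.Bd M c n0 r w) :
    divx Z.H (w, (Z.p w).re) + inner ℝ (dt Z.H (w, (Z.p w).re)) (Z.gp w)
      = Z.h ^ 2 * Z.lam / 6 := by
  have h0 := hB.hh
  have h1 := hB.h2
  have h2 := hB.um
  have h3 := hB.up
  rw [H_divx hZ hw, H_dt hZ hw]
  have hm : (Z.p w).re - (Z.m w).re ≤ -Z.h := by linarith
  have hk : (Z.p w).re ≤ -(1 / 2) := by linarith
  rw [aL_bot h0 hm, bL_bot h0 hm, BL_bot h0 hm, kL_bot hk, kL'_bot hk, sub_self, aL_zero, bL_zero,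
    BL_zero]
  simp only [mul_zero, zero_mul, zero_smul, add_zero, sub_zero, mul_one]
  rw [real_inner_smul_left, real_inner_self_eq_norm_sq]
  ring

/-- equality on the inner graph -/
theorem eq_m (hZ : Z.Dif a) (hw : w ∈ Strip a) (hB : Z.Bd M c n0 r w) :
    divx Z.H (w, (Z.m w).re) + inner ℝ (dt Z.H (w, (Z.m w).re)) (Z.gm w)
      = Z.DN w + Z.h ^ 2 * Z.lam / 6 := by
  have h0 := hB.hh
  have h1 := hB.h2
  have h2 := hB.um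
  have h3 := hB.up
  rw [H_divx hZ hw, H_dt hZ hw]
  have hp : Z.h ≤ (Z.m w).re - (Z.p w).re := by linarith
  have hk : 1 / 2 ≤ (Z.m w).re := by linarith
  rw [aL_top h0 hp, bL_top h0 hp, BL_top h0 hp, kL_top hk, kL'_top hk, sub_self, aL_zero, bL_zero,
    BL_zero]
  simp only [mul_zero, zero_mul, zero_smul, add_zero, sub_zero, zero_add, mul_one, one_mul]
  rw [real_inner_smul_left, real_inner_self_eq_norm_sq]
  ring

/-- the jump of the field -/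
theorem jump (hB : Z.Bd M c n0 r w) :
    Z.H (w, (Z.p w).re) - Z.H (w, (Z.m w).re) = -Z.NN w := by
  have h2 := hB.um
  have h3 := hB.up
  rw [H_A hB (by linarith : (Z.p w).re ≤ -(1 / 2)), H_C hB (by linarith : 1 / 2 ≤ (Z.m w).re),
    sub_self, sub_self, cL_zero]
  unfold E F xi
  rw [ph_one, ph_zero]
  push_cast
  ring

/-- the field is constant above -/
theorem H_above (hB : Z.Bd M c n0 r w) {T t : ℝ} (hT : (Z.m w).re + 1 ≤ T) (ht : T ≤ t) :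
    Z.H (w, t) = Z.H (w, T) := by
  have h0 := hB.hh
  have h1 := hB.h2
  have h2 := hB.um
  rw [H_C hB (by linarith : 1 / 2 ≤ t), H_C hB (by linarith : 1 / 2 ≤ T),
    cL_top h0 (by linarith : Z.h ≤ t - (Z.m w).re), cL_top h0 (by linarith : Z.h ≤ T - (Z.m w).re)]

/-- the field is constant below -/
theorem H_below (hB : Z.Bd M c n0 r w) {T t : ℝ} (hT : -T ≤ (Z.p w).re - 1) (ht : t ≤ -T) :
    Z.H (w, t) = Z.H (w, -T) := by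
  have h0 := hB.hh
  have h1 := hB.h2
  have h3 := hB.up
  rw [H_A hB (by linarith : t ≤ -(1 / 2)), H_A hB (by linarith : -T ≤ -(1 / 2)),
    cL_bot h0 (by linarith : t - (Z.p w).re ≤ -Z.h),
    cL_bot h0 (by linarith : -T - (Z.p w).re ≤ -Z.h)]

end Par

end Pool.Agent.Y195.LM
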