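import Pool.Agent.Y195.LM.Strip
import Pool.Agent.Y195.LM.Geom
import Pool.Agent.TH605.MS.Calib

/-!
# The calibration in the strip gives local minimality
-/

set_option autoImplicit false

open MeasureTheory Set Filter Topology Metric Complex Pool.Agent.TH605.MS
open scoped ENNReal ComplexConjugate Real

namespace Pool.Agent.Y195.LM

namespace Dat

variable (D : Dat)

lemma Gam_null : volume D.Gam = 0 := by
  unfold Gam
  apply addHaar_image_eq_zero_of_differentiableOn_of_addHaar_eq_zero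
  · intro X hX
    exact ((D.hf X (D.An_sub (D.sphere_sub hX))).differentiableAt.restrictScalars ℝ).differentiableWithinAt
  · exact Measure.addHaar_sphere _ _ _

end Dat

lemma scal_norm (k X : ℂ) (z : ℂ) : ‖(conj k)⁻¹ * ((conj X)⁻¹ * z)‖ = ‖k‖⁻¹ * (‖X‖⁻¹ * ‖z‖) := by
  rw [norm_mul, norm_mul, norm_inv, norm_inv, Complex.norm_conj, Complex.norm_conj]

lemma scal_inner (k X a b : ℂ) : inner ℝ ((conj k)⁻¹ * ((conj X)⁻¹ * a))
    ((conj k)⁻¹ * ((conj X)⁻¹ * b)) = (‖k‖ ^ 2)⁻¹ * ((‖X‖ ^ 2)⁻¹ * inner ℝ a b) := by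
  have e : ∀ c a b : ℂ, (inner ℝ (c * a) (c * b) : ℝ) = ‖c‖ ^ 2 * inner ℝ a b := by
    intro c a b
    rw [Complex.inner, Complex.inner, map_mul, ← Complex.normSq_eq_norm_sq]
    have : c * b * (conj c * conj a) = ((normSq c : ℝ) : ℂ) * (b * conj a) := by
      rw [← Complex.mul_conj]; ring
    rw [this, Complex.re_ofReal_mul]
  rw [e, e, norm_inv, norm_inv, Complex.norm_conj, Complex.norm_conj, inv_pow, inv_pow]

theorem main (hSBV : S_SBV) (hTRP : S_TRP) (D : Dat) {q p p1 m m1 : ℂ → ℂ} {T : ℝ}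
    {H : ℂ × ℝ → ℂ} {om : ℂ → ℝ} (hσ : D.σ ≤ 1 / 2) (hT : 0 ≤ T)
    (cal : Cal q p p1 m m1 D.σ T H om)
    (eq : ∀ X ∈ An D.σ, ‖q (log X)‖ = ‖D.k X‖ * ‖X‖)
    (ep : ∀ X ∈ An D.σ, p (log X) = D.P X) (ep1 : ∀ X ∈ An D.σ, p1 (log X) = X * D.P' X)
    (em : ∀ X ∈ An D.σ, m (log X) = D.Q X) (em1 : ∀ X ∈ An D.σ, m1 (log X) = X * D.Q' X) :
    IsLocalMinimizer D.Om D.u0 := by
  obtain ⟨sbv, hJ, hD, hE⟩ := hSBV D
  obtain ⟨cdX, hX⟩ := hTRP D.σ H D.σ0 hσ cal.cd cal.per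
  obtain ⟨cdz, hz⟩ := Pool.Agent.TH113.MS.transport D.hW D.An_isOpen D.An_sub D.hf D.k0
    (fun _ h => D.kinv_f h) cdX
  set HX : ℂ × ℝ → ℂ := fun p => (conj p.1)⁻¹ * H (log p.1, p.2) with hHX
  set Hz : ℂ × ℝ → ℂ := fun p => (conj (D.k (D.kinv p.1)))⁻¹ * HX (D.kinv p.1, p.2) with hHz
  have kpos : ∀ X ∈ An D.σ, 0 < ‖D.k X‖ := fun X hX => norm_pos_iff.2 (D.k0 X (D.An_sub hX))
  have Xpos : ∀ X ∈ An D.σ, 0 < ‖X‖ := fun X hX => norm_pos_iff.2 (D.ne_zero hX)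
  have eHz : ∀ X ∈ An D.σ, ∀ t, Hz (D.f X, t) = (conj (D.k X))⁻¹ * ((conj X)⁻¹ * H (log X, t)) := by
    intro X hX t
    simp only [hHz, hHX, D.kinv_f (D.An_sub hX)]
  have ediv : ∀ X ∈ An D.σ, ∀ t, divx Hz (D.f X, t)
      = (‖D.k X‖ ^ 2)⁻¹ * ((‖X‖ ^ 2)⁻¹ * divx H (log X, t)) := by
    intro X hX' t
    rw [(hz X hX' t).1, (hX X hX' t).2.1]
  have edt : ∀ X ∈ An D.σ, ∀ t, dt Hz (D.f X, t)
      = (conj (D.k X))⁻¹ * ((conj X)⁻¹ * dt H (log X, t)) := by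
    intro X hX' t
    rw [(hz X hX' t).2, (hX X hX' t).2.2]
  have hst : ∀ X ∈ An D.σ, log X ∈ Strip D.σ := fun X hX' => (hX X hX' 0).1
  obtain ⟨ω, hω⟩ : ∃ ω : ℂ → ℝ, ∀ X ∈ An D.σ, ω (D.f X)
      = (‖D.k X‖ ^ 2)⁻¹ * ((‖X‖ ^ 2)⁻¹ * om (log X)) := by
    refine ⟨fun z => (‖D.k (D.kinv z)‖ ^ 2)⁻¹ * ((‖D.kinv z‖ ^ 2)⁻¹ * om (log (D.kinv z))),
      fun X hX => ?_⟩
    simp only [D.kinv_f (D.An_sub hX)]
  refine calibration (H := Hz) (ω := ω) (T := T) D.Om_open sbv cdz hT ?_ ?_ ?_ ?_ ?_ ?_ ?_ hE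
  · rintro _ ⟨X, hX', rfl⟩ t ht
    rw [eHz X hX', eHz X hX', cal.ab _ (hst X hX') t ht]
  · rintro _ ⟨X, hX', rfl⟩ t ht
    rw [eHz X hX', eHz X hX', cal.be _ (hst X hX') t ht]
  · rintro _ ⟨X, hX', rfl⟩ t
    rw [ediv X hX', edt X hX', hω X hX', scal_norm]
    have h1 := cal.i1 _ (hst X hX') t
    have hk := kpos X hX'
    have hx := Xpos X hX'
    have e : (‖D.k X‖ ^ 2)⁻¹ * ((‖X‖ ^ 2)⁻¹ * divx H (log X, t))
        + (‖D.k X‖⁻¹ * (‖X‖⁻¹ * ‖dt H (log X, t)‖)) ^ 2 / 4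
        = (‖D.k X‖ ^ 2)⁻¹ * ((‖X‖ ^ 2)⁻¹ * (divx H (log X, t) + ‖dt H (log X, t)‖ ^ 2 / 4)) := by
      rw [mul_pow, mul_pow, inv_pow, inv_pow]; ring
    rw [e]
    exact mul_le_mul_of_nonneg_left (mul_le_mul_of_nonneg_left h1 (by positivity)) (by positivity)
  · rintro _ ⟨X, hX', rfl⟩ s t
    rw [eHz X hX', eHz X hX', ← mul_sub, ← mul_sub, scal_norm]
    have h1 := cal.i2 _ (hst X hX') s t
    rw [eq X hX'] at h1
    have hk := kpos X hX'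
    have hx := Xpos X hX'
    calc ‖D.k X‖⁻¹ * (‖X‖⁻¹ * ‖H (log X, t) - H (log X, s)‖)
        ≤ ‖D.k X‖⁻¹ * (‖X‖⁻¹ * (‖D.k X‖ * ‖X‖)) :=
          mul_le_mul_of_nonneg_left (mul_le_mul_of_nonneg_left h1 (by positivity)) (by positivity)
      _ = 1 := by field_simp
  · have h : ∀ᵐ z, z ∉ D.Gam := measure_eq_zero_iff_ae_notMem.1 D.Gam_null
    filter_upwards [h] with z hz'
    rintro ⟨X, hX', rfl⟩
    have hk := kpos X hX'
    have hx := Xpos X hX'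
    rcases lt_trichotomy ‖X‖ 1 with h1 | h1 | h1
    · rw [D.u0_in hX' h1, D.g0_in hX' h1, ediv X hX', edt X hX', hω X hX']
      have h2 : (log X).re < 0 := by
        rw [Complex.log_re]; exact Real.log_neg hx h1
      have h3 := cal.e2 _ (hst X hX') h2
      rw [em X hX', em1 X hX'] at h3
      have e1 : conj (D.Q' X / D.k X) = (conj (D.k X))⁻¹ * ((conj X)⁻¹ * conj (X * D.Q' X)) := by
        have h4 : conj X ≠ 0 := (map_ne_zero _).2 (D.ne_zero hX')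
        have h5 : conj (D.k X) ≠ 0 := (map_ne_zero _).2 (norm_pos_iff.1 hk)
        rw [map_div₀, map_mul]
        field_simp
      rw [e1, scal_inner, scal_norm, Complex.norm_conj]
      have e2 : (‖D.k X‖ ^ 2)⁻¹ * ((‖X‖ ^ 2)⁻¹ * divx H (log X, (D.Q X).re))
          + (‖D.k X‖ ^ 2)⁻¹ * ((‖X‖ ^ 2)⁻¹ * inner ℝ (dt H (log X, (D.Q X).re))
            (conj (X * D.Q' X)))
          = (‖D.k X‖ ^ 2)⁻¹ * ((‖X‖ ^ 2)⁻¹ * (divx H (log X, (D.Q X).re)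
            + inner ℝ (dt H (log X, (D.Q X).re)) (conj (X * D.Q' X)))) := by ring
      rw [e2, h3, mul_pow, mul_pow, inv_pow, inv_pow]
      ring
    · exact absurd ((D.mem_Gam hX').2 h1) hz'
    · rw [D.u0_out hX' h1.le, D.g0_out hX' h1, ediv X hX', edt X hX', hω X hX']
      have h2 : 0 < (log X).re := by
        rw [Complex.log_re]; exact Real.log_pos h1
      have h3 := cal.e1 _ (hst X hX') h2
      rw [ep X hX', ep1 X hX'] at h3
      have e1 : conj (D.P' X / D.k X) = (conj (D.k X))⁻¹ * ((conj X)⁻¹ * conj (X * D.P' X)) := by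
        have h4 : conj X ≠ 0 := (map_ne_zero _).2 (D.ne_zero hX')
        have h5 : conj (D.k X) ≠ 0 := (map_ne_zero _).2 (norm_pos_iff.1 hk)
        rw [map_div₀, map_mul]
        field_simp
      rw [e1, scal_inner, scal_norm, Complex.norm_conj]
      have e2 : (‖D.k X‖ ^ 2)⁻¹ * ((‖X‖ ^ 2)⁻¹ * divx H (log X, (D.P X).re))
          + (‖D.k X‖ ^ 2)⁻¹ * ((‖X‖ ^ 2)⁻¹ * inner ℝ (dt H (log X, (D.P X).re))
            (conj (X * D.P' X)))
          = (‖D.k X‖ ^ 2)⁻¹ * ((‖X‖ ^ 2)⁻¹ * (divx H (log X, (D.P X).re)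
            + inner ℝ (dt H (log X, (D.P X).re)) (conj (X * D.P' X)))) := by ring
      rw [e2, h3, mul_pow, mul_pow, inv_pow, inv_pow]
      ring
  · rw [hJ]
    rintro _ ⟨X, hX1, rfl⟩
    have hX' : X ∈ An D.σ := D.sphere_sub hX1
    rw [mem_sphere, dist_zero_right] at hX1
    have hk := kpos X hX'
    rw [D.vP_f hX', D.vQ_f hX', eHz X hX', eHz X hX', ← mul_sub, ← mul_sub, D.nu0_eq hX']
    have h1 := cal.j (log X) (by rw [Complex.log_re, hX1, Real.log_one])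
    rw [ep X hX', em X hX', eq X hX', hX1, mul_one] at h1
    rw [h1]
    have hk0 := norm_pos_iff.1 hk
    have h4 : conj X ≠ 0 := (map_ne_zero _).2 (D.ne_zero hX')
    have h5 : conj (D.k X) ≠ 0 := (map_ne_zero _).2 hk0
    have h6 : ((‖D.k X‖ : ℝ) : ℂ) ≠ 0 := by exact_mod_cast hk.ne'
    have hXX : X * conj X = 1 := by
      rw [Complex.mul_conj, Complex.normSq_eq_norm_sq, hX1]; norm_num
    have hkk : D.k X * conj (D.k X) = ((‖D.k X‖ : ℝ) : ℂ) ^ 2 := by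
      rw [Complex.mul_conj, Complex.normSq_eq_norm_sq]; push_cast; ring
    have e2 : (conj (D.k X))⁻¹ * ((conj X)⁻¹ * ((‖D.k X‖ : ℝ) : ℂ))
        = (‖D.k X‖⁻¹ : ℝ) • (D.k X * X) := by
      rw [Complex.real_smul]
      push_cast
      field_simp
      linear_combination (-1 : ℂ) * hkk - D.k X * conj (D.k X) * hXX
    rw [e2, real_inner_self_eq_norm_sq, norm_smul, norm_mul, hX1, norm_inv, norm_norm]
    field_simp
  · rw [hD, hJ]

end Pool.Agent.Y195.LM
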