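import Pool.Agent.Y195.LM.Out
import Pool.Agent.Y31.LM.Pq

/-!
# The crossing condition: necessity, curves with four sign changes, centrally symmetric curves
-/

set_option autoImplicit false

open MeasureTheory Set Filter Topology Metric Complex
open scoped ENNReal ComplexConjugate Real

namespace Pool.Agent.Y195.LM

namespace Nec

open Pool.Agent.Y31.LM (Kh Kc Kh_on Kh_analytic)

lemma norm_e (θ : ℝ) : ‖exp (θ * I)‖ = 1 := Complex.norm_exp_ofReal_mul_I θ

lemma e_mem (θ : ℝ) : exp (θ * I) ∈ sphere (0 : ℂ) 1 := mem_sphere_zero_iff_norm.2 (norm_e θ)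

lemma e_per (θ : ℝ) : exp (((θ + 2 * π : ℝ) : ℂ) * I) = exp (θ * I) := by
  push_cast
  rw [add_mul, Complex.exp_add, Complex.exp_two_pi_mul_I, mul_one]

lemma cv_per (f : ℂ → ℂ) (θ : ℝ) : cv f (θ + 2 * π) = cv f θ := by
  unfold cv; rw [e_per]

lemma hasDerivAt_e (θ : ℝ) : HasDerivAt (fun θ : ℝ => exp (θ * I)) (exp (θ * I) * I) θ := by
  have := ((Complex.ofRealCLM.hasDerivAt (x := θ)).mul_const I).cexp
  simpa using this

lemma hasDerivAt_on {g : ℂ → ℂ} (θ : ℝ) (h : AnalyticAt ℂ g (exp (θ * I))) :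
    HasDerivAt (fun θ : ℝ => g (exp (θ * I))) (deriv g (exp (θ * I)) * (exp (θ * I) * I)) θ :=
  h.differentiableAt.hasDerivAt.comp θ (hasDerivAt_e θ)

lemma cont_on {g : ℂ → ℂ} (hg : ∀ X : ℂ, ‖X‖ = 1 → AnalyticAt ℂ g X) :
    Continuous fun θ : ℝ => g (exp (θ * I)) := by
  refine ContinuousOn.comp_continuous (s := sphere (0 : ℂ) 1) (f := fun θ : ℝ => exp (θ * I))
    (g := g) ?_ (by fun_prop) (fun θ => e_mem θ)
  intro X hX
  exact (hg X (mem_sphere_zero_iff_norm.1 hX)).continuousAt.continuousWithinAt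

lemma cv_cont {f : ℂ → ℂ} (hf : JordanAn f) : Continuous (cv f) := by
  have h1 : Continuous fun θ : ℝ => deriv f (exp (θ * I)) := cont_on fun X hX => (hf.1 X hX).deriv
  have h2 : Continuous fun θ : ℝ => deriv (deriv f) (exp (θ * I)) :=
    cont_on fun X hX => (hf.1 X hX).deriv.deriv
  have h3 : Continuous fun θ : ℝ => exp (θ * I) := by fun_prop
  exact Complex.continuous_re.comp (continuous_const.add
    ((h3.mul h2).div h1 fun θ => hf.2.1 _ (norm_e θ)))

lemma exists_cv_ne {f : ℂ → ℂ} (hf : JordanAn f) : ∃ θ, cv f θ ≠ 0 := by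
  obtain ⟨θ, hθ⟩ := Pool.Agent.Y884.LM.Nez.t (fun w => f (exp w)) (fun w => Crit.eu f (exp w))
    (fun w => Crit.eu (Crit.eu f) (exp w))
    (fun θ => Crit.hasDerivAt_eu (hf.1 _ (norm_e θ)))
    (fun θ => Crit.hasDerivAt_eu (Crit.eu_analytic (hf.1 _ (norm_e θ))))
    (fun θ => mul_ne_zero (exp_ne_zero _) (hf.2.1 _ (norm_e θ)))
    (fun w => by simp only [Crit.exp_per])
  refine ⟨θ, fun h => hθ ?_⟩
  set X := exp (θ * I) with hX
  have h1 : ‖X‖ = 1 := norm_e θ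
  have hX0 : X ≠ 0 := exp_ne_zero _
  have hd := hf.2.1 X h1
  have e1 : Crit.eu (Crit.eu f) X = Crit.eu f X * (1 + X * deriv (deriv f) X / deriv f X) := by
    unfold Crit.eu
    rw [deriv_fun_mul differentiableAt_fun_id (hf.1 X h1).deriv.differentiableAt]
    simp only [deriv_id'']
    field_simp
  have h2 : Crit.eu f X * (1 + X * deriv (deriv f) X / deriv f X) * conj (Crit.eu f X)
      = ((‖Crit.eu f X‖ ^ 2 : ℝ) : ℂ) * (1 + X * deriv (deriv f) X / deriv f X) := by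
    rw [← Complex.normSq_eq_norm_sq, ← Complex.mul_conj]; ring
  rw [e1, h2, Complex.re_ofReal_mul]
  have h3 : (1 + X * deriv (deriv f) X / deriv f X).re = 0 := h
  rw [h3, mul_zero]

/-- the curvature is nonzero on a dense set -/
lemma dense_cv {f : ℂ → ℂ} (hf : JordanAn f) :
    Dense {θ : ℝ | ‖deriv f (exp (θ * I))‖ * cv f θ ≠ 0} := by
  have hK : ∀ θ : ℝ, (Kh f (exp (θ * I))).re = ‖deriv f (exp (θ * I))‖ * cv f θ := by
    intro θ
    rw [Kh_on hf.1 hf.2.1 (norm_e θ), Complex.ofReal_re]; rfl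
  have han : AnalyticOnNhd ℝ (fun θ : ℝ => (Kh f (exp (θ * I))).re) univ := by
    intro θ _
    have h1 : AnalyticAt ℝ (Kh f) (exp (θ * I)) :=
      (Kh_analytic hf.1 hf.2.1 (norm_e θ)).restrictScalars
    have h2 : AnalyticAt ℝ (fun θ : ℝ => exp (θ * I)) θ := by
      have h3 : AnalyticAt ℝ (fun z : ℂ => exp (z * I)) ((θ : ℝ) : ℂ) :=
        ((analyticAt_id.mul analyticAt_const).cexp : AnalyticAt ℂ _ _).restrictScalars
      exact h3.comp (Complex.ofRealCLM.analyticAt θ)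
    have h4 : AnalyticAt ℝ (fun θ : ℝ => Kh f (exp (θ * I))) θ :=
      AnalyticAt.comp (f := fun θ : ℝ => exp (θ * I)) h1 h2
    exact (Complex.reCLM.analyticAt _).comp h4
  rw [dense_iff_inter_open]
  intro U hU hne
  obtain ⟨θ₀, h0⟩ := hne
  by_contra hcon
  rw [Set.not_nonempty_iff_eq_empty] at hcon
  have hev : (fun θ : ℝ => (Kh f (exp (θ * I))).re) =ᶠ[𝓝 θ₀] 0 := by
    filter_upwards [hU.mem_nhds h0] with θ hθ
    by_contra h
    have : θ ∈ U ∩ {θ : ℝ | ‖deriv f (exp (θ * I))‖ * cv f θ ≠ 0} := by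
      refine ⟨hθ, ?_⟩
      show ‖deriv f (exp (θ * I))‖ * cv f θ ≠ 0
      rw [← hK]; exact h
    rw [hcon] at this
    exact this
  have hz := han.eqOn_zero_of_preconnected_of_eventuallyEq_zero isPreconnected_univ (mem_univ θ₀) hev
  obtain ⟨θ, hθ⟩ := exists_cv_ne hf
  have h1 := hz (mem_univ θ)
  simp only [hK, Pi.zero_apply] at h1
  rcases mul_eq_zero.1 h1 with h | h
  · exact hf.2.1 _ (norm_e θ) (norm_eq_zero.1 h)
  · exact hθ h

/-- the derivative along the circle of a function which is real on the circle -/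
lemma real_deriv {P : ℂ → ℂ} (hP : ∀ X : ℂ, ‖X‖ = 1 → AnalyticAt ℂ P X)
    (rP : ∀ X : ℂ, ‖X‖ = 1 → (P X).im = 0) (θ : ℝ) :
    HasDerivAt (fun θ : ℝ => (P (exp (θ * I))).re)
      (deriv P (exp (θ * I)) * (exp (θ * I) * I)).re θ ∧
    (deriv P (exp (θ * I)) * (exp (θ * I) * I)).im = 0 := by
  have h := hasDerivAt_on θ (hP _ (norm_e θ))
  have h1 := (Complex.reCLM.hasFDerivAt (x := P (exp (θ * I)))).comp_hasDerivAt θ h
  have h2 := (Complex.imCLM.hasFDerivAt (x := P (exp (θ * I)))).comp_hasDerivAt θ h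
  refine ⟨h1, ?_⟩
  have h3 : (⇑imCLM ∘ fun θ : ℝ => P (exp (θ * I))) = fun _ => 0 := by
    funext θ; exact rP _ (norm_e θ)
  rw [h3] at h2
  exact h2.unique (hasDerivAt_const θ (0 : ℝ))

theorem nec (hNEC : S_NEC) {f P Q : ℂ → ℂ} (hf : JordanAn f) (h : CritPair f P Q) :
    Cross (cv f) := by
  obtain ⟨hP, hQ, rP, rQ, EL⟩ := h
  set α : ℝ → ℝ := fun θ => (deriv P (exp (θ * I)) * (exp (θ * I) * I)).re with hα
  set β : ℝ → ℝ := fun θ => (deriv Q (exp (θ * I)) * (exp (θ * I) * I)).re with hβ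
  have cα : Continuous α := by
    have h1 : Continuous fun θ : ℝ => deriv P (exp (θ * I)) := cont_on fun X hX => (hP X hX).deriv
    exact Complex.continuous_re.comp (h1.mul (by fun_prop))
  have cβ : Continuous β := by
    have h1 : Continuous fun θ : ℝ => deriv Q (exp (θ * I)) := cont_on fun X hX => (hQ X hX).deriv
    exact Complex.continuous_re.comp (h1.mul (by fun_prop))
  have pα : ∀ θ, α (θ + 2 * π) = α θ := fun θ => by simp only [hα, e_per]
  have pβ : ∀ θ, β (θ + 2 * π) = β θ := fun θ => by simp only [hβ, e_per]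
  have e2π : exp (((2 * π : ℝ) : ℂ) * I) = exp (((0 : ℝ) : ℂ) * I) := by
    rw [← e_per 0, zero_add]
  have iα : ∫ θ in (0)..(2 * π), α θ = 0 := by
    rw [intervalIntegral.integral_eq_sub_of_hasDerivAt (fun θ _ => (real_deriv hP rP θ).1)
      (cα.intervalIntegrable _ _), e2π, sub_self]
  have iβ : ∫ θ in (0)..(2 * π), β θ = 0 := by
    rw [intervalIntegral.integral_eq_sub_of_hasDerivAt (fun θ _ => (real_deriv hQ rQ θ).1)
      (cβ.intervalIntegrable _ _), e2π, sub_self]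
  have sq : ∀ (G : ℂ → ℂ) (θ : ℝ), (deriv G (exp (θ * I)) * (exp (θ * I) * I)).im = 0 →
      (deriv G (exp (θ * I)) * (exp (θ * I) * I)).re ^ 2 = ‖deriv G (exp (θ * I))‖ ^ 2 := by
    intro G θ him
    have h1 : ‖deriv G (exp (θ * I)) * (exp (θ * I) * I)‖ = ‖deriv G (exp (θ * I))‖ := by
      rw [norm_mul, norm_mul, norm_e, Complex.norm_I, mul_one, mul_one]
    rw [← h1, ← Complex.normSq_eq_norm_sq, Complex.normSq_apply, him]
    ring
  have hK : ∀ θ : ℝ, ‖deriv f (exp (θ * I))‖ * cv f θ = (α θ + β θ) * (α θ - β θ) := by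
    intro θ
    have h1 := EL _ (norm_e θ)
    rw [← sq P θ (real_deriv hP rP θ).2, ← sq Q θ (real_deriv hQ rQ θ).2] at h1
    show ‖deriv f (exp (θ * I))‖ * (1 + exp (θ * I) * deriv (deriv f) (exp (θ * I))
      / deriv f (exp (θ * I))).re = _
    rw [← h1]
    simp only [hα, hβ]
    ring
  obtain ⟨x, y, h1, h2, h3, h4, h5, h6⟩ := hNEC
    (fun θ => ‖deriv f (exp (θ * I))‖ * cv f θ) (fun θ => α θ + β θ) (fun θ => α θ - β θ)
    (cα.add cβ) (cα.sub cβ) (fun θ => by simp only [pα, pβ]) (fun θ => by simp only [pα, pβ]) hK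
    (dense_cv hf)
    (by rw [intervalIntegral.integral_add (cα.intervalIntegrable _ _) (cβ.intervalIntegrable _ _),
      iα, iβ, add_zero])
    (by rw [intervalIntegral.integral_sub (cα.intervalIntegrable _ _) (cβ.intervalIntegrable _ _),
      iα, iβ, sub_zero])
  have hd : ∀ θ : ℝ, 0 < ‖deriv f (exp (θ * I))‖ := fun θ => norm_pos_iff.2 (hf.2.1 _ (norm_e θ))
  refine ⟨x, y, h1, h2, (mul_eq_zero.1 h3).resolve_left (hd x).ne',
    (mul_eq_zero.1 h4).resolve_left (hd y).ne', fun h => h5 ⟨fun t ht => ?_, fun t ht => ?_⟩,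
    fun h => h6 ⟨fun t ht => ?_, fun t ht => ?_⟩⟩
  · exact mul_nonneg (hd t).le (h.1 t ht)
  · exact mul_nonpos_of_nonneg_of_nonpos (hd t).le (h.2 t ht)
  · exact mul_nonpos_of_nonneg_of_nonpos (hd t).le (h.1 t ht)
  · exact mul_nonneg (hd t).le (h.2 t ht)

/-- four sign changes -/
theorem cross4 {f : ℂ → ℂ} (hf : JordanAn f) {t₁ t₂ t₃ t₄ : ℝ} (h12 : t₁ < t₂) (h23 : t₂ < t₃)
    (h34 : t₃ < t₄) (h41 : t₄ < t₁ + 2 * π) (k1 : 0 < cv f t₁) (k2 : cv f t₂ < 0)
    (k3 : 0 < cv f t₃) (k4 : cv f t₄ < 0) : Cross (cv f) := by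
  have hc := cv_cont hf
  obtain ⟨x, hx, zx⟩ := intermediate_value_Icc' h12.le hc.continuousOn
    (show (0 : ℝ) ∈ Icc (cv f t₂) (cv f t₁) from ⟨k2.le, k1.le⟩)
  obtain ⟨y, hy, zy⟩ := intermediate_value_Icc' h34.le hc.continuousOn
    (show (0 : ℝ) ∈ Icc (cv f t₄) (cv f t₃) from ⟨k4.le, k3.le⟩)
  have a1 : t₁ < x := lt_of_le_of_ne hx.1 (fun h => by rw [← h] at zx; exact k1.ne' zx)
  refine ⟨x, y, by linarith [hx.2, hy.1], by linarith [hy.2], zx, zy, ?_, ?_⟩
  · rintro ⟨h, -⟩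
    exact absurd (h t₂ ⟨hx.2, by linarith [hy.1]⟩) (not_le.2 k2)
  · rintro ⟨h, -⟩
    exact absurd (h t₃ ⟨by linarith [hx.2], hy.1⟩) (not_le.2 k3)

lemma sym_deriv {g : ℂ → ℂ} (hg : ∀ X : ℂ, ‖X‖ = 1 → AnalyticAt ℂ g X) {s : ℂ}
    (h : ∀ X : ℂ, ‖X‖ = 1 → g (-X) = s * g X) {X : ℂ} (hX : ‖X‖ = 1) :
    deriv g (-X) = -s * deriv g X := by
  obtain ⟨θ, rfl⟩ : ∃ θ : ℝ, X = exp (θ * I) := by
    refine ⟨arg X, ?_⟩
    have h1 := Complex.norm_mul_exp_arg_mul_I X
    rw [hX, Complex.ofReal_one, one_mul] at h1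
    exact h1.symm
  have h1 := (hasDerivAt_on θ (hg _ (norm_e θ))).const_mul s
  have h2 : HasDerivAt (fun θ : ℝ => g (-exp (θ * I)))
      (deriv g (-exp (θ * I)) * -(exp (θ * I) * I)) θ := by
    have h3 : AnalyticAt ℂ g (-exp (θ * I)) := hg _ (by rw [norm_neg]; exact norm_e θ)
    exact h3.differentiableAt.hasDerivAt.comp θ (hasDerivAt_e θ).neg
  have h3 : (fun θ : ℝ => g (-exp (θ * I))) = fun θ : ℝ => s * g (exp (θ * I)) := by
    funext θ; exact h _ (norm_e θ)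
  rw [h3] at h2
  have h4 := h1.unique h2
  have h5 : exp (θ * I) * I ≠ 0 := mul_ne_zero (exp_ne_zero _) I_ne_zero
  have h6 : (deriv g (-exp (θ * I))) * (exp (θ * I) * I)
      = (-s * deriv g (exp (θ * I))) * (exp (θ * I) * I) := by linear_combination h4
  exact mul_right_cancel₀ h5 h6

/-- centrally symmetric curves -/
theorem cross_sym {f : ℂ → ℂ} (hf : JordanAn f) (hs : ∀ X : ℂ, ‖X‖ = 1 → f (-X) = -f X) {t : ℝ}
    (ht : cv f t = 0) : Cross (cv f) := by
  have hpi := Real.pi_pos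
  have h1 : ∀ X : ℂ, ‖X‖ = 1 → deriv f (-X) = deriv f X := fun X hX => by
    have := sym_deriv hf.1 (s := -1) (fun X hX => by rw [hs X hX]; ring) hX
    rw [this]; ring
  have h2 : ∀ X : ℂ, ‖X‖ = 1 → deriv (deriv f) (-X) = -deriv (deriv f) X := fun X hX => by
    have := sym_deriv (fun X hX => (hf.1 X hX).deriv) (s := 1)
      (fun X hX => by rw [h1 X hX]; ring) hX
    rw [this]; ring
  have hp : Function.Periodic (cv f) π := by
    intro θ
    have h3 : exp (((θ + π : ℝ) : ℂ) * I) = -exp (θ * I) := by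
      push_cast
      rw [add_mul, Complex.exp_add, Complex.exp_pi_mul_I]
      ring
    unfold cv
    rw [h3, h1 _ (norm_e θ), h2 _ (norm_e θ)]
    congr 2
    ring
  have key : (∀ s ∈ Icc t (t + π), cv f s = 0) → False := by
    intro h
    obtain ⟨θ, hθ⟩ := exists_cv_ne hf
    obtain ⟨y, hy, e⟩ := hp.exists_mem_Ico hpi θ t
    exact hθ (e.trans (h y ⟨hy.1, hy.2.le⟩))
  refine ⟨t, t + π, by linarith, by linarith, ht, by rw [hp]; exact ht, ?_, ?_⟩
  · rintro ⟨ha, hb⟩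
    refine key fun s hs => le_antisymm ?_ (ha s hs)
    rw [← hp s]
    exact hb _ ⟨by linarith [hs.1], by linarith [hs.2]⟩
  · rintro ⟨ha, hb⟩
    refine key fun s hs => le_antisymm (ha s hs) ?_
    rw [← hp s]
    exact hb _ ⟨by linarith [hs.1], by linarith [hs.2]⟩

end Nec

end Pool.Agent.Y195.LM
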