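import Pool.Agent.Y195.LM.Stm

/-!
# Statements of the jobs of project LM, part 2: the exact criterion for the existence of critical
pairs
-/

set_option autoImplicit false

open MeasureTheory Set Filter Topology Metric Complex
open scoped ENNReal ComplexConjugate Real

namespace Pool.Agent.Y195.LM

/-- there are two zeros `x`, `y` of `K` (a `2π`-periodic function) such that `K` is not
nonnegative on one and nonpositive on the other of the two arcs between `x` and `y` -/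
def Cross (K : ℝ → ℝ) : Prop := ∃ x y : ℝ, x < y ∧ y < x + 2 * π ∧ K x = 0 ∧ K y = 0 ∧
  ¬ ((∀ t ∈ Icc x y, 0 ≤ K t) ∧ ∀ t ∈ Icc y (x + 2 * π), K t ≤ 0) ∧
  ¬ ((∀ t ∈ Icc x y, K t ≤ 0) ∧ ∀ t ∈ Icc y (x + 2 * π), 0 ≤ K t)

/-- necessity -/
def S_NEC : Prop := ∀ K a c : ℝ → ℝ, Continuous a → Continuous c → (∀ θ, a (θ + 2 * π) = a θ) →
  (∀ θ, c (θ + 2 * π) = c θ) → (∀ θ, K θ = a θ * c θ) → Dense {θ | K θ ≠ 0} →
  ∫ θ in (0)..(2 * π), a θ = 0 → ∫ θ in (0)..(2 * π), c θ = 0 → Cross K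

/-- sufficiency -/
def S_PQG : Prop := ∀ f : ℂ → ℂ, (∀ X : ℂ, ‖X‖ = 1 → AnalyticAt ℂ f X) →
  (∀ X : ℂ, ‖X‖ = 1 → deriv f X ≠ 0) → Cross (cv f) →
  ∃ P Q : ℂ → ℂ, (∀ X : ℂ, ‖X‖ = 1 → AnalyticAt ℂ P X) ∧ (∀ X : ℂ, ‖X‖ = 1 → AnalyticAt ℂ Q X) ∧
    (∀ X : ℂ, ‖X‖ = 1 → (P X).im = 0) ∧ (∀ X : ℂ, ‖X‖ = 1 → (Q X).im = 0) ∧
    ∀ X : ℂ, ‖X‖ = 1 → ‖deriv P X‖ ^ 2 - ‖deriv Q X‖ ^ 2 =
      ‖deriv f X‖ * (1 + X * deriv (deriv f) X / deriv f X).re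

end Pool.Agent.Y195.LM
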