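import Pool.Agent.Y195.LM.Crit
import Pool.Agent.Y195.LM.Stm2
import Pool.Agent.Y31.LM.Sbv
import Pool.Agent.Y658.LM.TRP
import Pool.Agent.Y884.LM.Nez
import Pool.Agent.Y884.LM.Sec

/-!
# The counterexamples attached to a critical pair
-/

set_option autoImplicit false

open MeasureTheory Set Filter Topology Metric Complex Pool.Agent.TH605.MS
open scoped ENNReal ComplexConjugate Real

namespace Pool.Agent.Y195.LM

/-- `f` parametrises the analytic Jordan curve `f(|X| = 1)` -/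
def JordanAn (f : ℂ → ℂ) : Prop :=
  (∀ X : ℂ, ‖X‖ = 1 → AnalyticAt ℂ f X) ∧ (∀ X : ℂ, ‖X‖ = 1 → deriv f X ≠ 0) ∧
    InjOn f (sphere 0 1)

/-- a critical pair on the curve `f(|X| = 1)`: `Re P ∘ f⁻¹` outside and `Re Q ∘ f⁻¹` inside satisfy
the Euler–Lagrange equations (Neumann condition, and the jump of `|∇u|²` is the curvature) -/
def CritPair (f P Q : ℂ → ℂ) : Prop :=
  (∀ X : ℂ, ‖X‖ = 1 → AnalyticAt ℂ P X) ∧ (∀ X : ℂ, ‖X‖ = 1 → AnalyticAt ℂ Q X) ∧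
    (∀ X : ℂ, ‖X‖ = 1 → (P X).im = 0) ∧ (∀ X : ℂ, ‖X‖ = 1 → (Q X).im = 0) ∧
    ∀ X : ℂ, ‖X‖ = 1 → ‖deriv P X‖ ^ 2 - ‖deriv Q X‖ ^ 2 =
      ‖deriv f X‖ * (1 + X * deriv (deriv f) X / deriv f X).re

/-- a counterexample to Q1 whose discontinuity set is `C` -/
structure LoopMin (C Ω : Set ℂ) (u : ℂ → ℝ) : Prop where
  isOpen : IsOpen Ω
  bounded : Bornology.IsBounded Ω
  connected : IsConnected Ω
  minimizer : IsLocalMinimizer Ω u
  disc : Ω ∩ closure (discSet Ω u) = C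
  bad : ¬ ∃ (ι : Type) (c : ι → Arc Ω), Countable ι ∧ Admissible c ∧
    (⋃ i, (c i).image) = Ω ∩ closure (discSet Ω u)

namespace Out

lemma loop_cont {f : ℂ → ℂ} (hf : ContinuousOn f (sphere 0 1)) :
    Continuous fun t : ℝ => f (exp (t * I)) :=
  hf.comp_continuous (by fun_prop) fun t => by
    rw [mem_sphere_zero_iff_norm, Complex.norm_exp_ofReal_mul_I]

lemma loop_per (f : ℂ → ℂ) : Function.Periodic (fun t : ℝ => f (exp (t * I))) (2 * Real.pi) := by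
  intro t
  show f (exp (((t + 2 * Real.pi : ℝ) : ℂ) * I)) = f (exp (t * I))
  congr 1
  push_cast
  rw [add_mul, Complex.exp_add, Complex.exp_two_pi_mul_I, mul_one]

lemma loop_range (f : ℂ → ℂ) : range (fun t : ℝ => f (exp (t * I))) = f '' sphere 0 1 := by
  ext z
  constructor
  · rintro ⟨t, rfl⟩
    exact ⟨_, by simp [Complex.norm_exp_ofReal_mul_I], rfl⟩
  · rintro ⟨X, hX, rfl⟩
    rw [mem_sphere, dist_zero_right] at hX
    refine ⟨Complex.arg X, ?_⟩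
    simp only
    congr 1
    have := Complex.norm_mul_exp_arg_mul_I X
    rwa [hX, Complex.ofReal_one, one_mul] at this

lemma loop_inj {f : ℂ → ℂ} (hf : InjOn f (sphere 0 1)) :
    InjOn (fun t : ℝ => f (exp (t * I))) (Ico 0 (2 * Real.pi)) := by
  intro s hs t ht h
  have h1 := hf (by rw [mem_sphere_zero_iff_norm, Complex.norm_exp_ofReal_mul_I])
    (by rw [mem_sphere_zero_iff_norm, Complex.norm_exp_ofReal_mul_I]) h
  rw [Complex.exp_eq_exp_iff_exists_int] at h1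
  obtain ⟨n, hn⟩ := h1
  have h2 : (s : ℂ) = t + n * (2 * Real.pi) := by
    have h3 : (s : ℂ) * Complex.I = (t + n * (2 * Real.pi)) * Complex.I := by
      rw [hn]; ring
    exact mul_right_cancel₀ Complex.I_ne_zero h3
  have h3 : s = t + n * (2 * Real.pi) := by exact_mod_cast h2
  have hpi := Real.pi_pos
  have h4 : (n : ℝ) < 1 := by
    by_contra hn1
    push Not at hn1
    have : (1 : ℝ) * (2 * Real.pi) ≤ n * (2 * Real.pi) := by gcongr
    linarith [hs.1, hs.2, ht.1, ht.2]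
  have h5 : (-1 : ℝ) < n := by
    by_contra hn1
    push Not at hn1
    have : (n : ℝ) * (2 * Real.pi) ≤ (-1) * (2 * Real.pi) := by gcongr
    linarith [hs.1, hs.2, ht.1, ht.2]
  have h6 : n = 0 := by
    have h7 : n < 1 := by exact_mod_cast h4
    have h8 : -1 < n := by exact_mod_cast h5
    omega
  rw [h6] at h3
  simpa using h3

theorem not_adm {f : ℂ → ℂ} (hc : ContinuousOn f (sphere 0 1)) (hi : InjOn f (sphere 0 1))
    {Ω S : Set ℂ} (hS : S = f '' sphere 0 1) (hΩ : S ⊆ Ω) :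
    ¬ ∃ (ι : Type) (c : ι → Arc Ω), Countable ι ∧ Admissible c ∧ (⋃ i, (c i).image) = S := by
  rintro ⟨ι, c, -, hadm, h⟩
  refine not_admissible_circle (loop_cont hc) (loop_per f) (loop_inj hi) ?_ c hadm ?_
  · rw [loop_range, ← hS]; exact hΩ
  · rw [loop_range, h, hS]

/-- the annulus is connected -/
lemma An_connected {σ : ℝ} (h0 : 0 < σ) (h1 : σ < 1) : IsConnected (An σ) := by
  have e : An σ = (fun p : ℝ × ℝ => (p.1 : ℂ) * Complex.exp (p.2 * Complex.I)) ''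
      (Ioo (√(1 - σ)) (√(1 + σ)) ×ˢ univ) := by
    ext X
    rw [mem_An]
    constructor
    · intro h
      have hX0 : X ≠ 0 := An_ne_zero h1.le h
      rw [abs_lt] at h
      refine ⟨(‖X‖, Complex.arg X), ⟨⟨?_, ?_⟩, mem_univ _⟩, Complex.norm_mul_exp_arg_mul_I X⟩
      · rw [Real.sqrt_lt' (norm_pos_iff.2 hX0)]
        linarith [h.1]
      · apply Real.lt_sqrt_of_sq_lt
        linarith [h.2]
    · rintro ⟨⟨r, t⟩, ⟨⟨h1, h2⟩, -⟩, rfl⟩
      have hr : 0 < r := (Real.sqrt_nonneg _).trans_lt h1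
      simp only at *
      rw [norm_mul, Complex.norm_exp_ofReal_mul_I, mul_one, Complex.norm_real,
        Real.norm_of_nonneg hr.le, abs_lt]
      rw [Real.sqrt_lt' hr] at h1
      rw [Real.lt_sqrt hr.le] at h2
      constructor <;> linarith
  rw [e]
  have h2 : IsConnected ((Ioo (√(1 - σ)) (√(1 + σ)) ×ˢ univ : Set (ℝ × ℝ))) := by
    apply IsConnected.prod
    · apply isConnected_Ioo
      apply Real.sqrt_lt_sqrt <;> linarith
    · exact isConnected_univ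
  apply h2.image
  apply Continuous.continuousOn
  fun_prop

lemma Om_bounded (D : Dat) : Bornology.IsBounded D.Om :=
  (D.cAn_compact.image_of_continuousOn (D.f_contOn.mono D.sub)).isBounded.subset
    (image_mono fun X hX => show |‖X‖ ^ 2 - 1| ≤ D.σ from le_of_lt (mem_An.1 hX))

lemma Om_connected (D : Dat) : IsConnected D.Om :=
  (An_connected D.σ0 D.σ1).image _ (D.f_contOn.mono D.An_sub)

lemma closure_disc (D : Dat) : D.Om ∩ closure (discSet D.Om D.u0) = D.Gam := by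
  rw [(Pool.Agent.Y31.LMS.sbv D).2.2.1, D.Gam_compact.isClosed.closure_eq]
  exact inter_eq_right.2 D.Gam_sub

lemma loopMin (D : Dat) (h : IsLocalMinimizer D.Om D.u0) : LoopMin (D.f '' sphere 0 1) D.Om D.u0 where
  isOpen := D.Om_open
  bounded := Om_bounded D
  connected := Om_connected D
  minimizer := h
  disc := closure_disc D
  bad := not_adm (D.f_contOn.mono (D.sphere_sub.trans D.An_sub))
    (D.inj.mono (D.sphere_sub.trans D.An_sub)) (closure_disc D) inter_subset_left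

end Out

/-- **critical implies minimal** -/
theorem crit {f P Q : ℂ → ℂ} (hf : JordanAn f) (h : CritPair f P Q) :
    ∃ A₀ : ℝ, ∀ A : ℝ, A₀ ≤ A → ∃ σ₁ : ℝ, 0 < σ₁ ∧ ∀ σ : ℝ, 0 < σ → σ ≤ σ₁ →
      InjOn f {X : ℂ | |‖X‖ ^ 2 - 1| < σ} ∧ ∃ u : ℂ → ℝ,
        LoopMin (f '' sphere 0 1) (f '' {X : ℂ | |‖X‖ ^ 2 - 1| < σ}) u ∧
        ∀ X : ℂ, |‖X‖ ^ 2 - 1| < σ →
          (1 < ‖X‖ → u (f X) = (P X).re - A) ∧ (‖X‖ < 1 → u (f X) = (Q X).re + A) := by
  obtain ⟨A₀, hA⟩ := Crit.crit0 Pool.Agent.Y31.LMS.sbv Pool.Agent.Y658.LM.t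
    Pool.Agent.Y884.LM.Sec.t Pool.Agent.Y884.LM.Nez.t hf.1 hf.2.2 hf.2.1 h.1 h.2.1 h.2.2.1
    h.2.2.2.1 h.2.2.2.2
  refine ⟨A₀, fun A hAA => ?_⟩
  obtain ⟨σ₁, s1, hs⟩ := hA A hAA
  refine ⟨σ₁, s1, fun σ h0 h1 => ?_⟩
  obtain ⟨D, rfl, rfl, hP, hQ, hm⟩ := hs σ h0 h1
  refine ⟨D.inj.mono D.An_sub, D.u0, Out.loopMin D hm, fun X hX => ⟨fun hX1 => ?_, fun hX1 => ?_⟩⟩
  · rw [D.u0_out hX hX1.le, hP]; simp
  · rw [D.u0_in hX hX1, hQ]; simp

/-- **curves with a critical pair are discontinuity sets in arbitrarily small neighbourhoods** -/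
theorem occurs {f P Q : ℂ → ℂ} (hf : JordanAn f) (h : CritPair f P Q) {U : Set ℂ} (hU : IsOpen U)
    (hsub : f '' sphere 0 1 ⊆ U) : ∃ (Ω : Set ℂ) (u : ℂ → ℝ), Ω ⊆ U ∧ LoopMin (f '' sphere 0 1) Ω u := by
  obtain ⟨A₀, hA⟩ := crit hf h
  obtain ⟨σ₁, s1, hs⟩ := hA A₀ le_rfl
  have h1 : IsOpen ({X | AnalyticAt ℂ f X} ∩ f ⁻¹' U) :=
    ContinuousOn.isOpen_inter_preimage (fun X hX => AnalyticAt.continuousAt hX |>.continuousWithinAt)
      (isOpen_analyticAt ℂ f) hU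
  obtain ⟨η, η0, -, hη⟩ := Crit.exists_An _ h1 (fun X hX =>
    ⟨hf.1 X (by simpa using hX), hsub ⟨X, hX, rfl⟩⟩)
  obtain ⟨-, u, hu, -⟩ := hs (min σ₁ η) (by positivity) (min_le_left _ _)
  refine ⟨_, u, ?_, hu⟩
  rintro _ ⟨X, hX, rfl⟩
  exact (hη (show |‖X‖ ^ 2 - 1| ≤ η from
    ((mem_An.1 hX).trans_le (min_le_right _ _)).le)).2

end Pool.Agent.Y195.LM
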