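import Pool.Agent.Y98.LM.PQ4
import Pool.Agent.Y195.LM.Stm2

/-!
# Critical pairs exist when the curvature satisfies the crossing condition
-/

set_option autoImplicit false

open MeasureTheory Set Filter Topology Metric Complex
open scoped ComplexConjugate Real

namespace Pool.Agent.Y195.LM.Pqg

open Pool.Agent.Y31.LM Pool.Agent.Y195.LM Pool.Agent.Y98.LM

noncomputable section

/-- a balancing weight -/
def Wgt (a c : ℝ → ℝ) : Prop := ∃ (W : ℂ → ℂ) (w : ℝ → ℝ),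
  (∀ X : ℂ, ‖X‖ = 1 → AnalyticAt ℂ W X) ∧ (∀ X : ℂ, ‖X‖ = 1 → W X ≠ 0) ∧
  (∀ θ : ℝ, W (exp (θ * I)) = (w θ : ℂ)) ∧
  ∫ θ in (0)..(2 * π), a θ * w θ = 0 ∧ ∫ θ in (0)..(2 * π), c θ / w θ = 0

theorem Wgt.swap {a c : ℝ → ℝ} (h : Wgt a c) : Wgt c a := by
  obtain ⟨W, w, h1, h2, h3, h4, h5⟩ := h
  refine ⟨fun X => (W X)⁻¹, fun θ => (w θ)⁻¹, fun X hX => (h1 X hX).inv (h2 X hX),
    fun X hX => inv_ne_zero (h2 X hX), fun θ => ?_, ?_, ?_⟩
  · show (W (exp (θ * I)))⁻¹ = (((w θ)⁻¹ : ℝ) : ℂ)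
    rw [h3, Complex.ofReal_inv]
  · simpa only [div_eq_mul_inv] using h5
  · simpa only [div_inv_eq_mul] using h4

theorem wgt_of_pattern (hWT : S_WT) {a c : ℝ → ℝ} (ha : Continuous a) (hc : Continuous c)
    (pa : ∀ θ, a (θ + 2 * π) = a θ) (pc : ∀ θ, c (θ + 2 * π) = c θ) {t₁ t₂ t₃ t₄ : ℝ}
    (h12 : t₁ < t₂) (h23 : t₂ < t₃) (h34 : t₃ < t₄) (h41 : t₄ < t₁ + 2 * π)
    (b4 : 0 < a t₄) (b2 : a t₂ < 0) (d1 : 0 < c t₁) (d3 : c t₃ < 0) : Wgt a c := by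
  obtain ⟨N, s₁, s₂, s₃, s₄, p1, p2, p3, p4, hw⟩ := hWT a c ha hc pa pc t₁ t₂ t₃ t₄
    h12 h23 h34 h41 b4 b2 d1 d3
  set w : ℝ → ℝ := fun θ =>
    (1 + s₄ * ((1 + Real.cos (θ - t₄)) / 2) ^ N + s₂ * ((1 + Real.cos (θ - t₂)) / 2) ^ N) /
    (1 + s₁ * ((1 + Real.cos (θ - t₁)) / 2) ^ N + s₃ * ((1 + Real.cos (θ - t₃)) / 2) ^ N) with hwdef
  have hw1 : ∫ θ in (0)..(2 * π), a θ * w θ = 0 := hw.1
  have hw2 : ∫ θ in (0)..(2 * π), c θ / w θ = 0 := hw.2
  have bp : ∀ x θ : ℝ, 0 ≤ ((1 + Real.cos (θ - x)) / 2) ^ N := fun x θ =>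
    pow_nonneg (by have := Real.neg_one_le_cos (θ - x); linarith) N
  have np : ∀ θ, 0 < 1 + s₄ * ((1 + Real.cos (θ - t₄)) / 2) ^ N +
      s₂ * ((1 + Real.cos (θ - t₂)) / 2) ^ N := fun θ => by
    have h1 := mul_nonneg p4 (bp t₄ θ)
    have h2 := mul_nonneg p2 (bp t₂ θ)
    linarith
  have dp : ∀ θ, 0 < 1 + s₁ * ((1 + Real.cos (θ - t₁)) / 2) ^ N +
      s₃ * ((1 + Real.cos (θ - t₃)) / 2) ^ N := fun θ => by
    have h1 := mul_nonneg p1 (bp t₁ θ)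
    have h2 := mul_nonneg p3 (bp t₃ θ)
    linarith
  set nu : ℂ → ℂ := fun X => 1 + s₄ * Bh N t₄ X + s₂ * Bh N t₂ X with hnu
  set de : ℂ → ℂ := fun X => 1 + s₁ * Bh N t₁ X + s₃ * Bh N t₃ X with hde
  have hden : ∀ θ : ℝ, de (exp (θ * I)) = ((1 + s₁ * ((1 + Real.cos (θ - t₁)) / 2) ^ N +
      s₃ * ((1 + Real.cos (θ - t₃)) / 2) ^ N : ℝ) : ℂ) := by
    intro θ
    show 1 + (s₁ : ℂ) * Bh N t₁ (exp (θ * I)) + s₃ * Bh N t₃ (exp (θ * I)) = _
    rw [Bh_on, Bh_on]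
    push_cast
    ring
  have hnum : ∀ θ : ℝ, nu (exp (θ * I)) = ((1 + s₄ * ((1 + Real.cos (θ - t₄)) / 2) ^ N +
      s₂ * ((1 + Real.cos (θ - t₂)) / 2) ^ N : ℝ) : ℂ) := by
    intro θ
    show 1 + (s₄ : ℂ) * Bh N t₄ (exp (θ * I)) + s₂ * Bh N t₂ (exp (θ * I)) = _
    rw [Bh_on, Bh_on]
    push_cast
    ring
  have hW : ∀ θ : ℝ, nu (exp (θ * I)) / de (exp (θ * I)) = (w θ : ℂ) := by
    intro θ
    rw [hnum, hden, ← Complex.ofReal_div]
  have hnu0 : ∀ X : ℂ, ‖X‖ = 1 → nu X ≠ 0 := by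
    intro X h
    obtain ⟨θ, rfl⟩ := ex_t h
    rw [hnum]
    exact_mod_cast (np θ).ne'
  have hde0 : ∀ X : ℂ, ‖X‖ = 1 → de X ≠ 0 := by
    intro X h
    obtain ⟨θ, rfl⟩ := ex_t h
    rw [hden]
    exact_mod_cast (dp θ).ne'
  have hnua : ∀ X : ℂ, ‖X‖ = 1 → AnalyticAt ℂ nu X := fun X h =>
    (analyticAt_const.add (analyticAt_const.mul (Bh_an N t₄ (Pool.Agent.Y31.LM.ne_zero h)))).add
      (analyticAt_const.mul (Bh_an N t₂ (Pool.Agent.Y31.LM.ne_zero h)))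
  have hdea : ∀ X : ℂ, ‖X‖ = 1 → AnalyticAt ℂ de X := fun X h =>
    (analyticAt_const.add (analyticAt_const.mul (Bh_an N t₁ (Pool.Agent.Y31.LM.ne_zero h)))).add
      (analyticAt_const.mul (Bh_an N t₃ (Pool.Agent.Y31.LM.ne_zero h)))
  exact ⟨fun X => nu X / de X, w, fun X h => (hnua X h).div (hdea X h) (hde0 X h),
    fun X h => div_ne_zero (hnu0 X h) (hde0 X h), hW, hw1, hw2⟩

/-- balancing weights for a function with two sign changes and a function taking both signs -/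
theorem wgt_cases (hWT : S_WT) {a c : ℝ → ℝ} (ha : Continuous a) (hc : Continuous c)
    (pa : ∀ θ, a (θ + 2 * π) = a θ) (pc : ∀ θ, c (θ + 2 * π) = c θ) {x y : ℝ} (hxy : x < y)
    (hyx : y < x + 2 * π) (an : ∀ t ∈ Ioo x y, a t < 0) (ap : ∀ t ∈ Ioo y (x + 2 * π), 0 < a t)
    {s r : ℝ} (hs : s ∈ Ioo x y ∨ s ∈ Ioo y (x + 2 * π)) (hr : r ∈ Ioo x y ∨ r ∈ Ioo y (x + 2 * π))
    (cs : 0 < c s) (cr : c r < 0) : Wgt a c := by
  have hsr : s ≠ r := by rintro rfl; exact lt_asymm cs cr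
  have hpi := Real.pi_pos
  rcases hs with hs | hs <;> rcases hr with hr | hr
  · rcases lt_or_gt_of_ne hsr with h | h
    · refine wgt_of_pattern hWT ha hc pa pc (t₁ := s) (t₂ := (s + r) / 2) (t₃ := r)
        (t₄ := (y + (x + 2 * π)) / 2) (by linarith) (by linarith) (by linarith [hr.2])
        (by linarith [hs.1]) (ap _ ⟨by linarith, by linarith⟩)
        (an _ ⟨by linarith [hs.1], by linarith [hr.2]⟩) cs cr
    · refine (wgt_of_pattern hWT hc ha pc pa (t₁ := (y + (x + 2 * π)) / 2 - 2 * π) (t₂ := r)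
        (t₃ := (s + r) / 2) (t₄ := s) (by linarith [hr.1]) (by linarith) (by linarith)
        (by linarith [hs.2]) cs cr ?_ (an _ ⟨by linarith [hr.1], by linarith [hs.2]⟩)).swap
      rw [← pa]
      exact ap _ ⟨by linarith, by linarith⟩
  · refine wgt_of_pattern hWT ha hc pa pc (t₁ := s) (t₂ := (s + y) / 2) (t₃ := r)
      (t₄ := (r + (x + 2 * π)) / 2) (by linarith [hs.2]) (by linarith [hs.2, hr.1])
      (by linarith [hr.2]) (by linarith [hs.1, hr.2])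
      (ap _ ⟨by linarith [hr.1], by linarith [hr.2]⟩)
      (an _ ⟨by linarith [hs.1, hs.2], by linarith [hs.2]⟩) cs cr
  · refine wgt_of_pattern hWT ha hc pa pc (t₁ := s) (t₂ := (x + r) / 2 + 2 * π) (t₃ := r + 2 * π)
      (t₄ := (y + s) / 2 + 2 * π) (by linarith [hs.2, hr.1]) (by linarith [hr.1])
      (by linarith [hr.2, hs.1]) (by linarith [hs.1]) ?_ ?_ cs ?_
    · rw [pa]; exact ap _ ⟨by linarith [hs.1], by linarith [hs.1, hs.2]⟩
    · rw [pa]; exact an _ ⟨by linarith [hr.1], by linarith [hr.1, hr.2]⟩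
    · rw [pc]; exact cr
  · rcases lt_or_gt_of_ne hsr with h | h
    · refine (wgt_of_pattern hWT hc ha pc pa (t₁ := (s + r) / 2) (t₂ := r)
        (t₃ := (x + y) / 2 + 2 * π) (t₄ := s + 2 * π) (by linarith) (by linarith [hr.2])
        (by linarith [hs.1]) (by linarith) ?_ cr (ap _ ⟨by linarith [hs.1], by linarith [hr.2]⟩)
        ?_).swap
      · rw [pc]; exact cs
      · rw [pa]; exact an _ ⟨by linarith, by linarith⟩
    · refine wgt_of_pattern hWT ha hc pa pc (t₁ := s) (t₂ := (x + y) / 2 + 2 * π)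
        (t₃ := r + 2 * π) (t₄ := (r + s) / 2 + 2 * π) (by linarith [hs.2]) (by linarith [hr.1])
        (by linarith) (by linarith) ?_ ?_ cs ?_
      · rw [pa]; exact ap _ ⟨by linarith [hr.1], by linarith [hs.2]⟩
      · rw [pa]; exact an _ ⟨by linarith, by linarith⟩
      · rw [pc]; exact cr

theorem pqg (hWT : S_WT) : S_PQG := by
  rintro f hf hf0 ⟨θ₁, θ₃, h13, h31, hz1', hz3', n1, n2⟩
  have hpi := Real.pi_pos
  set U : Set ℂ := {X | AnalyticAt ℂ (Kh f) X} with hUdef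
  have hU : IsOpen U := isOpen_analyticAt ℂ (Kh f)
  have hsub : sphere (0 : ℂ) 1 ⊆ U := fun X hX =>
    Kh_analytic hf hf0 (mem_sphere_zero_iff_norm.1 hX)
  have hKd : DifferentiableOn ℂ (Kh f) U := fun X hX =>
    (AnalyticAt.differentiableAt hX).differentiableWithinAt
  -- the curvature as a function of the angle
  set K : ℝ → ℝ := fun θ => Kc f (exp (θ * I)) with hKdef
  have hKcv : ∀ θ, K θ = ‖deriv f (exp (θ * I))‖ * cv f θ := fun θ => rfl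
  have hdpos : ∀ θ : ℝ, 0 < ‖deriv f (exp (θ * I))‖ := fun θ =>
    norm_pos_iff.2 (hf0 _ (norm_e θ))
  have hz1 : K θ₁ = 0 := by rw [hKcv, hz1', mul_zero]
  have hz3 : K θ₃ = 0 := by rw [hKcv, hz3', mul_zero]
  set X1 : ℂ := exp (θ₁ * I) with hX1
  set X3 : ℂ := exp (θ₃ * I) with hX3
  have hU1 : U ∈ 𝓝 X1 := hU.mem_nhds (hsub (mem_sphere_zero_iff_norm.2 (norm_e θ₁)))
  have hU3 : U ∈ 𝓝 X3 := hU.mem_nhds (hsub (mem_sphere_zero_iff_norm.2 (norm_e θ₃)))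
  set D1 := dslope (Kh f) X1 with hD1
  set D2 := dslope D1 X3 with hD2
  have hD1d : DifferentiableOn ℂ D1 U := (Complex.differentiableOn_dslope hU1).2 hKd
  have hD2d : DifferentiableOn ℂ D2 U := (Complex.differentiableOn_dslope hU3).2 hD1d
  have z1 : Kh f X1 = 0 := by
    rw [Kh_on hf hf0 (norm_e θ₁)]
    exact_mod_cast hz1
  have z2 : Kh f X3 = 0 := by
    rw [Kh_on hf hf0 (norm_e θ₃)]
    exact_mod_cast hz3
  have hne : X3 - X1 ≠ 0 := by
    intro h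
    have h1 : X3 = X1 := sub_eq_zero.1 h
    rw [hX1, hX3, Complex.exp_eq_exp_iff_exists_int] at h1
    obtain ⟨n, hn⟩ := h1
    have h2 : θ₃ = θ₁ + n * (2 * π) := by
      have h3 : (θ₃ : ℂ) * I = (((θ₁ + n * (2 * π) : ℝ)) : ℂ) * I := by
        rw [hn]
        push_cast
        ring
      exact_mod_cast mul_right_cancel₀ Complex.I_ne_zero h3
    have h3 : (0 : ℝ) < n * (2 * π) := by linarith
    have h4 : (n : ℝ) * (2 * π) < 1 * (2 * π) := by linarith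
    have h5 : (0 : ℝ) < n := by
      by_contra h6
      have : (n : ℝ) * (2 * π) ≤ 0 := mul_nonpos_of_nonpos_of_nonneg (not_lt.1 h6) (by positivity)
      linarith
    have h6 : (n : ℝ) < 1 := lt_of_mul_lt_mul_right h4 (by positivity)
    have h7 : (0 : ℤ) < n := by exact_mod_cast h5
    have h8 : n < (1 : ℤ) := by exact_mod_cast h6
    omega
  have id1 : ∀ X, (X - X1) * D1 X = Kh f X := by
    intro X
    have h := sub_smul_dslope (Kh f) X1 X
    rw [smul_eq_mul, z1, sub_zero] at h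
    exact h
  have z3 : D1 X3 = 0 := by
    have h := id1 X3
    rw [z2] at h
    exact (mul_eq_zero.1 h).resolve_left hne
  have id2 : ∀ X, (X - X1) * (X - X3) * D2 X = Kh f X := by
    intro X
    have h := sub_smul_dslope D1 X3 X
    rw [smul_eq_mul, z3, sub_zero] at h
    rw [← id1 X, ← h]
    ring
  set e : ℂ := exp ((((θ₁ + θ₃) / 2 : ℝ) : ℂ) * I) with he
  have he0 : e ≠ 0 := Complex.exp_ne_zero _
  set c0 : ℂ → ℂ := fun X => -(4 * e * X) * D2 X with hc0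
  have hc0d : DifferentiableOn ℂ c0 U := by
    refine DifferentiableOn.mul ?_ hD2d
    exact ((differentiableOn_const _).mul differentiableOn_id).neg
  have hsc : ∀ X : ℂ, X ≠ 0 → sh2 θ₁ θ₃ X * c0 X = Kh f X := by
    intro X hX
    rw [← id2 X, sh2, hc0]
    show -((X - X1) * (X - X3)) / (4 * e * X) * (-(4 * e * X) * D2 X) = _
    field_simp
  set a0 : ℝ → ℝ := fun θ => Real.sin ((θ - θ₁) / 2) * Real.sin ((θ - θ₃) / 2) with ha0
  have hsa : ∀ θ : ℝ, sh2 θ₁ θ₃ (exp (θ * I)) = (a0 θ : ℂ) := fun θ => sh2_on θ₁ θ₃ θ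
  have hC : ∀ θ : ℝ, (a0 θ : ℂ) * c0 (exp (θ * I)) = (K θ : ℂ) := by
    intro θ
    rw [← hsa, hsc _ (Complex.exp_ne_zero _), Kh_on hf hf0 (norm_e θ)]
  have hCc : Continuous fun θ : ℝ => c0 (exp (θ * I)) := by
    refine hc0d.continuousOn.comp_continuous (by fun_prop) fun t => ?_
    exact hsub (mem_sphere_zero_iff_norm.2 (norm_e t))
  have him : ∀ θ : ℝ, (c0 (exp (θ * I))).im = 0 := by
    have h1 : (fun t : ℝ => (c0 (exp (t * I))).im) = fun _ => 0 := by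
      refine Continuous.ext_on (dense_sin2 θ₁ θ₃) (Complex.continuous_im.comp hCc)
        continuous_const ?_
      intro t ht
      have h2 := congrArg Complex.im (hC t)
      rw [Complex.im_ofReal_mul, Complex.ofReal_im] at h2
      exact (mul_eq_zero.1 h2).resolve_left ht
    exact fun t => congrFun h1 t
  set C : ℝ → ℝ := fun θ => (c0 (exp (θ * I))).re with hCdef
  have hCC : ∀ θ : ℝ, c0 (exp (θ * I)) = (C θ : ℂ) := by
    intro θ
    apply Complex.ext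
    · rw [Complex.ofReal_re]
    · rw [Complex.ofReal_im, him θ]
  have hCK : ∀ θ, a0 θ * C θ = K θ := by
    intro θ
    have h1 := hC θ
    rw [hCC] at h1
    exact_mod_cast h1
  have hexp : ∀ θ : ℝ, exp (((θ + 2 * π : ℝ) : ℂ) * I) = exp (θ * I) := by
    intro θ
    push_cast
    rw [add_mul, Complex.exp_add, Complex.exp_two_pi_mul_I, mul_one]
  -- signs
  have sp : ∀ x : ℝ, 0 < x → x < 2 * π → 0 < Real.sin (x / 2) := fun x h0 h1 =>
    Real.sin_pos_of_pos_of_lt_pi (by linarith) (by linarith)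
  have sn : ∀ x : ℝ, x < 0 → -(2 * π) < x → Real.sin (x / 2) < 0 := fun x h0 h1 =>
    Real.sin_neg_of_neg_of_neg_pi_lt (by linarith) (by linarith)
  have an : ∀ t ∈ Ioo θ₁ θ₃, a0 t < 0 := fun t ht =>
    mul_neg_of_pos_of_neg (sp _ (by linarith [ht.1]) (by linarith [ht.2]))
      (sn _ (by linarith [ht.2]) (by linarith [ht.1]))
  have ap : ∀ t ∈ Ioo θ₃ (θ₁ + 2 * π), 0 < a0 t := fun t ht =>
    mul_pos (sp _ (by linarith [ht.1]) (by linarith [ht.2]))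
      (sp _ (by linarith [ht.1]) (by linarith [ht.2]))
  have pera : ∀ θ, a0 (θ + 2 * π) = a0 θ := fun θ => by
    have h1 : (a0 (θ + 2 * π) : ℂ) = (a0 θ : ℂ) := by rw [← hsa, ← hsa, hexp]
    exact_mod_cast h1
  have perC : ∀ θ, C (θ + 2 * π) = C θ := fun θ => by
    show (c0 (exp (((θ + 2 * π : ℝ) : ℂ) * I))).re = _
    rw [hexp]
  have hz1p : cv f (θ₁ + 2 * π) = 0 := by
    have h : cv f (θ₁ + 2 * π) = cv f θ₁ := by unfold cv; rw [hexp]
    rw [h, hz1']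
  -- the sign of `C` from the sign of the curvature
  have key : ∀ t, cv f t ≠ 0 → (t ∈ Icc θ₁ θ₃ → t ∈ Ioo θ₁ θ₃) ∧
      (t ∈ Icc θ₃ (θ₁ + 2 * π) → t ∈ Ioo θ₃ (θ₁ + 2 * π)) := by
    intro t ht
    have e1 : t ≠ θ₁ := by rintro rfl; exact ht hz1'
    have e2 : t ≠ θ₃ := by rintro rfl; exact ht hz3'
    have e3 : t ≠ θ₁ + 2 * π := by rintro rfl; exact ht hz1p
    exact ⟨fun h => ⟨lt_of_le_of_ne h.1 e1.symm, lt_of_le_of_ne h.2 e2⟩,
      fun h => ⟨lt_of_le_of_ne h.1 e2.symm, lt_of_le_of_ne h.2 e3⟩⟩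
  have sgn1 : ∀ t, 0 < cv f t → t ∈ Ioo θ₁ θ₃ → C t < 0 := by
    intro t ht hm
    have h1 : 0 < a0 t * C t := by rw [hCK, hKcv]; exact mul_pos (hdpos t) ht
    have h2 := an t hm
    by_contra h3
    have := mul_nonpos_of_nonpos_of_nonneg h2.le (not_lt.1 h3)
    linarith
  have sgn2 : ∀ t, cv f t < 0 → t ∈ Ioo θ₁ θ₃ → 0 < C t := by
    intro t ht hm
    have h1 : a0 t * C t < 0 := by rw [hCK, hKcv]; exact mul_neg_of_pos_of_neg (hdpos t) ht
    have h2 := an t hm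
    by_contra h3
    have := mul_nonneg_of_nonpos_of_nonpos h2.le (not_lt.1 h3)
    linarith
  have sgn3 : ∀ t, 0 < cv f t → t ∈ Ioo θ₃ (θ₁ + 2 * π) → 0 < C t := by
    intro t ht hm
    have h1 : 0 < a0 t * C t := by rw [hCK, hKcv]; exact mul_pos (hdpos t) ht
    have h2 := ap t hm
    by_contra h3
    have := mul_nonpos_of_nonneg_of_nonpos h2.le (not_lt.1 h3)
    linarith
  have sgn4 : ∀ t, cv f t < 0 → t ∈ Ioo θ₃ (θ₁ + 2 * π) → C t < 0 := by
    intro t ht hm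
    have h1 : a0 t * C t < 0 := by rw [hCK, hKcv]; exact mul_neg_of_pos_of_neg (hdpos t) ht
    have h2 := ap t hm
    by_contra h3
    have := mul_nonneg h2.le (not_lt.1 h3)
    linarith
  obtain ⟨s, hs, cs⟩ : ∃ s, (s ∈ Ioo θ₁ θ₃ ∨ s ∈ Ioo θ₃ (θ₁ + 2 * π)) ∧ 0 < C s := by
    by_contra hcon
    push Not at hcon
    apply n1
    constructor
    · intro t ht
      by_contra h
      rw [not_le] at h
      have h1 := (key t h.ne).1 ht
      exact absurd (sgn2 t h h1) (not_lt.2 (hcon t (Or.inl h1)))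
    · intro t ht
      by_contra h
      rw [not_le] at h
      have h1 := (key t h.ne').2 ht
      exact absurd (sgn3 t h h1) (not_lt.2 (hcon t (Or.inr h1)))
  obtain ⟨r, hr, cr⟩ : ∃ r, (r ∈ Ioo θ₁ θ₃ ∨ r ∈ Ioo θ₃ (θ₁ + 2 * π)) ∧ C r < 0 := by
    by_contra hcon
    push Not at hcon
    apply n2
    constructor
    · intro t ht
      by_contra h
      rw [not_le] at h
      have h1 := (key t h.ne').1 ht
      exact absurd (sgn1 t h h1) (not_lt.2 (hcon t (Or.inl h1)))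
    · intro t ht
      by_contra h
      rw [not_le] at h
      have h1 := (key t h.ne).2 ht
      exact absurd (sgn4 t h h1) (not_lt.2 (hcon t (Or.inr h1)))
  obtain ⟨W, w, hWa, hW0, hWw, hw1, hw2⟩ : Wgt a0 C :=
    wgt_cases hWT (by fun_prop : Continuous a0)
      (Complex.continuous_re.comp hCc : Continuous C) pera perC h13 h31 an ap hs hr cs cr
  have hc0a : ∀ X : ℂ, ‖X‖ = 1 → AnalyticAt ℂ c0 X := fun X h =>
    hc0d.analyticAt (hU.mem_nhds (hsub (mem_sphere_zero_iff_norm.2 h)))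
  have eA : ∀ θ : ℝ, sh2 θ₁ θ₃ (exp (θ * I)) * W (exp (θ * I)) = ((a0 θ * w θ : ℝ) : ℂ) := by
    intro θ
    rw [hsa, hWw, ← Complex.ofReal_mul]
  have eC : ∀ θ : ℝ, c0 (exp (θ * I)) / W (exp (θ * I)) = ((C θ / w θ : ℝ) : ℂ) := by
    intro θ
    rw [hCC, hWw]
    exact (Complex.ofReal_div (C θ) (w θ)).symm
  refine of_fact f (fun X => sh2 θ₁ θ₃ X * W X) (fun X => c0 X / W X)
    (fun X h => (sh2_an θ₁ θ₃ (Pool.Agent.Y31.LM.ne_zero h)).mul (hWa X h))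
    (fun X h => (hc0a X h).div (hWa X h) (hW0 X h)) ?_ ?_ ?_ ?_ ?_
  · intro X h
    obtain ⟨θ, rfl⟩ := ex_t h
    show (sh2 θ₁ θ₃ (exp (θ * I)) * W (exp (θ * I))).im = 0
    rw [eA, Complex.ofReal_im]
  · intro X h
    obtain ⟨θ, rfl⟩ := ex_t h
    show (c0 (exp (θ * I)) / W (exp (θ * I))).im = 0
    rw [eC, Complex.ofReal_im]
  · have h1 : (fun θ : ℝ => sh2 θ₁ θ₃ (exp (θ * I)) * W (exp (θ * I))) =
        fun θ : ℝ => ((a0 θ * w θ : ℝ) : ℂ) := funext eA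
    show ∫ θ in (0 : ℝ)..(2 * π), (fun θ : ℝ => sh2 θ₁ θ₃ (exp (θ * I)) * W (exp (θ * I))) θ = 0
    rw [h1, intervalIntegral.integral_ofReal, hw1, Complex.ofReal_zero]
  · have h1 : (fun θ : ℝ => c0 (exp (θ * I)) / W (exp (θ * I))) =
        fun θ : ℝ => ((C θ / w θ : ℝ) : ℂ) := funext eC
    show ∫ θ in (0 : ℝ)..(2 * π), (fun θ : ℝ => c0 (exp (θ * I)) / W (exp (θ * I))) θ = 0
    rw [h1, intervalIntegral.integral_ofReal, hw2, Complex.ofReal_zero]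
  · intro X h
    show sh2 θ₁ θ₃ X * W X * (c0 X / W X) = _
    have h1 : W X ≠ 0 := hW0 X h
    rw [← Kh_on hf hf0 h, ← hsc X (Pool.Agent.Y31.LM.ne_zero h)]
    generalize W X = q at h1 ⊢
    field_simp

end

end Pool.Agent.Y195.LM.Pqg
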