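import Pool.Agent.TH416.J1306

/-!
# Profile functions of the calibration, width `h`
-/

set_option autoImplicit false

open Set Filter Topology

namespace Pool.Agent.Y195.LM

open Pool.Agent.TH605.MS.J1306 (proj_deriv contDiff_of)

/-- projection of `τ/h` to `[-1,1]` -/
noncomputable def cL (h τ : ℝ) : ℝ := max (-1) (min 1 (τ / h))

/-- `x - 2x³/3 + x⁵/5` -/
noncomputable def ph (x : ℝ) : ℝ := x - 2 / 3 * x ^ 3 + 1 / 5 * x ^ 5

/-- `a(τ) = (1 - x²)²` -/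
noncomputable def aL (h τ : ℝ) : ℝ := (1 - cL h τ ^ 2) ^ 2

/-- `b(τ) = (h/2) x (1 - x²)²` -/
noncomputable def bL (h τ : ℝ) : ℝ := h / 2 * cL h τ * (1 - cL h τ ^ 2) ^ 2

/-- primitive of `a` -/
noncomputable def AL (h τ : ℝ) : ℝ := h * (8 / 15 + ph (cL h τ))

/-- primitive of `b` -/
noncomputable def BL (h τ : ℝ) : ℝ := -(h ^ 2 / 12 * (1 - cL h τ ^ 2) ^ 3)

/-- projection of `t + 1/2` to `[0,1]` -/
noncomputable def yL (t : ℝ) : ℝ := max 0 (min 1 (t + 1 / 2))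

/-- the transition from `0` for `t ≤ -1/2` to `1` for `t ≥ 1/2` -/
noncomputable def kL (t : ℝ) : ℝ := 3 * yL t ^ 2 - 2 * yL t ^ 3

/-- its derivative -/
noncomputable def kL' (t : ℝ) : ℝ := 6 * yL t * (1 - yL t)

lemma cL_abs (h τ : ℝ) : |cL h τ| ≤ 1 := by
  unfold cL
  rw [abs_le]
  exact ⟨le_max_left _ _, max_le (by norm_num) (min_le_left _ _)⟩

lemma cL_bot {h τ : ℝ} (hh : 0 < h) (h1 : τ ≤ -h) : cL h τ = -1 := by
  unfold cL
  apply max_eq_left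
  refine (min_le_right _ _).trans ?_
  rw [div_le_iff₀ hh]
  linarith

lemma cL_top {h τ : ℝ} (hh : 0 < h) (h1 : h ≤ τ) : cL h τ = 1 := by
  unfold cL
  rw [min_eq_left ((one_le_div hh).2 h1), max_eq_right (by norm_num)]

lemma cL_zero (h : ℝ) : cL h 0 = 0 := by unfold cL; simp

lemma ph_one : ph 1 = 8 / 15 := by unfold ph; norm_num

lemma ph_neg_one : ph (-1) = -(8 / 15) := by unfold ph; norm_num

lemma ph_zero : ph 0 = 0 := by unfold ph; norm_num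

lemma ph_abs {x : ℝ} (hx : |x| ≤ 1) : |ph x| ≤ |x| := by
  have e : ph x = x * (1 - 2 / 3 * x ^ 2 + 1 / 5 * x ^ 4) := by unfold ph; ring
  have h1 : x ^ 2 ≤ 1 := by
    rw [← sq_abs]; nlinarith [abs_nonneg x]
  have h2 : 0 ≤ x ^ 2 := sq_nonneg x
  have e4 : x ^ 4 = (x ^ 2) ^ 2 := by ring
  rw [e, abs_mul, e4]
  have h3 : |1 - 2 / 3 * x ^ 2 + 1 / 5 * (x ^ 2) ^ 2| ≤ 1 := by
    rw [abs_le]
    constructor <;> nlinarith
  calc |x| * |1 - 2 / 3 * x ^ 2 + 1 / 5 * (x ^ 2) ^ 2| ≤ |x| * 1 :=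
        mul_le_mul_of_nonneg_left h3 (abs_nonneg x)
    _ = |x| := mul_one _

lemma yL_mem (t : ℝ) : 0 ≤ yL t ∧ yL t ≤ 1 := by
  unfold yL
  exact ⟨le_max_left _ _, max_le (by norm_num) (min_le_left _ _)⟩

lemma yL_bot {t : ℝ} (h : t ≤ -(1 / 2)) : yL t = 0 := by
  unfold yL
  apply max_eq_left
  exact (min_le_right _ _).trans (by linarith)

lemma yL_top {t : ℝ} (h : 1 / 2 ≤ t) : yL t = 1 := by
  unfold yL
  rw [min_eq_left (by linarith), max_eq_right (by norm_num)]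

lemma kL_bot {t : ℝ} (h : t ≤ -(1 / 2)) : kL t = 0 := by
  unfold kL; rw [yL_bot h]; norm_num

lemma kL_top {t : ℝ} (h : 1 / 2 ≤ t) : kL t = 1 := by
  unfold kL; rw [yL_top h]; norm_num

lemma kL'_bot {t : ℝ} (h : t ≤ -(1 / 2)) : kL' t = 0 := by
  unfold kL'; rw [yL_bot h]; norm_num

lemma kL'_top {t : ℝ} (h : 1 / 2 ≤ t) : kL' t = 0 := by
  unfold kL'; rw [yL_top h]; norm_num

lemma kL_mem (t : ℝ) : 0 ≤ kL t ∧ kL t ≤ 1 := by
  obtain ⟨h0, h1⟩ := yL_mem t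
  unfold kL
  set y := yL t
  constructor
  · have : 3 * y ^ 2 - 2 * y ^ 3 = y ^ 2 * (3 - 2 * y) := by ring
    rw [this]
    exact mul_nonneg (sq_nonneg _) (by linarith)
  · have : 1 - (3 * y ^ 2 - 2 * y ^ 3) = (1 - y) ^ 2 * (1 + 2 * y) := by ring
    have h2 : 0 ≤ (1 - y) ^ 2 * (1 + 2 * y) := mul_nonneg (sq_nonneg _) (by linarith)
    linarith

lemma kL'_abs (t : ℝ) : kL' t ^ 2 ≤ 4 := by
  obtain ⟨h0, h1⟩ := yL_mem t
  unfold kL'
  set y := yL t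
  have h2 : 0 ≤ 6 * y * (1 - y) := by
    apply mul_nonneg <;> linarith
  have h3 : 6 * y * (1 - y) ≤ 2 := by nlinarith [sq_nonneg (y - 1 / 2)]
  nlinarith

lemma AL_bot {h τ : ℝ} (hh : 0 < h) (h1 : τ ≤ -h) : AL h τ = 0 := by
  unfold AL; rw [cL_bot hh h1, ph_neg_one]; ring

lemma AL_top {h τ : ℝ} (hh : 0 < h) (h1 : h ≤ τ) : AL h τ = 16 / 15 * h := by
  unfold AL; rw [cL_top hh h1, ph_one]; ring

lemma AL_zero (h : ℝ) : AL h 0 = 8 / 15 * h := by
  unfold AL; rw [cL_zero, ph_zero]; ring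

lemma BL_bot {h τ : ℝ} (hh : 0 < h) (h1 : τ ≤ -h) : BL h τ = 0 := by
  unfold BL; rw [cL_bot hh h1]; ring

lemma BL_top {h τ : ℝ} (hh : 0 < h) (h1 : h ≤ τ) : BL h τ = 0 := by
  unfold BL; rw [cL_top hh h1]; ring

lemma BL_zero (h : ℝ) : BL h 0 = -(h ^ 2 / 12) := by
  unfold BL; rw [cL_zero]; ring

lemma aL_bot {h τ : ℝ} (hh : 0 < h) (h1 : τ ≤ -h) : aL h τ = 0 := by
  unfold aL; rw [cL_bot hh h1]; ring

lemma aL_top {h τ : ℝ} (hh : 0 < h) (h1 : h ≤ τ) : aL h τ = 0 := by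
  unfold aL; rw [cL_top hh h1]; ring

lemma aL_zero (h : ℝ) : aL h 0 = 1 := by
  unfold aL; rw [cL_zero]; ring

lemma bL_bot {h τ : ℝ} (hh : 0 < h) (h1 : τ ≤ -h) : bL h τ = 0 := by
  unfold bL; rw [cL_bot hh h1]; ring

lemma bL_top {h τ : ℝ} (hh : 0 < h) (h1 : h ≤ τ) : bL h τ = 0 := by
  unfold bL; rw [cL_top hh h1]; ring

lemma bL_zero (h : ℝ) : bL h 0 = 0 := by
  unfold bL; rw [cL_zero]; ring

lemma cL_deriv {h : ℝ} {P P' : ℝ → ℝ} (hP : ∀ x, HasDerivAt P (P' x) x)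
    (ha : P' (-1) = 0) (hb : P' 1 = 0) (τ : ℝ) :
    HasDerivAt (fun τ => P (cL h τ)) (P' (cL h τ) * h⁻¹) τ := by
  have h1 := proj_deriv (a := -1) (b := 1) (by norm_num) hP ha hb (τ / h)
  have h2 : HasDerivAt (fun τ : ℝ => τ / h) (h⁻¹) τ := by
    simpa [div_eq_mul_inv] using (hasDerivAt_id τ).div_const h
  have h3 := h1.comp τ h2
  exact h3

lemma AL_deriv {h : ℝ} (hh : 0 < h) (τ : ℝ) : HasDerivAt (AL h) (aL h τ) τ := by
  have h0 := cL_deriv (h := h) (P := fun x => h * (8 / 15 + ph x))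
    (P' := fun x => h * (1 - x ^ 2) ^ 2) (fun x => by
      have h3 : HasDerivAt (fun x : ℝ => x ^ 3) (3 * x ^ 2) x := by
        simpa using hasDerivAt_pow 3 x
      have h5 : HasDerivAt (fun x : ℝ => x ^ 5) (5 * x ^ 4) x := by
        simpa using hasDerivAt_pow 5 x
      have h1 : HasDerivAt (fun x : ℝ => h * (8 / 15 + ph x))
        (h * (1 - 2 / 3 * (3 * x ^ 2) + 1 / 5 * (5 * x ^ 4))) x := by
        unfold ph
        exact ((((hasDerivAt_id x).sub (h3.const_mul (2/3))).add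
          (h5.const_mul (1/5))).const_add (8 / 15)).const_mul h
      have e : h * (1 - x ^ 2) ^ 2 =
        h * (1 - 2 / 3 * (3 * x ^ 2) + 1 / 5 * (5 * x ^ 4)) := by ring
      simp only [e]
      exact h1) (by norm_num) (by norm_num) τ
  have e : aL h τ = h * (1 - cL h τ ^ 2) ^ 2 * h⁻¹ := by
    unfold aL; field_simp
  rw [e]
  exact h0

lemma BL_deriv {h : ℝ} (hh : 0 < h) (τ : ℝ) : HasDerivAt (BL h) (bL h τ) τ := by
  have h0 := cL_deriv (h := h) (P := fun x => -(h ^ 2 / 12 * (1 - x ^ 2) ^ 3))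
    (P' := fun x => h ^ 2 / 2 * x * (1 - x ^ 2) ^ 2) (fun x => by
      have h2 : HasDerivAt (fun x : ℝ => x ^ 2) (2 * x) x := by
        simpa using hasDerivAt_pow 2 x
      have h1 := (((h2.const_sub 1).pow 3).const_mul (h ^ 2 / 12)).neg
      have e : h ^ 2 / 2 * x * (1 - x ^ 2) ^ 2 =
        -(h ^ 2 / 12 * ((3:ℕ) * (1 - x ^ 2) ^ (3 - 1) * (-(2 * x)))) := by
        norm_num
        ring
      simp only [e]
      exact h1) (by norm_num) (by norm_num) τ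
  have e : bL h τ = h ^ 2 / 2 * cL h τ * (1 - cL h τ ^ 2) ^ 2 * h⁻¹ := by
    unfold bL; field_simp
  rw [e]
  exact h0

lemma kL_deriv (t : ℝ) : HasDerivAt kL (kL' t) t := by
  have h1 := proj_deriv (P := fun x => 3 * x ^ 2 - 2 * x ^ 3) (P' := fun x => 6 * x * (1 - x))
    (a := 0) (b := 1) (by norm_num) (fun x => by
      have h2 : HasDerivAt (fun x : ℝ => x ^ 2) (2 * x) x := by
        simpa using hasDerivAt_pow 2 x
      have h3 : HasDerivAt (fun x : ℝ => x ^ 3) (3 * x ^ 2) x := by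
        simpa using hasDerivAt_pow 3 x
      have h4 := (h2.const_mul 3).sub (h3.const_mul 2)
      have e : 6 * x * (1 - x) = 3 * (2 * x) - 2 * (3 * x ^ 2) := by ring
      rw [e]
      exact h4) (by norm_num) (by norm_num) (t + 1 / 2)
  have h2 : HasDerivAt (fun t : ℝ => t + 1 / 2) 1 t := (hasDerivAt_id t).add_const (1 / 2)
  have h3 := h1.comp t h2
  rw [mul_one] at h3
  exact h3

lemma cL_cont (h : ℝ) : Continuous (cL h) := by unfold cL; fun_prop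

lemma yL_cont : Continuous yL := by unfold yL; fun_prop

lemma AL_contDiff {h : ℝ} (hh : 0 < h) : ContDiff ℝ 1 (AL h) := contDiff_of (AL_deriv hh) (by
  have := cL_cont h
  unfold aL
  fun_prop)

lemma BL_contDiff {h : ℝ} (hh : 0 < h) : ContDiff ℝ 1 (BL h) := contDiff_of (BL_deriv hh) (by
  have := cL_cont h
  unfold bL
  fun_prop)

lemma kL_contDiff : ContDiff ℝ 1 kL := contDiff_of kL_deriv (by
  have := yL_cont
  unfold kL'
  fun_prop)

end Pool.Agent.Y195.LM
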