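import Pool.Agent.Y195.LM.StripB
import Pool.Agent.Y195.LM.Stm

/-!
# Existence of the calibration in a thin strip
-/

set_option autoImplicit false

open Set Filter Topology Complex
open scoped ComplexConjugate Real

namespace Pool.Agent.Y195.LM

open Pool.Agent.TH605.MS (divx dt)

/-- calibration in the strip of half-width `σ` -/
structure Cal (q p p1 m m1 : ℂ → ℂ) (σ T : ℝ) (H : ℂ × ℝ → ℂ) (om : ℂ → ℝ) : Prop where
  cd : ContDiffOn ℝ 1 H (Strip σ ×ˢ univ)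
  per : ∀ (w : ℂ) (t : ℝ), H (w + 2 * π * I, t) = H (w, t)
  i1 : ∀ w ∈ Strip σ, ∀ t, divx H (w, t) + ‖dt H (w, t)‖ ^ 2 / 4 ≤ om w
  i2 : ∀ w ∈ Strip σ, ∀ s t, ‖H (w, t) - H (w, s)‖ ≤ ‖q w‖
  e1 : ∀ w ∈ Strip σ, 0 < w.re → divx H (w, (p w).re)
    + inner ℝ (dt H (w, (p w).re)) (conj (p1 w)) = om w + ‖p1 w‖ ^ 2
  e2 : ∀ w ∈ Strip σ, w.re < 0 → divx H (w, (m w).re)
    + inner ℝ (dt H (w, (m w).re)) (conj (m1 w)) = om w + ‖m1 w‖ ^ 2
  j : ∀ w : ℂ, w.re = 0 → H (w, (p w).re) - H (w, (m w).re) = (‖q w‖ : ℂ)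
  ab : ∀ w ∈ Strip σ, ∀ t, T ≤ t → H (w, t) = H (w, T)
  be : ∀ w ∈ Strip σ, ∀ t, t ≤ -T → H (w, t) = H (w, -T)

lemma cont_axis {φ : ℂ → ℂ} {a : ℝ} (ha : 0 < a) (hc : ContinuousOn φ (Strip a)) :
    Continuous fun θ : ℝ => φ (θ * I) :=
  hc.comp_continuous (by fun_prop) (axis_mem ha)

lemma cd_axis {φ : ℂ → ℂ} {a : ℝ} (ha : 0 < a) (hc : ContDiffOn ℝ 1 φ (Strip a)) :
    ContDiff ℝ 1 fun θ : ℝ => φ (θ * I) := by
  rw [← contDiffOn_univ]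
  refine hc.comp (s := univ) (t := Strip a) ?_ (fun θ _ => axis_mem ha θ)
  exact ((Complex.ofRealCLM.contDiff).mul contDiff_const).contDiffOn

lemma per_axis {φ : ℂ → ℂ} (h : ∀ w, φ (w + 2 * π * I) = φ w) (θ : ℝ) :
    φ (((θ + 2 * π : ℝ) : ℂ) * I) = φ (θ * I) := by
  have e : (((θ + 2 * π : ℝ) : ℂ) * I) = θ * I + 2 * π * I := by push_cast; ring
  rw [e, h]

lemma aux_sq_le {x : ℝ} (hx : |x| ≤ 1) : x ^ 2 ≤ |x| := by
  rw [← sq_abs]; nlinarith [abs_nonneg x]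

lemma aux_f3 {K x n : ℝ} (hx : 0 ≤ x) (h : x * (2 * (K + 1)) ≤ n) : K * x ≤ n / 2 := by
  nlinarith

lemma aux_C5 {n0 β h : ℝ} (hb : 0 < β) (hh0 : 0 < h) (hh1 : h ≤ 1 / 2) (hn : 0 < n0)
    (h1 : h * (5 * β) ≤ n0) : 11 / 10 * β * h ^ 2 ≤ n0 / 4 := by
  have h2 : h ^ 2 ≤ h * (1 / 2) := by nlinarith
  have h3 : β * h ^ 2 ≤ β * (h * (1 / 2)) := mul_le_mul_of_nonneg_left h2 hb.le
  nlinarith

lemma aux_C1 {M β h : ℝ} (hM : 0 ≤ M) (hb : 0 < β) (hh0 : 0 < h) (hh1 : h ≤ 1 / 2) :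
    (2 * M + h * (11 / 10 * β) / 2) ^ 2 ≤ 3 * M + (5 * M + β) ^ 2 + M ^ 2 := by
  have g1 : 2 * M + h * (11 / 10 * β) / 2 ≤ 5 * M + β := by nlinarith
  have g2 : 0 ≤ 2 * M + h * (11 / 10 * β) / 2 := by positivity
  have g3 := pow_le_pow_left₀ g2 g1 2
  nlinarith [sq_nonneg M]

lemma aux_smul {c C B : ℝ} {v : ℂ} (hc : 0 ≤ c) (hcC : c ≤ C) (hv : ‖v‖ ≤ B) :
    ‖((c : ℝ) : ℂ) * v‖ ≤ C * B := by
  rw [norm_mul, Complex.norm_real, Real.norm_of_nonneg hc]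
  exact mul_le_mul hcC hv (norm_nonneg _) (hc.trans hcC)

lemma aux_xi {h M β : ℝ} {N gp gm Lp Lm : ℂ} (hh0 : 0 < h) (hh1 : h ≤ 1 / 2)
    (hN : ‖N‖ ≤ 2 * M) (hgp : ‖gp‖ ≤ M) (hgm : ‖gm‖ ≤ M) (hLp : ‖Lp‖ ≤ 2 * β)
    (hLm : ‖Lm‖ ≤ 2 * β) :
    ‖N - ((16 / 15 * h : ℝ) : ℂ) * gp - ((h ^ 2 / 6 : ℝ) : ℂ) * Lp
      - ((16 / 15 * h : ℝ) : ℂ) * gm + ((h ^ 2 / 6 : ℝ) : ℂ) * Lm‖ ≤ 5 * M + β := by
  have hM : 0 ≤ M := (norm_nonneg _).trans hgp
  have hh2 : h ^ 2 / 6 ≤ 1 / 24 := by nlinarith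
  have a1 := aux_smul (v := gp) (by positivity : 0 ≤ 16 / 15 * h) (by linarith : _ ≤ (1 : ℝ)) hgp
  have a2 := aux_smul (v := gm) (by positivity : 0 ≤ 16 / 15 * h) (by linarith : _ ≤ (1 : ℝ)) hgm
  have a3 := aux_smul (v := Lp) (by positivity : 0 ≤ h ^ 2 / 6) hh2 hLp
  have a4 := aux_smul (v := Lm) (by positivity : 0 ≤ h ^ 2 / 6) hh2 hLm
  have t1 := norm_add_le (N - ((16 / 15 * h : ℝ) : ℂ) * gp
    - ((h ^ 2 / 6 : ℝ) : ℂ) * Lp - ((16 / 15 * h : ℝ) : ℂ) * gm) (((h ^ 2 / 6 : ℝ) : ℂ) * Lm)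
  have t2 := norm_sub_le (N - ((16 / 15 * h : ℝ) : ℂ) * gp
    - ((h ^ 2 / 6 : ℝ) : ℂ) * Lp) (((16 / 15 * h : ℝ) : ℂ) * gm)
  have t3 := norm_sub_le (N - ((16 / 15 * h : ℝ) : ℂ) * gp) (((h ^ 2 / 6 : ℝ) : ℂ) * Lp)
  have t4 := norm_sub_le N (((16 / 15 * h : ℝ) : ℂ) * gp)
  have hβ : 0 ≤ 2 * β := (norm_nonneg _).trans hLp
  linarith

lemma aux_h4 {C ε τ : ℝ} (h : C * τ ≤ 2 * ε) (hτ : 0 < τ) : C * τ ^ 2 ≤ 2 * ε * τ := by
  nlinarith

lemma aux_abs2 {x : ℝ} (h1 : -(1 / 10) ≤ x) (h2 : x ≤ 1 / 10) : |1 + x| ≤ 2 ∧ |1 - x| ≤ 2 := by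
  constructor <;> rw [abs_le] <;> constructor <;> linarith

theorem strip_cal (hSEC : S_SEC) {q q1 q2 p p1 p2 p3 m m1 m2 m3 : ℂ → ℂ} {a : ℝ} (ha : 0 < a)
    (hq : ∀ w ∈ Strip a, HasDerivAt q (q1 w) w) (hq1 : ∀ w ∈ Strip a, HasDerivAt q1 (q2 w) w)
    (q0 : ∀ w ∈ Strip a, q w ≠ 0) (qper : ∀ w, q (w + 2 * π * I) = q w)
    (q1per : ∀ w, q1 (w + 2 * π * I) = q1 w)
    (ne : ∃ θ : ℝ, (q1 (θ * I) * conj (q (θ * I))).re ≠ 0)
    (hp : ∀ w ∈ Strip a, HasDerivAt p (p1 w) w) (hp1 : ∀ w ∈ Strip a, HasDerivAt p1 (p2 w) w)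
    (hp2 : ∀ w ∈ Strip a, HasDerivAt p2 (p3 w) w) (cp3 : ContinuousOn p3 (Strip a))
    (pper : ∀ w, p (w + 2 * π * I) = p w)
    (pper1 : ∀ w, p1 (w + 2 * π * I) = p1 w) (pper2 : ∀ w, p2 (w + 2 * π * I) = p2 w)
    (pper3 : ∀ w, p3 (w + 2 * π * I) = p3 w) (pr : ∀ θ : ℝ, (p (θ * I)).im = 0)
    (hm : ∀ w ∈ Strip a, HasDerivAt m (m1 w) w) (hm1 : ∀ w ∈ Strip a, HasDerivAt m1 (m2 w) w)
    (hm2 : ∀ w ∈ Strip a, HasDerivAt m2 (m3 w) w) (cm3 : ContinuousOn m3 (Strip a))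
    (mper : ∀ w, m (w + 2 * π * I) = m w)
    (mper1 : ∀ w, m1 (w + 2 * π * I) = m1 w) (mper2 : ∀ w, m2 (w + 2 * π * I) = m2 w)
    (mper3 : ∀ w, m3 (w + 2 * π * I) = m3 w) (mr : ∀ θ : ℝ, (m (θ * I)).im = 0)
    (EL : ∀ θ : ℝ, ‖p1 (θ * I)‖ ^ 2 - ‖m1 (θ * I)‖ ^ 2 = r1 q q1 θ)
    (up : ∀ w ∈ Strip a, (p w).re ≤ -1) (um : ∀ w ∈ Strip a, 1 ≤ (m w).re) :
    ∃ σ : ℝ, 0 < σ ∧ σ ≤ a ∧ ∀ s : ℝ, 0 < s → s ≤ σ →
      ∃ (T : ℝ) (H : ℂ × ℝ → ℂ) (om : ℂ → ℝ), 0 ≤ T ∧ Cal q p p1 m m1 s T H om := by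
  obtain ⟨ε, c, δ, μ, μ1, hε, hc, hδ, hδa, dμ, cμ1, perμ, perμ1, hN⟩ :=
    hSEC q q1 q2 a ha hq hq1 q0 qper ne
  obtain ⟨Bp, bp0, hBp⟩ := one_side ha hδa hp hp1 hp2 cp3 pper1 pper2 pper3 pr
  obtain ⟨Bm, bm0, hBm⟩ := one_side ha hδa hm hm1 hm2 cm3 mper1 mper2 mper3 mr
  have cq : ContinuousOn q (Strip a) := fun w hw => (hq w hw).continuousAt.continuousWithinAt
  have cq1 : ContinuousOn q1 (Strip a) := fun w hw => (hq1 w hw).continuousAt.continuousWithinAt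
  -- smoothness of the coefficient functions
  have qa := cd_axis ha (Par.cd_of_hol hq)
  have q1a := cd_axis ha (Par.cd_of_hol hq1)
  have cj : ContDiff ℝ 1 (fun z : ℂ => conj z) := (Complex.conjCLE : ℂ →L[ℝ] ℂ).contDiff
  have q0a : ∀ θ : ℝ, q (θ * I) ≠ 0 := fun θ => q0 _ (axis_mem ha θ)
  have c0 : ContDiff ℝ 1 (r0 q) := qa.norm ℝ q0a
  have c1 : ContDiff ℝ 1 (r1 q q1) := by
    have h1 : ContDiff ℝ 1 (fun θ : ℝ => (q1 (θ * I) * conj (q (θ * I))).re) :=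
      Complex.reCLM.contDiff.comp (q1a.mul (cj.comp qa))
    exact h1.div (qa.norm ℝ q0a) (fun θ => norm_ne_zero_iff.2 (q0a θ))
  have per0 : ∀ θ, r0 q (θ + 2 * π) = r0 q θ := by
    intro θ; unfold r0; rw [per_axis qper]
  have per1 : ∀ θ, r1 q q1 (θ + 2 * π) = r1 q q1 θ := by
    intro θ; unfold r1; rw [per_axis qper, per_axis q1per]
  have cμ : ContDiff ℝ 1 μ := by
    rw [contDiff_one_iff_deriv]
    refine ⟨fun θ => (dμ θ).differentiableAt, ?_⟩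
    have : deriv μ = μ1 := funext fun θ => (dμ θ).deriv
    rw [this]; exact cμ1.continuous
  obtain ⟨K0, k00, hK0⟩ := real_bound c0.continuous per0
  obtain ⟨K1, k10, hK1⟩ := real_bound c1.continuous per1
  obtain ⟨K2, k20, hK2⟩ := real_bound cμ.continuous perμ
  obtain ⟨K3, k30, hK3⟩ := real_bound cμ1.continuous perμ1
  obtain ⟨Ki, ki0, hKi⟩ := per_bound (φ := fun w => (q w)⁻¹) ha (cq.inv₀ q0)
    (fun w => by rw [qper]) (s := 0)
  obtain ⟨n1, hn1, hn1'⟩ : ∃ n1 : ℝ, 0 < n1 ∧ ∀ θ, n1 ≤ r0 q θ := by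
    refine ⟨(Ki + 1)⁻¹, by positivity, fun θ => ?_⟩
    have h1 := hKi (θ * I) (by simp)
    simp only [norm_inv] at h1
    have h2 : 0 < ‖q (θ * I)‖ := norm_pos_iff.2 (q0a θ)
    unfold r0
    rw [inv_le_comm₀ (by positivity) h2]
    linarith
  -- range of the functions
  obtain ⟨Tp, tp0, hTp⟩ := per_bound hδa
    (fun w hw => (hp w hw).continuousAt.continuousWithinAt) pper
  obtain ⟨Tm, tm0, hTm⟩ := per_bound hδa
    (fun w hw => (hm w hw).continuousAt.continuousWithinAt) mper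
  -- the constants
  obtain ⟨M, hM⟩ : ∃ M : ℝ, M = Bp + Bm + K0 + K1 + K2 + K3 + ε + 1 := ⟨_, rfl⟩
  have hM1 : 1 ≤ M := by rw [hM]; linarith
  have hM0 : 0 ≤ M := by linarith
  obtain ⟨n0, hn0⟩ : ∃ n0 : ℝ, n0 = n1 / 2 := ⟨_, rfl⟩
  have hn0' : 0 < n0 := by rw [hn0]; positivity
  obtain ⟨β, hβ⟩ : ∃ β : ℝ, β = (32 * M ^ 4 / c + 24 * M ^ 2) / (9 / 40 * n0) + 1 := ⟨_, rfl⟩
  have hβ0 : 1 ≤ β := by rw [hβ]; have : 0 ≤ (32 * M ^ 4 / c + 24 * M ^ 2) / (9 / 40 * n0) := by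
                           positivity
                         linarith
  have C4 : 32 * M ^ 4 / c + 24 * M ^ 2 ≤ 9 / 40 * n0 * β := by
    have h1 : (32 * M ^ 4 / c + 24 * M ^ 2) / (9 / 40 * n0) ≤ β := by rw [hβ]; linarith
    rw [div_le_iff₀ (by positivity)] at h1
    linarith
  obtain ⟨h, hh⟩ : ∃ h : ℝ, h = min (1 / 2) (min (n0 / (5 * M)) (n0 / (5 * β))) := ⟨_, rfl⟩
  have hh0 : 0 < h := by
    rw [hh]
    refine lt_min (by norm_num) (lt_min (by positivity) ?_)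
    have : 0 < β := by linarith
    positivity
  have hh1 : h ≤ 1 / 2 := by rw [hh]; exact min_le_left _ _
  have C3 : 5 * h * M ≤ n0 := by
    have h1 : h ≤ n0 / (5 * M) := by
      rw [hh]; exact (min_le_right _ _).trans (min_le_left _ _)
    rw [le_div_iff₀ (by positivity)] at h1
    linarith
  have C5 : 11 / 10 * β * h ^ 2 ≤ n0 / 4 := by
    have h1 : h ≤ n0 / (5 * β) := by
      rw [hh]; exact (min_le_right _ _).trans (min_le_right _ _)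
    have hb : 0 < β := by linarith
    rw [le_div_iff₀ (by positivity)] at h1
    exact aux_C5 hb hh0 hh1 hn0' h1
  obtain ⟨G, hG⟩ : ∃ G : ℝ, G = 3 * M + (5 * M + β) ^ 2 + M ^ 2 := ⟨_, rfl⟩
  have hG0 : 0 < G := by rw [hG]; positivity
  obtain ⟨γ, hγ⟩ : ∃ γ : ℝ, γ = 6 * G / (h ^ 2 * β) := ⟨_, rfl⟩
  have hβp : 0 < β := by linarith
  have hγ0 : 0 < γ := by rw [hγ]; positivity
  have hlam : h ^ 2 * (β * γ) / 6 = G := by
    rw [hγ]; field_simp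
  obtain ⟨Cd, hCd⟩ : ∃ Cd : ℝ, Cd = Bp + Bm + 1 := ⟨_, rfl⟩
  have hCd0 : 0 < Cd := by rw [hCd]; linarith
  obtain ⟨σ, hσ⟩ : ∃ σ : ℝ, σ = min (min δ 1) (min (1 / (10 * γ))
      (min (2 * ε / Cd) (n1 / (2 * (K1 + K3 + ε + 1))))) := ⟨_, rfl⟩
  have hσ0 : 0 < σ := by
    rw [hσ]
    refine lt_min (lt_min hδ one_pos) (lt_min (by positivity) (lt_min (by positivity) ?_))
    have : 0 < K1 + K3 + ε + 1 := by linarith
    positivity
  have s1 : σ ≤ δ := by rw [hσ]; exact (min_le_left _ _).trans (min_le_left _ _)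
  have s2 : σ ≤ 1 := by rw [hσ]; exact (min_le_left _ _).trans (min_le_right _ _)
  have s3 : σ ≤ 1 / (10 * γ) := by rw [hσ]; exact (min_le_right _ _).trans (min_le_left _ _)
  have s4 : σ ≤ 2 * ε / Cd := by
    rw [hσ]; exact (min_le_right _ _).trans ((min_le_right _ _).trans (min_le_left _ _))
  have s5 : σ ≤ n1 / (2 * (K1 + K3 + ε + 1)) := by
    rw [hσ]; exact (min_le_right _ _).trans ((min_le_right _ _).trans (min_le_right _ _))
  refine ⟨σ, hσ0, s1.trans hδa.le, fun s hs0 hsσ => ?_⟩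
  obtain ⟨Z, hZe⟩ : ∃ Z : Par, Z = ⟨p, p1, p2, m, m1, m2, r0 q, r1 q q1, μ, μ1, ε, h, β, γ⟩ :=
    ⟨_, rfl⟩
  have hDif : Z.Dif a := by
    rw [hZe]
    exact ⟨hh0, hp, hp1, hm, hm1, c0, c1, cμ, cμ1, dμ⟩
  have hsub : Strip s ⊆ Strip a := fun w hw =>
    lt_of_lt_of_le hw (hsσ.trans (s1.trans hδa.le))
  have hle : ∀ w ∈ Strip s, |w.re| ≤ δ := fun w hw =>
    (le_of_lt (lt_of_lt_of_le hw hsσ)).trans s1
  have hbd : ∀ w ∈ Strip s, Z.Bd M c n0 ‖q w‖ w := by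
    intro w hw
    have hwσ : |w.re| < σ := lt_of_lt_of_le hw hsσ
    have aw := abs_nonneg w.re
    have w1 : |w.re| ≤ 1 := by linarith
    obtain ⟨p01, p02, p03⟩ := hBp w (hle w hw)
    obtain ⟨m01, m02, m03⟩ := hBm w (hle w hw)
    have b0 := abs_le.1 (hK0 w.im)
    have b1 := abs_le.1 (hK1 w.im)
    have b2 := hK2 w.im
    have b3 := abs_le.1 (hK3 w.im)
    have t2 : w.re ^ 2 ≤ |w.re| := aux_sq_le w1
    have t20 : 0 ≤ w.re ^ 2 := sq_nonneg _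
    have eN1 : (Z.NN w).re = -(r0 q w.im + r1 q q1 w.im * w.re
        + (μ1 w.im / 2 + ε) * w.re ^ 2) := by
      rw [hZe]; unfold Par.NN
      simp only [add_re, neg_re, ofReal_re, mul_re, I_re, I_im, ofReal_im]
      ring
    have eN2 : (Z.NN w).im = μ w.im * w.re := by
      rw [hZe]; unfold Par.NN
      simp only [add_im, neg_im, ofReal_re, mul_im, I_re, I_im, ofReal_im]
      ring
    have f1 : |r1 q q1 w.im * w.re| ≤ K1 * |w.re| := by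
      rw [abs_mul]; exact mul_le_mul_of_nonneg_right (hK1 _) aw
    have f2 : |(μ1 w.im / 2 + ε) * w.re ^ 2| ≤ (K3 + ε) * |w.re| := by
      rw [abs_mul, abs_of_nonneg t20]
      have h1 : |μ1 w.im / 2 + ε| ≤ K3 + ε := by rw [abs_le]; constructor <;> linarith
      exact mul_le_mul h1 t2 t20 (by linarith)
    have f3 : (K1 + K3 + ε) * |w.re| ≤ n1 / 2 := by
      have h1 : |w.re| ≤ n1 / (2 * (K1 + K3 + ε + 1)) := hwσ.le.trans s5
      rw [le_div_iff₀ (by linarith)] at h1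
      exact aux_f3 aw h1
    have f1' := abs_le.1 f1
    have f2' := abs_le.1 f2
    have NN2 : ‖Z.NN w‖ ^ 2 = (r0 q w.im + r1 q q1 w.im * w.re
        + (μ1 w.im / 2 + ε) * w.re ^ 2) ^ 2 + (μ w.im * w.re) ^ 2 := by
      rw [← Complex.normSq_eq_norm_sq, Complex.normSq_apply, eN1, eN2]; ring
    have N1 : n0 ≤ -(Z.NN w).re := by
      rw [eN1, hn0]
      have := hn1' w.im
      linarith
    have N2 : -(Z.NN w).re ≤ M := by
      rw [eN1, hM]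
      have g1 : K1 * |w.re| ≤ K1 := mul_le_of_le_one_right k10 w1
      have g2 : (K3 + ε) * |w.re| ≤ K3 + ε := mul_le_of_le_one_right (by linarith) w1
      linarith
    have N3 : |(Z.NN w).im| ≤ M * |w.re| := by
      rw [eN2, abs_mul]
      apply mul_le_mul_of_nonneg_right _ aw
      rw [hM]; linarith
    have nn : ‖Z.NN w‖ ≤ 2 * M := by
      refine (Complex.norm_le_abs_re_add_abs_im _).trans ?_
      have g1 : |(Z.NN w).re| ≤ M := by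
        rw [abs_le]; constructor <;> linarith
      have g2 : M * |w.re| ≤ M := mul_le_of_le_one_right hM0 w1
      linarith
    have egp : Z.gp w = conj (p1 w) := by rw [hZe]; rfl
    have egm : Z.gm w = conj (m1 w) := by rw [hZe]; rfl
    have gp2 : ‖Z.gp w‖ ≤ M := by
      rw [egp, Complex.norm_conj, hM]; linarith
    have gm2 : ‖Z.gm w‖ ≤ M := by
      rw [egm, Complex.norm_conj, hM]; linarith
    have hZh : Z.h = h := by rw [hZe]
    have hZβ : Z.β = β := by rw [hZe]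
    have hZγ : Z.γ = γ := by rw [hZe]
    have hZl : Z.lam = β * γ := by rw [hZe]; rfl
    have g10 : |Z.γ * w.re| ≤ 1 / 10 := by
      rw [hZγ, abs_mul, abs_of_pos hγ0]
      have h1 : |w.re| ≤ 1 / (10 * γ) := hwσ.le.trans s3
      rw [le_div_iff₀ (by positivity)] at h1
      linarith
    have g10' := abs_le.1 g10
    have Lpn : ‖Z.Lp w‖ ≤ 2 * β := by
      unfold Par.Lp
      rw [Complex.norm_real, Real.norm_eq_abs, abs_neg, hZβ, abs_mul, abs_of_pos hβp, mul_comm 2 β]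
      exact mul_le_mul_of_nonneg_left (aux_abs2 g10'.1 g10'.2).1 hβp.le
    have Lmn : ‖Z.Lm w‖ ≤ 2 * β := by
      unfold Par.Lm
      rw [Complex.norm_real, Real.norm_eq_abs, hZβ, abs_mul, abs_of_pos hβp, mul_comm 2 β]
      exact mul_le_mul_of_nonneg_left (aux_abs2 g10'.1 g10'.2).2 hβp.le
    have hxi : ‖Z.xi w‖ ≤ 5 * M + β := by
      unfold Par.xi
      rw [hZh]
      exact aux_xi hh0 hh1 nn gp2 gm2 Lpn Lmn
    have hDN : |Z.DN w| ≤ 3 * M := by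
      have e : Z.DN w = -r1 q q1 w.im - 2 * ε * w.re := by rw [hZe]; rfl
      rw [e]
      have g1 : |2 * ε * w.re| ≤ 2 * ε := by
        rw [abs_mul, abs_of_pos (by positivity)]
        exact mul_le_of_le_one_right (by positivity) w1
      have g1' := abs_le.1 g1
      rw [abs_le]
      constructor
      · rw [hM]; linarith
      · rw [hM]; linarith
    refine ⟨w1, by rw [hZh]; exact hh0, by rw [hZh]; exact hh1, by rw [hZβ]; exact hβp,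
      by rw [hZγ]; exact hγ0, hM0, hc, hn0', ?_, ?_, N1, N2, N3, ?_, gp2, ?_, gm2, g10,
      norm_nonneg _, ?_, ?_, ?_, by rw [hZh]; exact C3, by rw [hZβ]; exact C4,
      by rw [hZβ, hZh]; exact C5⟩
    · rw [hZe]; exact up w (hsub hw)
    · rw [hZe]; exact um w (hsub hw)
    · rw [egp, Complex.conj_re]
      exact p02.trans (mul_le_mul_of_nonneg_right (by rw [hM]; linarith) aw)
    · rw [egm, Complex.conj_re]
      exact m02.trans (mul_le_mul_of_nonneg_right (by rw [hM]; linarith) aw)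
    · rw [NN2]
      have := hN w.re w.im (hle w hw)
      rw [Complex.re_add_im] at this
      exact this
    · rw [hZh, hZβ, hZl, hlam, hG]
      exact aux_C1 hM0 hβp hh0 hh1
    · rw [hZh, hZl, hlam, hG]
      have g3 := pow_le_pow_left₀ (norm_nonneg _) hxi 2
      linarith
  -- the sign of the divergence defect
  have defect : ∀ w ∈ Strip s, |Z.DN w + ‖Z.gp w‖ ^ 2 - ‖Z.gm w‖ ^ 2 + 2 * ε * w.re| ≤
      Cd * w.re ^ 2 := by
    intro w hw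
    obtain ⟨-, -, p03⟩ := hBp w (hle w hw)
    obtain ⟨-, -, m03⟩ := hBm w (hle w hw)
    have e : Z.DN w = -r1 q q1 w.im - 2 * ε * w.re := by rw [hZe]; rfl
    have egp : ‖Z.gp w‖ = ‖p1 w‖ := by rw [hZe]; unfold Par.gp; rw [Complex.norm_conj]
    have egm : ‖Z.gm w‖ = ‖m1 w‖ := by rw [hZe]; unfold Par.gm; rw [Complex.norm_conj]
    have el := EL w.im
    rw [e, egp, egm, ← el]
    have e2 : -(‖p1 (w.im * I)‖ ^ 2 - ‖m1 (w.im * I)‖ ^ 2) - 2 * ε * w.re + ‖p1 w‖ ^ 2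
        - ‖m1 w‖ ^ 2 + 2 * ε * w.re = (‖p1 w‖ ^ 2 - ‖p1 (w.im * I)‖ ^ 2)
        - (‖m1 w‖ ^ 2 - ‖m1 (w.im * I)‖ ^ 2) := by ring
    rw [e2]
    refine (abs_sub _ _).trans ?_
    have h0 := sq_nonneg w.re
    have e3 : Cd * w.re ^ 2 = Bp * w.re ^ 2 + Bm * w.re ^ 2 + w.re ^ 2 := by rw [hCd]; ring
    rw [e3]
    linarith
  have cdτ : ∀ w ∈ Strip s, Cd * |w.re| ≤ 2 * ε := by
    intro w hw
    have h1 : |w.re| ≤ 2 * ε / Cd := (le_of_lt (lt_of_lt_of_le hw hsσ)).trans s4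
    rw [le_div_iff₀ hCd0] at h1
    linarith
  have hZp : Z.p = p := by rw [hZe]
  have hZm : Z.m = m := by rw [hZe]
  have hZgp : ∀ w, Z.gp w = conj (p1 w) := fun w => by rw [hZe]; rfl
  have hZgm : ∀ w, Z.gm w = conj (m1 w) := fun w => by rw [hZe]; rfl
  refine ⟨Tp + Tm + 1, Z.H, Z.om, by positivity, ?_⟩
  constructor
  · exact (Par.H_contDiffOn hDif).mono (prod_mono hsub Subset.rfl)
  · intro w t
    have r1' : (w + 2 * π * I).re = w.re := by simp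
    have i1' : (w + 2 * π * I).im = w.im + 2 * π := by simp
    rw [hZe]
    unfold Par.H Par.xi Par.NN Par.gp Par.gm Par.Lp Par.Lm
    simp only [r1', i1', pper, pper1, mper, mper1, per0, per1, perμ, perμ1]
  · intro w hw t
    exact Par.ineq1 hDif (hsub hw) (hbd w hw) t
  · intro w hw s' t
    exact Par.ineq2 (hbd w hw) s' t
  · intro w hw hpos
    have h1 := Par.eq_p hDif (hsub hw) (hbd w hw)
    rw [hZp] at h1
    rw [← hZgp, h1]
    have h2 := (abs_le.1 (defect w hw)).2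
    have h3 := cdτ w hw
    rw [abs_of_pos hpos] at h3
    have h4 : Cd * w.re ^ 2 ≤ 2 * ε * w.re := aux_h4 h3 hpos
    have h5 : Z.om w = Z.h ^ 2 * Z.lam / 6 - ‖Z.gp w‖ ^ 2 := by
      unfold Par.om
      apply max_eq_left
      linarith
    have h6 : ‖Z.gp w‖ = ‖p1 w‖ := by rw [hZgp, Complex.norm_conj]
    rw [h5, h6]
    ring
  · intro w hw hneg
    have h1 := Par.eq_m hDif (hsub hw) (hbd w hw)
    rw [hZm] at h1
    rw [← hZgm, h1]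
    have h2 := (abs_le.1 (defect w hw)).1
    have h3 := cdτ w hw
    rw [abs_of_neg hneg] at h3
    have h4 : Cd * w.re ^ 2 ≤ -(2 * ε * w.re) := by
      have := aux_h4 h3 (neg_pos.2 hneg)
      rwa [neg_sq, mul_neg] at this
    have h5 : Z.om w = Z.DN w + Z.h ^ 2 * Z.lam / 6 - ‖Z.gm w‖ ^ 2 := by
      unfold Par.om
      apply max_eq_right
      linarith
    have h6 : ‖Z.gm w‖ = ‖m1 w‖ := by rw [hZgm, Complex.norm_conj]
    rw [h5, h6]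
    ring
  · intro w hw
    have hws : w ∈ Strip s := by
      show |w.re| < s
      rw [hw, abs_zero]; exact hs0
    have h1 := Par.jump (hbd w hws)
    rw [hZp, hZm] at h1
    rw [h1, hZe]
    unfold Par.NN r0
    simp only [hw]
    have e : ((w.im : ℂ) * I) = w := by
      apply Complex.ext <;> simp [hw]
    rw [e]
    push_cast
    ring
  · intro w hw t ht
    have h1 := (Complex.abs_re_le_norm _).trans (hTm w (hle w hw))
    have h2 := (abs_le.1 h1).2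
    exact Par.H_above (hbd w hw) (by rw [hZm]; linarith) ht
  · intro w hw t ht
    have h1 := (Complex.abs_re_le_norm _).trans (hTp w (hle w hw))
    have h2 := (abs_le.1 h1).1
    exact Par.H_below (hbd w hw) (by rw [hZp]; linarith) ht

end Pool.Agent.Y195.LM
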