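import Pool.Agent.Y195.LM.Ineq

/-!
# Bounds for periodic functions on a strip
-/

set_option autoImplicit false

open Set Filter Topology Complex
open scoped ComplexConjugate Real

namespace Pool.Agent.Y195.LM

lemma per_bound {φ : ℂ → ℂ} {a s : ℝ} (hs : s < a) (hc : ContinuousOn φ (Strip a))
    (hper : ∀ w, φ (w + 2 * π * I) = φ w) : ∃ B : ℝ, 0 ≤ B ∧ ∀ w : ℂ, |w.re| ≤ s → ‖φ w‖ ≤ B := by
  have hK : IsCompact (Icc (-s) s ×ℂ Icc 0 (2 * π)) := isCompact_Icc.reProdIm isCompact_Icc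
  have hKs : (Icc (-s) s ×ℂ Icc 0 (2 * π)) ⊆ Strip a := by
    intro w hw
    have h1 := hw.1
    show |w.re| < a
    exact lt_of_le_of_lt (abs_le.2 ⟨h1.1, h1.2⟩) hs
  obtain ⟨B, hB⟩ := hK.exists_bound_of_continuousOn (hc.mono hKs)
  refine ⟨max B 0, le_max_right _ _, fun w hw => ?_⟩
  have hP : Function.Periodic φ (2 * π * I) := hper
  have hpi : (0 : ℝ) < 2 * π := by positivity
  set n : ℤ := ⌊w.im / (2 * π)⌋ with hn
  have e := hP.sub_zsmul_eq (x := w) n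
  have h2 : (w - n • (2 * π * I)).re = w.re := by simp
  have h3 : (w - n • (2 * π * I)).im = w.im - n * (2 * π) := by simp
  rw [← e]
  refine (hB _ ?_).trans (le_max_left _ _)
  refine ⟨?_, ?_⟩
  · show (w - n • (2 * π * I)).re ∈ Icc (-s) s
    rw [h2]
    exact ⟨(abs_le.1 hw).1, (abs_le.1 hw).2⟩
  · show (w - n • (2 * π * I)).im ∈ Icc 0 (2 * π)
    rw [h3]
    have h4 := Int.floor_le (w.im / (2 * π))
    have h5 := Int.lt_floor_add_one (w.im / (2 * π))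
    rw [← hn] at h4 h5
    rw [le_div_iff₀ hpi] at h4
    rw [div_lt_iff₀ hpi] at h5
    constructor <;> nlinarith

lemma real_bound {g : ℝ → ℝ} (hc : Continuous g) (hper : ∀ θ, g (θ + 2 * π) = g θ) :
    ∃ B : ℝ, 0 ≤ B ∧ ∀ θ, |g θ| ≤ B := by
  have hb := Function.Periodic.isBounded_of_continuous (f := g) (c := 2 * π) hper
    (by positivity) hc
  obtain ⟨B, hB⟩ := hb.exists_norm_le
  exact ⟨max B 0, le_max_right _ _, fun θ => (hB _ ⟨θ, rfl⟩).trans (le_max_left _ _)⟩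

lemma mvt {φ φ' : ℂ → ℂ} {a s B : ℝ} (hs : s < a) (hφ : ∀ w ∈ Strip a, HasDerivAt φ (φ' w) w)
    (hB : ∀ w : ℂ, |w.re| ≤ s → ‖φ' w‖ ≤ B) {w : ℂ} (hw : |w.re| ≤ s) :
    ‖φ w - φ (w.im * I)‖ ≤ B * |w.re| := by
  have hcv : Convex ℝ {z : ℂ | |z.re| ≤ s} := by
    have : {z : ℂ | |z.re| ≤ s} = Complex.reCLM ⁻¹' Icc (-s) s := by
      ext z
      simp only [mem_setOf_eq, mem_preimage, Complex.reCLM_apply, mem_Icc]
      exact abs_le
    rw [this]
    exact (convex_Icc _ _).linear_preimage _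
  have h0 : ((w.im : ℂ) * I) ∈ {z : ℂ | |z.re| ≤ s} := by
    show |((w.im : ℂ) * I).re| ≤ s
    simp
    exact (abs_nonneg _).trans hw
  have h := hcv.norm_image_sub_le_of_norm_hasDerivWithin_le (f := φ) (f' := φ') (C := B)
    (fun z hz => (hφ z (lt_of_le_of_lt hz hs)).hasDerivWithinAt) (fun z hz => hB z hz) h0 hw
  have e : w - w.im * I = w.re := by
    apply Complex.ext <;> simp
  rw [e, Complex.norm_real, Real.norm_eq_abs] at h
  exact h

/-- the derivative of a function that is real on the axis is imaginary there -/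
lemma axis_re {p p1 : ℂ → ℂ} (h : ∀ θ : ℝ, HasDerivAt p (p1 (θ * I)) (θ * I))
    (hr : ∀ θ : ℝ, (p (θ * I)).im = 0) (θ : ℝ) : (p1 (θ * I)).re = 0 := by
  have h1 : HasDerivAt (fun θ : ℝ => (θ : ℂ) * I) (1 * I) θ :=
    Complex.ofRealCLM.hasDerivAt.mul_const I
  have h2 : HasDerivAt (fun θ : ℝ => p (θ * I)) _ θ := (h θ).scomp θ h1
  have h3 : HasDerivAt (fun θ : ℝ => (p (θ * I)).im) _ θ :=
    Complex.imCLM.hasFDerivAt.comp_hasDerivAt θ h2
  have h4 : (fun θ : ℝ => (p (θ * I)).im) = fun _ => 0 := funext hr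
  rw [h4] at h3
  have h5 := h3.unique (hasDerivAt_const θ (0 : ℝ))
  simpa using h5

/-- the derivative of a function that is imaginary on the axis is real there -/
lemma axis_im {p p1 : ℂ → ℂ} (h : ∀ θ : ℝ, HasDerivAt p (p1 (θ * I)) (θ * I))
    (hr : ∀ θ : ℝ, (p (θ * I)).re = 0) (θ : ℝ) : (p1 (θ * I)).im = 0 := by
  have h1 : HasDerivAt (fun θ : ℝ => (θ : ℂ) * I) (1 * I) θ :=
    Complex.ofRealCLM.hasDerivAt.mul_const I
  have h2 : HasDerivAt (fun θ : ℝ => p (θ * I)) _ θ := (h θ).scomp θ h1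
  have h3 : HasDerivAt (fun θ : ℝ => (p (θ * I)).re) _ θ :=
    Complex.reCLM.hasFDerivAt.comp_hasDerivAt θ h2
  have h4 : (fun θ : ℝ => (p (θ * I)).re) = fun _ => 0 := funext hr
  rw [h4] at h3
  have h5 := h3.unique (hasDerivAt_const θ (0 : ℝ))
  simpa using h5

lemma axis_mem {a : ℝ} (ha : 0 < a) (θ : ℝ) : (θ : ℂ) * I ∈ Strip a := by
  show |((θ : ℂ) * I).re| < a
  simpa using ha

/-- bounds for one harmonic function -/
lemma one_side {p p1 p2 p3 : ℂ → ℂ} {a s : ℝ} (ha : 0 < a) (hs : s < a)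
    (hp : ∀ w ∈ Strip a, HasDerivAt p (p1 w) w) (hp1 : ∀ w ∈ Strip a, HasDerivAt p1 (p2 w) w)
    (hp2 : ∀ w ∈ Strip a, HasDerivAt p2 (p3 w) w) (c3 : ContinuousOn p3 (Strip a))
    (per1 : ∀ w, p1 (w + 2 * π * I) = p1 w) (per2 : ∀ w, p2 (w + 2 * π * I) = p2 w)
    (per3 : ∀ w, p3 (w + 2 * π * I) = p3 w) (hr : ∀ θ : ℝ, (p (θ * I)).im = 0) :
    ∃ B : ℝ, 0 ≤ B ∧ ∀ w : ℂ, |w.re| ≤ s → ‖p1 w‖ ≤ B ∧ |(p1 w).re| ≤ B * |w.re| ∧
      |‖p1 w‖ ^ 2 - ‖p1 (w.im * I)‖ ^ 2| ≤ B * w.re ^ 2 := by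
  have c1 : ContinuousOn p1 (Strip a) := fun w hw => (hp1 w hw).continuousAt.continuousWithinAt
  have c2 : ContinuousOn p2 (Strip a) := fun w hw => (hp2 w hw).continuousAt.continuousWithinAt
  obtain ⟨B1, b10, hB1⟩ := per_bound hs c1 per1
  obtain ⟨B2, b20, hB2⟩ := per_bound hs c2 per2
  obtain ⟨B3, b30, hB3⟩ := per_bound hs c3 per3
  have ax1 := axis_re (fun θ => hp _ (axis_mem ha θ)) hr
  have ax2 := axis_im (fun θ => hp1 _ (axis_mem ha θ)) ax1
  refine ⟨B1 + B2 + (B2 ^ 2 + 2 * B1 * B3), by positivity, fun w hw => ?_⟩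
  have aw := abs_nonneg w.re
  have q1 : |(p1 w).re| ≤ B2 * |w.re| := by
    have h := mvt hs hp1 hB2 hw
    have h2 := (Complex.abs_re_le_norm _).trans h
    rwa [Complex.sub_re, ax1, sub_zero] at h2
  have q2 : ∀ z : ℂ, |z.re| ≤ s → |(p2 z).im| ≤ B3 * |z.re| := by
    intro z hz
    have h := mvt hs hp2 hB3 hz
    have h2 := (Complex.abs_im_le_norm _).trans h
    rwa [Complex.sub_im, ax2, sub_zero] at h2
  have q3 : |(p1 w).im - (p1 (w.im * I)).im| ≤ B3 * |w.re| * |w.re| := by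
    have hcv : Convex ℝ (Icc (-|w.re|) |w.re|) := convex_Icc _ _
    have hd : ∀ x ∈ Icc (-|w.re|) |w.re|, HasDerivWithinAt
        (fun x : ℝ => (p1 (x + w.im * I)).im) ((p2 (x + w.im * I)).im) (Icc (-|w.re|) |w.re|) x := by
      intro x hx
      have hx' : |((x : ℂ) + w.im * I).re| < a := by
        have : ((x : ℂ) + w.im * I).re = x := by simp
        rw [this]
        exact lt_of_le_of_lt ((abs_le.2 hx).trans hw) hs
      have h1 : HasDerivAt (fun x : ℝ => (x : ℂ) + w.im * I) 1 x :=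
        Complex.ofRealCLM.hasDerivAt.add_const _
      have h2 : HasDerivAt (fun x : ℝ => p1 (x + w.im * I)) _ x := (hp1 _ hx').scomp x h1
      have h3 : HasDerivAt (fun x : ℝ => (p1 (x + w.im * I)).im) _ x :=
        Complex.imCLM.hasFDerivAt.comp_hasDerivAt x h2
      refine (h3.congr_deriv ?_).hasDerivWithinAt
      simp
    have hb : ∀ x ∈ Icc (-|w.re|) |w.re|, ‖(p2 (x + w.im * I)).im‖ ≤ B3 * |w.re| := by
      intro x hx
      have e1 : ((x : ℂ) + w.im * I).re = x := by simp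
      have hx2 : |x| ≤ |w.re| := abs_le.2 hx
      have := q2 (x + w.im * I) (by rw [e1]; exact hx2.trans hw)
      rw [e1] at this
      rw [Real.norm_eq_abs]
      exact this.trans (mul_le_mul_of_nonneg_left hx2 b30)
    have h := hcv.norm_image_sub_le_of_norm_hasDerivWithin_le hd hb
      (x := 0) (y := w.re) ⟨by linarith, aw⟩ (abs_le.1 le_rfl)
    have e2 : ((w.re : ℂ) + w.im * I) = w := Complex.re_add_im w
    have e3 : (((0 : ℝ) : ℂ) + w.im * I) = w.im * I := by simp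
    rw [e2, e3, sub_zero, Real.norm_eq_abs, Real.norm_eq_abs] at h
    exact h
  have n1 := hB1 w hw
  have n0 : ‖p1 (w.im * I)‖ ≤ B1 := hB1 _ (by simp; exact aw.trans hw)
  refine ⟨by nlinarith [mul_nonneg b10 b30, sq_nonneg B2], ?_, ?_⟩
  · refine q1.trans (mul_le_mul_of_nonneg_right ?_ aw)
    nlinarith [mul_nonneg b10 b30, sq_nonneg B2]
  · have e1 : ∀ z : ℂ, ‖z‖ ^ 2 = z.re ^ 2 + z.im ^ 2 := by
      intro z
      rw [← Complex.normSq_eq_norm_sq, Complex.normSq_apply]; ring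
    rw [e1, e1, ax1]
    have i1 : |(p1 w).im| ≤ B1 := (Complex.abs_im_le_norm _).trans n1
    have i2 : |(p1 (w.im * I)).im| ≤ B1 := (Complex.abs_im_le_norm _).trans n0
    have e2 : (p1 w).re ^ 2 + (p1 w).im ^ 2 - (0 ^ 2 + (p1 (w.im * I)).im ^ 2)
        = (p1 w).re ^ 2 + ((p1 w).im - (p1 (w.im * I)).im) * ((p1 w).im + (p1 (w.im * I)).im) := by
      ring
    rw [e2]
    refine (abs_add_le _ _).trans ?_
    have j1 : |(p1 w).re ^ 2| ≤ B2 ^ 2 * w.re ^ 2 := by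
      rw [abs_of_nonneg (sq_nonneg _), ← sq_abs (p1 w).re, ← sq_abs w.re, ← mul_pow]
      exact pow_le_pow_left₀ (abs_nonneg _) q1 2
    have j2 : |((p1 w).im - (p1 (w.im * I)).im) * ((p1 w).im + (p1 (w.im * I)).im)|
        ≤ 2 * B1 * B3 * w.re ^ 2 := by
      rw [abs_mul]
      have k1 : |(p1 w).im + (p1 (w.im * I)).im| ≤ 2 * B1 := by
        refine (abs_add_le _ _).trans ?_
        linarith
      calc |(p1 w).im - (p1 (w.im * I)).im| * |(p1 w).im + (p1 (w.im * I)).im|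
          ≤ (B3 * |w.re| * |w.re|) * (2 * B1) :=
            mul_le_mul q3 k1 (abs_nonneg _) (by positivity)
        _ = 2 * B1 * B3 * |w.re| ^ 2 := by ring
        _ = 2 * B1 * B3 * w.re ^ 2 := by rw [sq_abs]
    have hτ : 0 ≤ w.re ^ 2 := sq_nonneg _
    nlinarith [mul_nonneg b10 hτ, mul_nonneg b20 hτ]

end Pool.Agent.Y195.LM
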